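import Pool.Agent.Helper179.KSDefs

open MeasureTheory Filter Topology

namespace Pool.Agent.Helper179.Eq

open Pool.Agent.Helper179.KS

/-- `ν` is an `f`-invariant Borel probability measure on `ℂ × ℂ`. -/
def IsInvariantProb (f : ℂ × ℂ → ℂ × ℂ) (ν : Measure (ℂ × ℂ)) : Prop :=
  IsProbabilityMeasure ν ∧ MeasurePreserving f ν ν

/-- The quantity `h_ν(f) + ∫ φ dν`. -/
noncomputable def freeEnergy (f : ℂ × ℂ → ℂ × ℂ) (φ : ℂ × ℂ → ℝ) (ν : Measure (ℂ × ℂ)) : EReal :=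
  ksEntropy ν f + ((∫ z, φ z ∂ν : ℝ) : EReal)

/-- The pressure `P(φ)`: the supremum of `h_ν(f) + ∫ φ dν` over all `f`-invariant Borel
probability measures `ν`. -/
noncomputable def pressure (f : ℂ × ℂ → ℂ × ℂ) (φ : ℂ × ℂ → ℝ) : EReal :=
  ⨆ (ν : Measure (ℂ × ℂ)) (_ : IsInvariantProb f ν), freeEnergy f φ ν

/-- `ν` is an equilibrium state of `f` for the weight `φ`: an invariant probability measure
attaining the supremum that defines the pressure. -/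
def IsEquilibriumState (f : ℂ × ℂ → ℂ × ℂ) (φ : ℂ × ℂ → ℝ) (ν : Measure (ℂ × ℂ)) : Prop :=
  IsInvariantProb f ν ∧ freeEnergy f φ ν = pressure f φ

/-- Hölder continuity with respect to the Euclidean metric of `ℂ × ℂ`. -/
def IsHolder (φ : ℂ × ℂ → ℝ) : Prop :=
  ∃ α C : ℝ, 0 < α ∧ α ≤ 1 ∧ ∀ z w : ℂ × ℂ,
    |φ z - φ w| ≤ C * (Real.sqrt (‖z.1 - w.1‖ ^ 2 + ‖z.2 - w.2‖ ^ 2)) ^ α

end Pool.Agent.Helper179.Eq
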