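import Pool.Agent.Helper179.KSLemmas

open MeasureTheory Filter Topology
open scoped ENNReal NNReal

namespace Pool.Agent.Helper179.KS

lemma gibbs {W : Type*} [Fintype W] (p q : W → ℝ) (hp : ∀ w, 0 ≤ p w) (hp1 : ∑ w, p w = 1)
    (hq : ∀ w, 0 ≤ q w) (hq1 : ∑ w, q w ≤ 1) (hpq : ∀ w, p w ≠ 0 → 0 < q w) :
    ∑ w, Real.negMulLog (p w) ≤ ∑ w, p w * (-Real.log (q w)) := by
  have key : ∀ w, Real.negMulLog (p w) ≤ p w * (-Real.log (q w)) + (q w - p w) := by
    intro w
    rcases (hp w).eq_or_lt with h | h
    · rw [← h]; simp [hq w]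
    · have hq' := hpq w h.ne'
      have h1 := Real.log_le_sub_one_of_pos (div_pos hq' h)
      rw [Real.log_div hq'.ne' h.ne'] at h1
      unfold Real.negMulLog
      have h2 : p w * (Real.log (q w) - Real.log (p w)) ≤ p w * (q w / p w - 1) :=
        mul_le_mul_of_nonneg_left h1 h.le
      have h3 : p w * (q w / p w - 1) = q w - p w := by field_simp
      linarith
  calc ∑ w, Real.negMulLog (p w) ≤ ∑ w, (p w * (-Real.log (q w)) + (q w - p w)) :=
        Finset.sum_le_sum (fun w _ => key w)
    _ = ∑ w, p w * (-Real.log (q w)) + (∑ w, q w - ∑ w, p w) := by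
        rw [Finset.sum_add_distrib, Finset.sum_sub_distrib]
    _ ≤ ∑ w, p w * (-Real.log (q w)) := by linarith

section

variable {X : Type*} [MeasurableSpace X]

lemma shannonEntropy_le_integral {W : Type*} [Fintype W] [MeasurableSpace W]
    [MeasurableSingletonClass W] (μ : Measure X) [IsProbabilityMeasure μ] {P : X → W}
    (hP : Measurable P) (q : W → ℝ) (hq : ∀ w, 0 ≤ q w) (hq1 : ∑ w, q w ≤ 1) (F : X → ℝ)
    (hF : Integrable F μ) (h : ∀ᵐ x ∂μ, 0 < q (P x) ∧ -Real.log (q (P x)) ≤ F x) :
    shannonEntropy μ P ≤ ∫ x, F x ∂μ := by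
  have hprob : IsProbabilityMeasure (μ.map P) := Measure.isProbabilityMeasure_map hP.aemeasurable
  have hint : Integrable (fun w => -Real.log (q w)) (μ.map P) := Integrable.of_finite
  have h1 : ∫ x, -Real.log (q (P x)) ∂μ = ∑ w, μ.real (P ⁻¹' {w}) * (-Real.log (q w)) := by
    rw [← integral_map (f := fun w => -Real.log (q w)) hP.aemeasurable
      hint.aestronglyMeasurable, integral_fintype hint]
    apply Finset.sum_congr rfl
    intro w _
    rw [map_measureReal_apply hP (measurableSet_singleton w)]
    rfl
  have hint2 : Integrable (fun x => -Real.log (q (P x))) μ :=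
    hint.comp_measurable hP
  unfold shannonEntropy
  calc ∑ w, Real.negMulLog (μ.real (P ⁻¹' {w}))
      ≤ ∑ w, μ.real (P ⁻¹' {w}) * (-Real.log (q w)) := by
        apply gibbs _ _ (fun _ => measureReal_nonneg) (sum_measureReal_preimage μ hP) hq hq1
        intro w hw
        by_contra hcon
        apply hw
        have : μ (P ⁻¹' {w}) = 0 := by
          apply measure_mono_null _ h
          intro x hx
          simp only [Set.mem_preimage, Set.mem_singleton_iff] at hx
          simp only [Set.mem_compl_iff, Set.mem_ofPred_eq, hx]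
          intro h'
          exact hcon h'.1
        simp [Measure.real, this]
    _ = ∫ x, -Real.log (q (P x)) ∂μ := h1.symm
    _ ≤ ∫ x, F x ∂μ := by
        apply integral_mono_ae hint2 hF
        filter_upwards [h] with x hx
        exact hx.2

end

lemma exists_pos_le_of_finite {ι : Type*} [Finite ι] (r : ι → ℝ) (hr : ∀ i, 0 < r i) :
    ∃ ε > 0, ∀ i, ε ≤ r i := by
  cases isEmpty_or_nonempty ι with
  | inl h => exact ⟨1, one_pos, fun i => (h.false i).elim⟩
  | inr h =>
    obtain ⟨i, hi⟩ := Finite.exists_min r
    exact ⟨r i, hr i, hi⟩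

/-- Misiurewicz-type bound. `K` carries the invariant measure and can be covered, for every
resolution `ε`, by at most `C N^n` sets whose first `n` iterates have size less than `ε`. -/
theorem ksEntropy_le_of_cover {X : Type*} [MetricSpace X] [MeasurableSpace X] [BorelSpace X]
    (ν : Measure X) [IsProbabilityMeasure ν] [ν.InnerRegularCompactLTTop] {T : X → X}
    (hT : MeasurePreserving T ν ν) (K : Set X) (hK : ∀ᵐ x ∂ν, x ∈ K) (N : ℝ) (hN : 1 ≤ N)
    (hcover : ∀ ε > 0, ∃ C : ℝ, 0 < C ∧ ∀ n : ℕ, ∃ (ι : Type) (_ : Fintype ι) (A : ι → Set X),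
      (Fintype.card ι : ℝ) ≤ C * N ^ n ∧ K ⊆ ⋃ i, A i ∧
      ∀ i, ∀ x ∈ A i, ∀ y ∈ A i, ∀ j < n, dist (T^[j] x) (T^[j] y) < ε) :
    ksEntropy ν T ≤ ((Real.log (2 * N) + 1 : ℝ) : EReal) := by
  rw [ksEntropy_le_iff]
  intro k P hP
  -- the space is nonempty
  have hX : Nonempty X := by
    by_contra h
    rw [not_nonempty_iff] at h
    have h1 : ν Set.univ = 1 := measure_univ
    rw [Set.univ_eq_empty_iff.2 h] at h1
    simp at h1
  obtain ⟨x₀⟩ := hX
  have hk : 0 < k := lt_of_le_of_lt (Nat.zero_le _) (P x₀).isLt
  have hkR : (1 : ℝ) ≤ k := by exact_mod_cast hk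
  have hlogk : 0 ≤ Real.log k := Real.log_nonneg hkR
  -- compact sets inside the atoms
  set δ : ℝ := 1 / (k * (Real.log k + 1)) with hδ
  have hδpos : 0 < δ := by positivity
  have hcomp : ∀ i : Fin k, ∃ L : Set X, L ⊆ P ⁻¹' {i} ∧ IsCompact L ∧
      ν (P ⁻¹' {i} \ L) < ENNReal.ofReal δ := by
    intro i
    exact (hP (measurableSet_singleton i)).exists_isCompact_sdiff_lt (measure_ne_top _ _)
      (by simpa using hδpos)
  choose L hLsub hLcomp hLlt using hcomp
  set L0 : Set X := (⋃ i, L i)ᶜ with hL0
  have hL0meas : MeasurableSet L0 :=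
    (MeasurableSet.iUnion (fun i => (hLcomp i).measurableSet)).compl
  have hL0le : ν.real L0 ≤ k * δ := by
    have h1 : L0 ⊆ ⋃ i, (P ⁻¹' {i} \ L i) := by
      intro x hx
      rw [Set.mem_iUnion]
      refine ⟨P x, rfl, ?_⟩
      intro hx'
      exact hx (Set.mem_iUnion.2 ⟨P x, hx'⟩)
    calc ν.real L0 ≤ ν.real (⋃ i, (P ⁻¹' {i} \ L i)) := measureReal_mono h1
      _ ≤ ∑ i, ν.real (P ⁻¹' {i} \ L i) := measureReal_iUnion_fintype_le _
      _ ≤ ∑ _i : Fin k, δ := by
          apply Finset.sum_le_sum
          intro i _
          have := (hLlt i).le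
          unfold Measure.real
          exact ENNReal.toReal_le_of_le_ofReal hδpos.le this
      _ = k * δ := by simp
  have hL0log : ν.real L0 * Real.log k ≤ 1 := by
    calc ν.real L0 * Real.log k ≤ (k * δ) * Real.log k := by gcongr
      _ = Real.log k / (Real.log k + 1) := by rw [hδ]; field_simp
      _ ≤ 1 := by rw [div_le_one (by positivity)]; linarith
  -- separation
  have hsep : ∃ ε > 0, ∀ i j : Fin k, ∀ x ∈ L i, ∀ y ∈ L j, dist x y < ε → i = j := by
    have h1 : ∀ p : Fin k × Fin k, ∃ r : ℝ, 0 < r ∧ (p.1 ≠ p.2 →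
        ∀ x ∈ L p.1, ∀ y ∈ L p.2, r ≤ dist x y) := by
      rintro ⟨i, j⟩
      by_cases hij : i = j
      · exact ⟨1, one_pos, fun h => absurd hij h⟩
      · have hdisj : Disjoint (L i) (L j) := by
          rw [Set.disjoint_left]
          intro x hx hx'
          have h1 := hLsub i hx
          have h2 := hLsub j hx'
          simp only [Set.mem_preimage, Set.mem_singleton_iff] at h1 h2
          exact hij (h1.symm.trans h2)
        obtain ⟨r, hr, hr'⟩ := Metric.exists_pos_forall_lt_edist (hLcomp i)
          (hLcomp j).isClosed hdisj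
        refine ⟨r, by exact_mod_cast hr, ?_⟩
        intro _ x hx y hy
        have := hr' x hx y hy
        rw [edist_dist] at this
        rw [← ENNReal.ofReal_coe_nnreal] at this
        have h3 := (ENNReal.ofReal_lt_ofReal_iff_of_nonneg (NNReal.coe_nonneg r)).1 this
        exact h3.le
    choose r hr hr' using h1
    obtain ⟨ε, hε, hε'⟩ := exists_pos_le_of_finite r hr
    refine ⟨ε, hε, ?_⟩
    intro i j x hx y hy hxy
    by_contra hij
    have := hr' (i, j) hij x hx y hy
    have h2 := hε' (i, j)
    linarith
  obtain ⟨ε, hε, hεsep⟩ := hsep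
  obtain ⟨C, hC, hcov⟩ := hcover ε hε
  -- main estimate
  have main : ∀ n : ℕ, shannonEntropy ν (itinerary T P n) ≤
      Real.log C + n * (Real.log (2 * N)) + n := by
    intro n
    obtain ⟨ι, hι, A, hcard, hKA, hA⟩ := hcov n
    classical
    have hKne : ∃ x, x ∈ K := by
      have := hK.exists
      exact this
    have hιne : Nonempty ι := by
      obtain ⟨x, hx⟩ := hKne
      obtain ⟨i, _⟩ := Set.mem_iUnion.1 (hKA hx)
      exact ⟨i⟩
    have hcardpos : (0 : ℝ) < Fintype.card ι := by exact_mod_cast Fintype.card_pos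
    -- colour of the cell i at time j
    have hc : ∀ (i : ι) (j : Fin n), ∃ c : Fin k, ∀ x ∈ A i, ∀ l, T^[j] x ∈ L l → l = c := by
      intro i j
      by_cases h : ∃ x ∈ A i, ∃ l, T^[j] x ∈ L l
      · obtain ⟨x, hx, l, hl⟩ := h
        refine ⟨l, ?_⟩
        intro y hy l' hl'
        exact hεsep l' l _ hl' _ hl (hA i y hy x hx j j.isLt)
      · push Not at h
        exact ⟨⟨0, hk⟩, fun x hx l hl => absurd hl (h x hx l)⟩
    choose c hc using hc
    -- the weights
    let κ : Bool → Fin k → Fin k → ℝ := fun b a w => if b then (if w = a then 1 else 0) else 1 / k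
    have hκsum : ∀ b a, ∑ w, κ b a w = 1 := by
      intro b a
      cases b
      · simp only [κ]
        simp
        field_simp
      · simp [κ]
    have hκnn : ∀ b a w, 0 ≤ κ b a w := by
      intro b a w
      simp only [κ]
      split_ifs <;> positivity
    let q : (Fin n → Fin k) → ℝ := fun w =>
      (1 / (Fintype.card ι * 2 ^ n)) * ∑ p : ι × (Fin n → Bool), ∏ j, κ (p.2 j) (c p.1 j) (w j)
    have hqnn : ∀ w, 0 ≤ q w := by
      intro w
      apply mul_nonneg (by positivity)
      apply Finset.sum_nonneg
      intro p _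
      exact Finset.prod_nonneg (fun j _ => hκnn _ _ _)
    have hqsum : ∑ w, q w ≤ 1 := by
      simp only [q]
      rw [← Finset.mul_sum, Finset.sum_comm]
      have : ∀ p : ι × (Fin n → Bool), ∑ w : Fin n → Fin k, ∏ j, κ (p.2 j) (c p.1 j) (w j) = 1 := by
        intro p
        rw [← Fintype.prod_sum]
        simp [hκsum]
      rw [Finset.sum_congr rfl (fun p _ => this p)]
      have hval : (∑ _p : ι × (Fin n → Bool), (1 : ℝ)) = Fintype.card ι * 2 ^ n := by
        simp
      rw [hval, one_div, inv_mul_cancel₀ (by positivity)]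
    let F : X → ℝ := fun x => Real.log (Fintype.card ι * 2 ^ n) +
      ∑ j : Fin n, Set.indicator (T^[j] ⁻¹' L0) (fun _ => Real.log k) x
    have hmeasj : ∀ j : Fin n, MeasurableSet (T^[j] ⁻¹' L0) := fun j =>
      (hT.measurable.iterate j) hL0meas
    have hFint : Integrable F ν := by
      apply Integrable.add (integrable_const _)
      apply integrable_finsetSum
      intro j _
      exact (integrable_const _).indicator (hmeasj j)
    have hFval : ∫ x, F x ∂ν = Real.log (Fintype.card ι * 2 ^ n) + n * (ν.real L0 * Real.log k) := by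
      simp only [F]
      rw [integral_add (integrable_const _)
        (integrable_finsetSum _ (fun j _ => (integrable_const _).indicator (hmeasj j)))]
      rw [integral_finsetSum _ (fun j _ => (integrable_const _).indicator (hmeasj j))]
      congr 1
      · simp
      · have : ∀ j : Fin n, ∫ x, (T^[j] ⁻¹' L0).indicator (fun _ => Real.log k) x ∂ν =
            ν.real L0 * Real.log k := by
          intro j
          rw [integral_indicator (hmeasj j)]
          simp only [integral_const, MeasurableSet.univ, measureReal_restrict_apply,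
            Set.univ_inter, smul_eq_mul]
          congr 1
          unfold Measure.real
          rw [(hT.iterate j).measure_preimage hL0meas.nullMeasurableSet]
        rw [Finset.sum_congr rfl (fun j _ => this j)]
        simp
    have hptw : ∀ᵐ x ∂ν, 0 < q (itinerary T P n x) ∧ -Real.log (q (itinerary T P n x)) ≤ F x := by
      filter_upwards [hK] with x hx
      obtain ⟨i, hi⟩ := Set.mem_iUnion.1 (hKA hx)
      let s : Fin n → Bool := fun j => decide (T^[j] x ∉ L0)
      have hterm : ∀ j : Fin n, Real.exp (-(T^[j] ⁻¹' L0).indicator (fun _ => Real.log k) x) ≤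
          κ (s j) (c i j) (itinerary T P n x j) := by
        intro j
        by_cases hj : T^[j] x ∈ L0
        · have h1 : s j = false := by simp [s, hj]
          have h2 : x ∈ T^[j] ⁻¹' L0 := hj
          rw [Set.indicator_of_mem h2, h1]
          simp only [κ]
          rw [Real.exp_neg, Real.exp_log (by linarith)]
          simp
        · have h1 : s j = true := by simp [s, hj]
          have h2 : x ∉ T^[j] ⁻¹' L0 := hj
          rw [Set.indicator_of_notMem h2, h1]
          have h3 : T^[j] x ∈ ⋃ i, L i := by
            by_contra h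
            exact hj h
          obtain ⟨l, hl⟩ := Set.mem_iUnion.1 h3
          have h4 : l = c i j := hc i j x hi l hl
          have h5 : P (T^[j] x) = l := hLsub l hl
          have h6 : itinerary T P n x j = c i j := by
            unfold itinerary
            rw [h5, h4]
          simp only [κ, h6]
          simp
      have hprod : Real.exp (-∑ j : Fin n, (T^[j] ⁻¹' L0).indicator (fun _ => Real.log k) x) ≤
          ∏ j, κ (s j) (c i j) (itinerary T P n x j) := by
        rw [← Finset.sum_neg_distrib, Real.exp_sum]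
        apply Finset.prod_le_prod
        · intro j _; positivity
        · intro j _; exact hterm j
      have hqge : Real.exp (-F x) ≤ q (itinerary T P n x) := by
        simp only [F, q]
        rw [neg_add, Real.exp_add, Real.exp_neg, Real.exp_log (by positivity), one_div]
        apply mul_le_mul_of_nonneg_left _ (by positivity)
        refine le_trans hprod ?_
        exact Finset.single_le_sum
          (f := fun p : ι × (Fin n → Bool) => ∏ j, κ (p.2 j) (c p.1 j) (itinerary T P n x j))
          (fun p _ => Finset.prod_nonneg (fun j _ => hκnn _ _ _)) (Finset.mem_univ (i, s))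
      have hqpos : 0 < q (itinerary T P n x) := lt_of_lt_of_le (Real.exp_pos _) hqge
      refine ⟨hqpos, ?_⟩
      have := (Real.le_log_iff_exp_le hqpos).2 hqge
      linarith
    have hfin := shannonEntropy_le_integral ν (measurable_itinerary hT.measurable hP n) q hqnn hqsum
      F hFint hptw
    rw [hFval] at hfin
    have h1 : Real.log (Fintype.card ι * 2 ^ n) ≤ Real.log C + n * Real.log (2 * N) := by
      have hNpos : 0 < N := by linarith
      calc Real.log (Fintype.card ι * 2 ^ n) ≤ Real.log (C * N ^ n * 2 ^ n) := by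
            apply Real.log_le_log (by positivity)
            gcongr
        _ = Real.log (C * (2 * N) ^ n) := by
            congr 1; rw [mul_pow]; ring
        _ = Real.log C + n * Real.log (2 * N) := by
            rw [Real.log_mul hC.ne' (by positivity), Real.log_pow]
    have h2 : (n : ℝ) * (ν.real L0 * Real.log k) ≤ n * 1 := by gcongr
    linarith
  -- conclusion
  unfold partitionEntropy
  rw [limsup_coe_le_iff]
  intro η hη
  have hC' : ∀ᶠ n : ℕ in atTop, Real.log C / n ≤ η := by
    have : Tendsto (fun n : ℕ => Real.log C / (n : ℝ)) atTop (𝓝 0) :=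
      tendsto_const_div_atTop_nhds_zero_nat _
    exact (this.eventually (ge_mem_nhds hη))
  filter_upwards [hC', eventually_gt_atTop 0] with n hn1 hn
  have hnpos : (0 : ℝ) < n := by exact_mod_cast hn
  calc shannonEntropy ν (itinerary T P n) / n ≤ (Real.log C + n * (Real.log (2 * N)) + n) / n := by
        gcongr
        exact main n
    _ = Real.log (2 * N) + 1 + Real.log C / n := by field_simp; ring
    _ ≤ Real.log (2 * N) + 1 + η := by linarith

end Pool.Agent.Helper179.KS
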