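import Mathlib

open MeasureTheory Filter Topology

namespace Pool.Agent.Helper179.KS

variable {X : Type*} [MeasurableSpace X]

/-- Shannon entropy of the finite partition of `X` into the sets `{P = i}`:
the sum over `i` of `- μ(P = i) log μ(P = i)`. -/
noncomputable def shannonEntropy {ι : Type*} [Fintype ι] (μ : Measure X) (P : X → ι) : ℝ :=
  ∑ i, Real.negMulLog (μ.real (P ⁻¹' {i}))

/-- The join of the partitions `P, T⁻¹P, ..., T^{-(n-1)}P`: the point `x` is sent to the word
`P(x), P(Tx), ..., P(T^{n-1}x)`. -/
def itinerary {ι : Type*} (T : X → X) (P : X → ι) (n : ℕ) (x : X) : Fin n → ι :=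
  fun j => P (T^[j] x)

/-- Entropy of `T` relative to the finite partition `P`: the limit of
`H_μ(P ∨ T⁻¹P ∨ ... ∨ T^{-(n-1)}P) / n` (written as an upper limit). -/
noncomputable def partitionEntropy (μ : Measure X) (T : X → X) {k : ℕ} (P : X → Fin k) : EReal :=
  limsup (fun n : ℕ => ((shannonEntropy μ (itinerary T P n) / n : ℝ) : EReal)) atTop

/-- Kolmogorov-Sinai (measure-theoretic) entropy of `T` with respect to `μ`: the supremum over all
finite measurable partitions. -/
noncomputable def ksEntropy (μ : Measure X) (T : X → X) : EReal :=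
  ⨆ (k : ℕ) (P : X → Fin k) (_ : Measurable P), partitionEntropy μ T P

end Pool.Agent.Helper179.KS
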