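import Pool.Agent.Helper179.KSDefs

open MeasureTheory Filter Topology
open scoped ENNReal NNReal

namespace Pool.Agent.Helper179.KS

lemma negMulLog_add_le {x y : ℝ} (hx : 0 ≤ x) (hy : 0 ≤ y) :
    Real.negMulLog (x + y) ≤ Real.negMulLog x + Real.negMulLog y := by
  rcases hx.eq_or_lt with rfl | hx
  · simp
  rcases hy.eq_or_lt with rfl | hy
  · simp
  unfold Real.negMulLog
  have h1 : Real.log x ≤ Real.log (x + y) := Real.log_le_log hx (by linarith)
  have h2 : Real.log y ≤ Real.log (x + y) := Real.log_le_log hy (by linarith)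
  nlinarith

lemma limsup_coe_le_iff (a : ℕ → ℝ) (c : ℝ) :
    limsup (fun n => ((a n : ℝ) : EReal)) atTop ≤ (c : EReal) ↔
      ∀ ε > 0, ∀ᶠ n in atTop, a n ≤ c + ε := by
  constructor
  · intro h ε hε
    have h1 : limsup (fun n => ((a n : ℝ) : EReal)) atTop < ((c + ε : ℝ) : EReal) :=
      lt_of_le_of_lt h (by exact_mod_cast (by linarith : c < c + ε))
    filter_upwards [eventually_lt_of_limsup_lt h1] with n hn
    exact le_of_lt (by exact_mod_cast hn)
  · intro h
    apply le_of_forall_gt_imp_ge_of_dense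
    intro b hb
    induction b using EReal.rec with
    | bot => exact absurd hb (by simp)
    | top => exact le_top
    | coe b =>
      have hb' : c < b := by exact_mod_cast hb
      apply limsup_le_of_le (by isBoundedDefault)
      filter_upwards [h (b - c) (by linarith)] with n hn
      have : a n ≤ b := by linarith
      exact_mod_cast this

section basic

variable {X : Type*} [MeasurableSpace X]

lemma measurable_itinerary {ι : Type*} [MeasurableSpace ι] {T : X → X} (hT : Measurable T)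
    {P : X → ι} (hP : Measurable P) (n : ℕ) : Measurable (itinerary T P n) :=
  measurable_pi_lambda _ (fun j => hP.comp (hT.iterate j))

lemma shannonEntropy_nonneg {ι : Type*} [Fintype ι] (μ : Measure X) [IsProbabilityMeasure μ]
    (P : X → ι) : 0 ≤ shannonEntropy μ P :=
  Finset.sum_nonneg (fun _ _ => Real.negMulLog_nonneg measureReal_nonneg measureReal_le_one)

lemma partitionEntropy_nonneg (μ : Measure X) [IsProbabilityMeasure μ] (T : X → X) {k : ℕ}
    (P : X → Fin k) : 0 ≤ partitionEntropy μ T P := by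
  unfold partitionEntropy
  apply le_limsup_of_frequently_le
  · apply Frequently.of_forall
    intro n
    have : (0 : ℝ) ≤ shannonEntropy μ (itinerary T P n) / n :=
      div_nonneg (shannonEntropy_nonneg μ _) (Nat.cast_nonneg n)
    exact_mod_cast this
  · isBoundedDefault

lemma ksEntropy_nonneg (μ : Measure X) [IsProbabilityMeasure μ] (T : X → X) :
    0 ≤ ksEntropy μ T := by
  unfold ksEntropy
  refine le_trans (partitionEntropy_nonneg μ T (fun _ => (0 : Fin 1))) ?_
  exact le_iSup_of_le 1 (le_iSup_of_le (fun _ => (0 : Fin 1))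
    (le_iSup_of_le measurable_const le_rfl))

lemma ksEntropy_le_iff (μ : Measure X) (T : X → X) (c : EReal) :
    ksEntropy μ T ≤ c ↔ ∀ (k : ℕ) (P : X → Fin k), Measurable P → partitionEntropy μ T P ≤ c := by
  unfold ksEntropy
  simp only [iSup_le_iff]

/-- Zero-one valued measures have zero entropy. -/
lemma ksEntropy_dirac (a : X) {T : X → X} (hT : Measurable T) : ksEntropy (Measure.dirac a) T = 0 := by
  apply le_antisymm
  · rw [ksEntropy_le_iff]
    intro k P hP
    unfold partitionEntropy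
    have h0 : ∀ n, shannonEntropy (Measure.dirac a) (itinerary T P n) = 0 := by
      intro n
      unfold shannonEntropy
      apply Finset.sum_eq_zero
      intro w _
      have hm : MeasurableSet (itinerary T P n ⁻¹' {w}) :=
        (measurable_itinerary hT hP n) (measurableSet_singleton w)
      unfold Measure.real
      rw [Measure.dirac_apply' a hm]
      by_cases h : a ∈ itinerary T P n ⁻¹' {w}
      · simp [Set.indicator_of_mem h]
      · simp [Set.indicator_of_notMem h]
    simp [h0]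
  · exact ksEntropy_nonneg _ _

lemma sum_measureReal_preimage {ι : Type*} [Fintype ι] [MeasurableSpace ι]
    [MeasurableSingletonClass ι] (μ : Measure X) [IsProbabilityMeasure μ]
    {P : X → ι} (hP : Measurable P) : ∑ i, μ.real (P ⁻¹' {i}) = 1 := by
  have : IsProbabilityMeasure (μ.map P) := Measure.isProbabilityMeasure_map hP.aemeasurable
  have h2 : ∀ i, μ.real (P ⁻¹' {i}) = (μ.map P).real {i} := by
    intro i
    rw [map_measureReal_apply hP (measurableSet_singleton i)]
  simp_rw [h2]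
  rw [sum_measureReal_singleton]
  simp

lemma shannonEntropy_mix_le {ι : Type*} [Fintype ι] [MeasurableSpace ι]
    [MeasurableSingletonClass ι] (μ₁ μ₂ : Measure X) [IsProbabilityMeasure μ₁]
    [IsProbabilityMeasure μ₂] (s t : ℝ≥0) {P : X → ι} (hP : Measurable P) :
    shannonEntropy (s • μ₁ + t • μ₂) P ≤ s * shannonEntropy μ₁ P + t * shannonEntropy μ₂ P
      + (Real.negMulLog s + Real.negMulLog t) := by
  unfold shannonEntropy
  have h1 : ∀ i, (s • μ₁ + t • μ₂).real (P ⁻¹' {i}) =
      s * μ₁.real (P ⁻¹' {i}) + t * μ₂.real (P ⁻¹' {i}) := by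
    intro i
    rw [measureReal_add_apply, measureReal_nnreal_smul_apply, measureReal_nnreal_smul_apply]
  calc ∑ i, Real.negMulLog ((s • μ₁ + t • μ₂).real (P ⁻¹' {i}))
      ≤ ∑ i, ((μ₁.real (P ⁻¹' {i}) * Real.negMulLog s + s * Real.negMulLog (μ₁.real (P ⁻¹' {i})))
        + (μ₂.real (P ⁻¹' {i}) * Real.negMulLog t + t * Real.negMulLog (μ₂.real (P ⁻¹' {i})))) := by
        apply Finset.sum_le_sum
        intro i _
        rw [h1 i, ← Real.negMulLog_mul, ← Real.negMulLog_mul]
        exact negMulLog_add_le (by positivity) (by positivity)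
    _ = _ := by
        rw [Finset.sum_add_distrib, Finset.sum_add_distrib, Finset.sum_add_distrib,
          ← Finset.sum_mul, ← Finset.sum_mul, ← Finset.mul_sum, ← Finset.mul_sum,
          sum_measureReal_preimage μ₁ hP, sum_measureReal_preimage μ₂ hP]
        ring

lemma partitionEntropy_mix_le (μ₁ μ₂ : Measure X) [IsProbabilityMeasure μ₁]
    [IsProbabilityMeasure μ₂] (s t : ℝ≥0) {T : X → X} (hT : Measurable T) {k : ℕ}
    {P : X → Fin k} (hP : Measurable P) (e₁ e₂ : ℝ)
    (h₁ : partitionEntropy μ₁ T P ≤ e₁) (h₂ : partitionEntropy μ₂ T P ≤ e₂) :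
    partitionEntropy (s • μ₁ + t • μ₂) T P ≤ ((s * e₁ + t * e₂ : ℝ) : EReal) := by
  unfold partitionEntropy at *
  rw [limsup_coe_le_iff] at *
  intro ε hε
  have hst : 0 < (s : ℝ) + t + 1 := by positivity
  set δ : ℝ := ε / (2 * ((s : ℝ) + t + 1)) with hδ
  have hδpos : 0 < δ := by positivity
  have hC : ∀ᶠ n : ℕ in atTop, (Real.negMulLog s + Real.negMulLog t) / n ≤ ε / 2 := by
    have : Tendsto (fun n : ℕ => (Real.negMulLog s + Real.negMulLog t) / (n : ℝ)) atTop (𝓝 0) :=
      tendsto_const_div_atTop_nhds_zero_nat _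
    exact (this.eventually (ge_mem_nhds (by positivity)))
  filter_upwards [h₁ δ hδpos, h₂ δ hδpos, hC, eventually_gt_atTop 0] with n hn1 hn2 hn3 hn
  have hnpos : (0 : ℝ) < n := by exact_mod_cast hn
  have hmix := shannonEntropy_mix_le μ₁ μ₂ s t (measurable_itinerary hT hP n)
  have h3 : shannonEntropy (s • μ₁ + t • μ₂) (itinerary T P n) / n ≤
      (s * shannonEntropy μ₁ (itinerary T P n) + t * shannonEntropy μ₂ (itinerary T P n)
      + (Real.negMulLog s + Real.negMulLog t)) / n := by
    gcongr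
  have h4 : (s * shannonEntropy μ₁ (itinerary T P n) + t * shannonEntropy μ₂ (itinerary T P n)
      + (Real.negMulLog s + Real.negMulLog t)) / n =
      s * (shannonEntropy μ₁ (itinerary T P n) / n) + t * (shannonEntropy μ₂ (itinerary T P n) / n)
      + (Real.negMulLog s + Real.negMulLog t) / n := by
    field_simp
  have h5 : (s : ℝ) * (shannonEntropy μ₁ (itinerary T P n) / n) ≤ s * (e₁ + δ) := by gcongr
  have h6 : (t : ℝ) * (shannonEntropy μ₂ (itinerary T P n) / n) ≤ t * (e₂ + δ) := by gcongr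
  have h7 : ((s : ℝ) + t) * δ ≤ ε / 2 := by
    rw [hδ, show ((s : ℝ) + t) * (ε / (2 * ((s : ℝ) + t + 1))) =
      (ε / 2) * (((s : ℝ) + t) / ((s : ℝ) + t + 1)) by field_simp]
    have : ((s : ℝ) + t) / ((s : ℝ) + t + 1) ≤ 1 := by
      rw [div_le_one hst]; linarith
    nlinarith
  linarith

/-- Upper affinity of the entropy along an invariant set. -/
lemma ksEntropy_le_of_invariant_set (ν : Measure X) [IsProbabilityMeasure ν] {T : X → X}
    (hT : MeasurePreserving T ν ν) {A : Set X} (hA : MeasurableSet A) (hTA : T ⁻¹' A = A)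
    (e₁ e₂ : ℝ)
    (h₁ : ∀ μ : Measure X, IsProbabilityMeasure μ → MeasurePreserving T μ μ → μ Aᶜ = 0 →
      (∀ B, ν B = 0 → μ B = 0) → ksEntropy μ T ≤ e₁)
    (h₂ : ∀ μ : Measure X, IsProbabilityMeasure μ → MeasurePreserving T μ μ → μ A = 0 →
      (∀ B, ν B = 0 → μ B = 0) → ksEntropy μ T ≤ e₂) :
    ksEntropy ν T ≤ ((ν.real A * e₁ + (1 - ν.real A) * e₂ : ℝ) : EReal) := by
  by_cases hs0 : ν A = 0
  · have : ν.real A = 0 := by simp [Measure.real, hs0]
    rw [this]
    simpa using h₂ ν inferInstance hT hs0 (fun _ h => h)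
  by_cases hs1 : ν Aᶜ = 0
  · have h : ν.real A = 1 := by
      have : ν A = 1 := (prob_compl_eq_zero_iff hA).1 hs1
      simp [Measure.real, this]
    rw [h]
    simpa using h₁ ν inferInstance hT hs1 (fun _ h => h)
  set s : ℝ≥0 := (ν A).toNNReal with hs
  set t : ℝ≥0 := (ν Aᶜ).toNNReal with ht
  have hsA : (s : ℝ≥0∞) = ν A := ENNReal.coe_toNNReal (measure_ne_top ν A)
  have htA : (t : ℝ≥0∞) = ν Aᶜ := ENNReal.coe_toNNReal (measure_ne_top ν Aᶜ)
  have hsne : s ≠ 0 := by
    intro h; rw [h] at hsA; exact hs0 hsA.symm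
  have htne : t ≠ 0 := by
    intro h; rw [h] at htA; exact hs1 htA.symm
  set μ₁ : Measure X := s⁻¹ • ν.restrict A with hμ₁
  set μ₂ : Measure X := t⁻¹ • ν.restrict Aᶜ with hμ₂
  have hν : ν = s • μ₁ + t • μ₂ := by
    rw [hμ₁, hμ₂, smul_smul, smul_smul, mul_inv_cancel₀ hsne, mul_inv_cancel₀ htne, one_smul,
      one_smul, Measure.restrict_add_restrict_compl hA]
  have hp1 : IsProbabilityMeasure μ₁ := by
    constructor
    rw [hμ₁, Measure.smul_apply, Measure.restrict_apply_univ, ← hsA]
    show ((s⁻¹ : ℝ≥0) : ℝ≥0∞) * (s : ℝ≥0∞) = 1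
    rw [← ENNReal.coe_mul, inv_mul_cancel₀ hsne]; simp
  have hp2 : IsProbabilityMeasure μ₂ := by
    constructor
    rw [hμ₂, Measure.smul_apply, Measure.restrict_apply_univ, ← htA]
    show ((t⁻¹ : ℝ≥0) : ℝ≥0∞) * (t : ℝ≥0∞) = 1
    rw [← ENNReal.coe_mul, inv_mul_cancel₀ htne]; simp
  have hr1 : MeasurePreserving T (ν.restrict A) (ν.restrict A) := by
    have := hT.restrict_preimage hA
    rwa [hTA] at this
  have hTAc : T ⁻¹' Aᶜ = Aᶜ := by rw [Set.preimage_compl, hTA]
  have hr2 : MeasurePreserving T (ν.restrict Aᶜ) (ν.restrict Aᶜ) := by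
    have := hT.restrict_preimage hA.compl
    rwa [hTAc] at this
  have hm1 : MeasurePreserving T μ₁ μ₁ := hr1.smul_measure _
  have hm2 : MeasurePreserving T μ₂ μ₂ := hr2.smul_measure _
  have hac1 : ∀ B, ν B = 0 → μ₁ B = 0 := by
    intro B hB
    rw [hμ₁, Measure.smul_apply]
    have : ν.restrict A B = 0 := le_antisymm (le_trans (Measure.restrict_apply_le A B) hB.le) bot_le
    rw [this]; simp
  have hac2 : ∀ B, ν B = 0 → μ₂ B = 0 := by
    intro B hB
    rw [hμ₂, Measure.smul_apply]
    have : ν.restrict Aᶜ B = 0 :=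
      le_antisymm (le_trans (Measure.restrict_apply_le Aᶜ B) hB.le) bot_le
    rw [this]; simp
  have hc1 : μ₁ Aᶜ = 0 := by
    rw [hμ₁, Measure.smul_apply, Measure.restrict_apply hA.compl]; simp
  have hc2 : μ₂ A = 0 := by
    rw [hμ₂, Measure.smul_apply, Measure.restrict_apply hA]; simp
  have hk1 := h₁ μ₁ hp1 hm1 hc1 hac1
  have hk2 := h₂ μ₂ hp2 hm2 hc2 hac2
  rw [ksEntropy_le_iff] at hk1 hk2 ⊢
  intro k P hP
  have key := partitionEntropy_mix_le μ₁ μ₂ s t hT.measurable hP e₁ e₂ (hk1 k P hP) (hk2 k P hP)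
  rw [← hν] at key
  have hsr : ν.real A = s := rfl
  have htr : (1 - ν.real A) = t := by
    have : ν.real Aᶜ = 1 - ν.real A := by
      rw [measureReal_compl hA]; simp
    rw [← this]; rfl
  rw [htr, hsr]
  exact key

end basic

end Pool.Agent.Helper179.KS
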