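import Pool.Agent.Helper179.KSCover

open MeasureTheory Filter Topology
open scoped ENNReal NNReal

namespace Pool.Agent.Helper179.KS

lemma abs_sub_lt_of_floor_eq {h a b : ℝ} (hh : 0 < h) (hab : ⌊a / h⌋ = ⌊b / h⌋) : |a - b| < h := by
  have h1 : |a / h - b / h| < 1 := Int.abs_sub_lt_one_of_floor_eq_floor hab
  rw [← sub_div, abs_div, abs_of_pos hh, div_lt_one hh] at h1
  exact h1

lemma floor_mem_Icc {h a L : ℝ} (hh : 0 < h) (ha : |a| ≤ L * h) :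
    ⌊a / h⌋ ∈ Finset.Icc (-(⌈L⌉₊ : ℤ)) (⌈L⌉₊ : ℤ) := by
  have h1 : |a / h| ≤ L := by
    rw [abs_div, abs_of_pos hh, div_le_iff₀ hh]; exact ha
  have h2 : L ≤ ⌈L⌉₊ := Nat.le_ceil L
  rw [abs_le] at h1
  rw [Finset.mem_Icc]
  constructor
  · rw [Int.le_floor]; push_cast; linarith [h1.1]
  · have : (⌊a / h⌋ : ℝ) ≤ ((⌈L⌉₊ : ℤ) : ℝ) := by
      push_cast
      exact le_trans (Int.floor_le _) (by linarith [h1.2])
    exact_mod_cast this

/-- Doubling property of `ℂ × ℂ`. -/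
lemma doubling (L : ℝ) : ∃ (κ : Type) (_ : Fintype κ), Nonempty κ ∧ ∀ ε > 0, ∀ S : Set (ℂ × ℂ),
    (∀ x ∈ S, ∀ y ∈ S, dist x y ≤ L * ε) →
    ∃ E : κ → Set (ℂ × ℂ), S ⊆ ⋃ i, E i ∧ ∀ i, ∀ x ∈ E i, ∀ y ∈ E i, dist x y < ε := by
  set I : Finset ℤ := Finset.Icc (-(⌈2 * L⌉₊ : ℤ)) (⌈2 * L⌉₊ : ℤ) with hI
  have h0 : (0 : ℤ) ∈ I := by rw [hI, Finset.mem_Icc]; constructor <;> simp
  refine ⟨(I × I) × (I × I), inferInstance, ⟨⟨⟨⟨0, h0⟩, ⟨0, h0⟩⟩, ⟨⟨0, h0⟩, ⟨0, h0⟩⟩⟩⟩, ?_⟩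
  intro ε hε S hS
  rcases S.eq_empty_or_nonempty with rfl | ⟨z₀, hz₀⟩
  · exact ⟨fun _ => ∅, by simp, by simp⟩
  set h : ℝ := ε / 2 with hh
  have hhpos : 0 < h := by positivity
  refine ⟨fun l => {z | z ∈ S ∧ (⌊(z.1 - z₀.1).re / h⌋ = l.1.1 ∧ ⌊(z.1 - z₀.1).im / h⌋ = l.1.2) ∧
    (⌊(z.2 - z₀.2).re / h⌋ = l.2.1 ∧ ⌊(z.2 - z₀.2).im / h⌋ = l.2.2)}, ?_, ?_⟩
  · intro z hz
    have hd := hS z hz z₀ hz₀
    have hd1 : dist z.1 z₀.1 ≤ (2 * L) * h := by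
      refine le_trans (le_trans (le_max_left _ _) (le_of_eq (Prod.dist_eq).symm)) ?_
      rw [hh]; linarith
    have hd2 : dist z.2 z₀.2 ≤ (2 * L) * h := by
      refine le_trans (le_trans (le_max_right _ _) (le_of_eq (Prod.dist_eq).symm)) ?_
      rw [hh]; linarith
    rw [Complex.dist_eq] at hd1 hd2
    have m1 := floor_mem_Icc hhpos (le_trans (Complex.abs_re_le_norm _) hd1)
    have m2 := floor_mem_Icc hhpos (le_trans (Complex.abs_im_le_norm _) hd1)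
    have m3 := floor_mem_Icc hhpos (le_trans (Complex.abs_re_le_norm _) hd2)
    have m4 := floor_mem_Icc hhpos (le_trans (Complex.abs_im_le_norm _) hd2)
    rw [Set.mem_iUnion]
    exact ⟨((⟨_, m1⟩, ⟨_, m2⟩), (⟨_, m3⟩, ⟨_, m4⟩)), hz, ⟨rfl, rfl⟩, ⟨rfl, rfl⟩⟩
  · rintro l x ⟨_, ⟨hx1, hx2⟩, hx3, hx4⟩ y ⟨_, ⟨hy1, hy2⟩, hy3, hy4⟩
    have e1 := abs_sub_lt_of_floor_eq hhpos (hx1.trans hy1.symm)
    have e2 := abs_sub_lt_of_floor_eq hhpos (hx2.trans hy2.symm)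
    have e3 := abs_sub_lt_of_floor_eq hhpos (hx3.trans hy3.symm)
    have e4 := abs_sub_lt_of_floor_eq hhpos (hx4.trans hy4.symm)
    have f1 : |(x.1 - y.1).re| < h := by
      have : (x.1 - y.1).re = (x.1 - z₀.1).re - (y.1 - z₀.1).re := by simp
      rw [this]; exact e1
    have f2 : |(x.1 - y.1).im| < h := by
      have : (x.1 - y.1).im = (x.1 - z₀.1).im - (y.1 - z₀.1).im := by simp
      rw [this]; exact e2
    have f3 : |(x.2 - y.2).re| < h := by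
      have : (x.2 - y.2).re = (x.2 - z₀.2).re - (y.2 - z₀.2).re := by simp
      rw [this]; exact e3
    have f4 : |(x.2 - y.2).im| < h := by
      have : (x.2 - y.2).im = (x.2 - z₀.2).im - (y.2 - z₀.2).im := by simp
      rw [this]; exact e4
    rw [Prod.dist_eq, Complex.dist_eq, Complex.dist_eq]
    apply max_lt
    · have := Complex.norm_le_abs_re_add_abs_im (x.1 - y.1)
      linarith
    · have := Complex.norm_le_abs_re_add_abs_im (x.2 - y.2)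
      linarith

theorem cover_of_lipschitz (T : ℂ × ℂ → ℂ × ℂ) (K : Set (ℂ × ℂ)) (hTK : ∀ x ∈ K, T x ∈ K)
    (R L : ℝ) (hKb : ∀ x ∈ K, ∀ y ∈ K, dist x y ≤ R) (hL0 : 0 ≤ L)
    (hL : ∀ x ∈ K, ∀ y ∈ K, dist (T x) (T y) ≤ L * dist x y) :
    ∃ N : ℝ, 1 ≤ N ∧ ∀ ε > 0, ∃ C : ℝ, 0 < C ∧ ∀ n : ℕ, ∃ (ι : Type) (_ : Fintype ι)
      (A : ι → Set (ℂ × ℂ)), (Fintype.card ι : ℝ) ≤ C * N ^ n ∧ K ⊆ ⋃ i, A i ∧
      ∀ i, ∀ x ∈ A i, ∀ y ∈ A i, ∀ j < n, dist (T^[j] x) (T^[j] y) < ε := by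
  obtain ⟨κ, hκ, hκne, hd⟩ := doubling L
  have hiter : ∀ n, ∀ x ∈ K, T^[n] x ∈ K := by
    intro n
    induction n with
    | zero => intro x hx; simpa using hx
    | succ n ih => intro x hx; rw [Function.iterate_succ_apply']; exact hTK _ (ih x hx)
  refine ⟨Fintype.card κ, by exact_mod_cast Fintype.card_pos, ?_⟩
  intro ε hε
  obtain ⟨κ₀, hκ₀, hκ₀ne, hd₀⟩ := doubling (R / ε)
  refine ⟨Fintype.card κ₀, by exact_mod_cast Fintype.card_pos, ?_⟩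
  have key : ∀ n : ℕ, ∃ (ι : Type) (_ : Fintype ι)
      (A : ι → Set (ℂ × ℂ)), (Fintype.card ι : ℝ) ≤ Fintype.card κ₀ * (Fintype.card κ : ℝ) ^ n ∧
      K ⊆ ⋃ i, A i ∧ (∀ i, A i ⊆ K) ∧
      ∀ i, ∀ x ∈ A i, ∀ y ∈ A i, ∀ j ≤ n, dist (T^[j] x) (T^[j] y) < ε := by
    intro n
    induction n with
    | zero =>
      obtain ⟨E, hE1, hE2⟩ := hd₀ ε hε K (by
        intro x hx y hy
        rw [div_mul_cancel₀ _ hε.ne']
        exact hKb x hx y hy)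
      refine ⟨κ₀, hκ₀, fun i => E i ∩ K, by simp, ?_, fun i => Set.inter_subset_right, ?_⟩
      · intro x hx
        obtain ⟨i, hi⟩ := Set.mem_iUnion.1 (hE1 hx)
        exact Set.mem_iUnion.2 ⟨i, hi, hx⟩
      · intro i x hx y hy j hj
        obtain rfl : j = 0 := by omega
        simpa using hE2 i x hx.1 y hy.1
    | succ n ih =>
      obtain ⟨ι, hι, A, hcard, hcov, hAK, hA⟩ := ih
      have hE : ∀ i, ∃ E : κ → Set (ℂ × ℂ), T^[n+1] '' (A i) ⊆ ⋃ l, E l ∧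
          ∀ l, ∀ x ∈ E l, ∀ y ∈ E l, dist x y < ε := by
        intro i
        apply hd ε hε
        rintro _ ⟨x, hx, rfl⟩ _ ⟨y, hy, rfl⟩
        rw [Function.iterate_succ_apply', Function.iterate_succ_apply']
        refine le_trans (hL _ (hiter n x (hAK i hx)) _ (hiter n y (hAK i hy))) ?_
        exact mul_le_mul_of_nonneg_left (hA i x hx y hy n le_rfl).le hL0
      choose E hE1 hE2 using hE
      refine ⟨ι × κ, inferInstance, fun p => A p.1 ∩ T^[n+1] ⁻¹' (E p.1 p.2), ?_, ?_, ?_, ?_⟩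
      · rw [Fintype.card_prod, pow_succ]
        push_cast
        calc (Fintype.card ι : ℝ) * Fintype.card κ
            ≤ (Fintype.card κ₀ * (Fintype.card κ : ℝ) ^ n) * Fintype.card κ := by gcongr
          _ = _ := by ring
      · intro x hx
        obtain ⟨i, hi⟩ := Set.mem_iUnion.1 (hcov hx)
        obtain ⟨l, hl⟩ := Set.mem_iUnion.1 (hE1 i ⟨x, hi, rfl⟩)
        exact Set.mem_iUnion.2 ⟨(i, l), hi, hl⟩
      · intro p
        exact Set.Subset.trans Set.inter_subset_left (hAK p.1)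
      · rintro ⟨i, l⟩ x ⟨hx1, hx2⟩ y ⟨hy1, hy2⟩ j hj
        rcases Nat.lt_or_ge j (n + 1) with h | h
        · exact hA i x hx1 y hy1 j (by omega)
        · obtain rfl : j = n + 1 := by omega
          exact hE2 i l _ hx2 _ hy2
  intro n
  obtain ⟨ι, hι, A, hcard, hcov, _, hA⟩ := key n
  exact ⟨ι, hι, A, hcard, hcov, fun i x hx y hy j hj => hA i x hx y hy j hj.le⟩

/-- If `T` is Lipschitz on a bounded forward invariant set `K`, the entropies of the invariant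
probability measures carried by `K` are uniformly bounded. -/
theorem exists_entropy_bound (T : ℂ × ℂ → ℂ × ℂ) (K : Set (ℂ × ℂ)) (hTK : ∀ x ∈ K, T x ∈ K)
    (R L : ℝ) (hKb : ∀ x ∈ K, ∀ y ∈ K, dist x y ≤ R) (hL0 : 0 ≤ L)
    (hL : ∀ x ∈ K, ∀ y ∈ K, dist (T x) (T y) ≤ L * dist x y) :
    ∃ H : ℝ, 0 ≤ H ∧ ∀ ν : Measure (ℂ × ℂ), IsProbabilityMeasure ν → MeasurePreserving T ν ν →
      (∀ᵐ x ∂ν, x ∈ K) → ksEntropy ν T ≤ (H : EReal) := by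
  obtain ⟨N, hN, hcov⟩ := cover_of_lipschitz T K hTK R L hKb hL0 hL
  refine ⟨Real.log (2 * N) + 1, ?_, ?_⟩
  · have := Real.log_nonneg (by linarith : (1 : ℝ) ≤ 2 * N)
    linarith
  · intro ν hν hT hK
    exact ksEntropy_le_of_cover ν hT K hK N hN hcov

end Pool.Agent.Helper179.KS
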