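import Pool.Agent.Helper179.SiegelCircle

open MeasureTheory Filter Topology
open scoped ENNReal NNReal

namespace Pool.Agent.Helper179.Siegel

/-- The exponential sums `∑_{i<n} λ^{qi}`. -/
noncomputable def Dk (q n : ℕ) : ℂ := ∑ i ∈ Finset.range n, (lam ^ q) ^ i

lemma norm_Dk_le (q n : ℕ) : ‖Dk q n‖ ≤ n := by
  unfold Dk
  refine (norm_sum_le _ _).trans ?_
  have : ∀ i ∈ Finset.range n, ‖(lam ^ q) ^ i‖ = 1 := by
    intro i _
    rw [norm_pow, norm_lam_pow, one_pow]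
  rw [Finset.sum_congr rfl this]
  simp

lemma norm_Dk_mul_le (q n : ℕ) : ‖Dk q n‖ * ‖lam ^ q - 1‖ ≤ 2 := by
  unfold Dk
  rw [← norm_mul, geom_sum_mul]
  refine (norm_sub_le _ _).trans ?_
  rw [norm_pow, norm_lam_pow, one_pow, norm_one]
  norm_num

lemma norm_pow_sub_one_le {x : ℂ} (hx : ‖x‖ = 1) (i : ℕ) : ‖x ^ i - 1‖ ≤ i * ‖x - 1‖ := by
  induction i with
  | zero => simp
  | succ i ih =>
    have h1 : x ^ (i + 1) - 1 = x * (x ^ i - 1) + (x - 1) := by ring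
    rw [h1]
    refine (norm_add_le _ _).trans ?_
    rw [norm_mul, hx, one_mul]
    push_cast
    linarith

lemma sum_range_le (n : ℕ) : ∑ i ∈ Finset.range n, (i : ℝ) ≤ n * n / 2 := by
  induction n with
  | zero => simp
  | succ n ih =>
    rw [Finset.sum_range_succ]
    push_cast
    nlinarith

lemma norm_Dk_ge (q n : ℕ) (h : n * ‖lam ^ q - 1‖ ≤ 1) : (n : ℝ) / 2 ≤ ‖Dk q n‖ := by
  have h1 : ‖Dk q n - n‖ ≤ n / 2 := by
    have h2 : Dk q n - n = ∑ i ∈ Finset.range n, ((lam ^ q) ^ i - 1) := by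
      unfold Dk
      rw [Finset.sum_sub_distrib]
      simp
    rw [h2]
    refine (norm_sum_le _ _).trans ?_
    calc ∑ i ∈ Finset.range n, ‖(lam ^ q) ^ i - 1‖
        ≤ ∑ i ∈ Finset.range n, (i : ℝ) * ‖lam ^ q - 1‖ :=
          Finset.sum_le_sum (fun i _ => norm_pow_sub_one_le (norm_lam_pow q) i)
      _ = (∑ i ∈ Finset.range n, (i : ℝ)) * ‖lam ^ q - 1‖ := by rw [Finset.sum_mul]
      _ ≤ (n * n / 2) * ‖lam ^ q - 1‖ :=
          mul_le_mul_of_nonneg_right (sum_range_le n) (norm_nonneg _)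
      _ = (n / 2) * (n * ‖lam ^ q - 1‖) := by ring
      _ ≤ (n / 2) * 1 := mul_le_mul_of_nonneg_left h (by positivity)
      _ = n / 2 := mul_one _
  have h3 : ‖(n : ℂ)‖ ≤ ‖Dk q n‖ + ‖Dk q n - n‖ := by
    have := norm_sub_le (Dk q n) (Dk q n - n)
    rwa [sub_sub_cancel] at this
  rw [Complex.norm_natCast] at h3
  linarith

lemma exists_good_q (Q : ℕ) : ∃ q : ℕ, Q ≤ q ∧ 1 ≤ q ∧ ‖lam ^ q - 1‖ ≤ 7 / q := by
  obtain ⟨j, k, hk0, hkn, hjk⟩ := Real.exists_int_int_abs_mul_sub_le (Real.sqrt 2)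
    (n := 4 * Q + 4) (by omega)
  obtain ⟨q, rfl⟩ : ∃ q : ℕ, k = q := ⟨k.toNat, by omega⟩
  have hq1 : 1 ≤ q := by exact_mod_cast hk0
  have hqN : q ≤ 4 * Q + 4 := by exact_mod_cast hkn
  have hjk' : |(q : ℝ) * Real.sqrt 2 - j| ≤ 1 / (((4 * Q + 4 : ℕ) : ℝ) + 1) := by
    simpa using hjk
  have hlow := sqrt_two_approx q hq1 j
  have hqpos : (0 : ℝ) < q := by exact_mod_cast hq1
  have hNpos : (0 : ℝ) < ((4 * Q + 4 : ℕ) : ℝ) + 1 := by positivity
  have hqQ : Q ≤ q := by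
    have h1 : 1 / (4 * (q : ℝ)) ≤ 1 / (((4 * Q + 4 : ℕ) : ℝ) + 1) := hlow.trans hjk'
    rw [div_le_div_iff₀ (by positivity) hNpos] at h1
    push_cast at h1
    have h2 : (Q : ℝ) ≤ q := by linarith
    exact_mod_cast h2
  refine ⟨q, hqQ, hq1, ?_⟩
  rw [lam_pow, exp_int_shift _ j]
  refine (Real.norm_exp_I_mul_ofReal_sub_one_le (x := 2 * Real.pi * ((q : ℝ) * Real.sqrt 2 - j))).trans ?_
  rw [norm_mul, Real.norm_eq_abs, Real.norm_eq_abs, abs_of_pos (by positivity)]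
  have hpi : 2 * Real.pi ≤ 7 := by
    have := Real.pi_lt_d2
    linarith
  calc 2 * Real.pi * |(q : ℝ) * Real.sqrt 2 - j| ≤ 7 * (1 / (((4 * Q + 4 : ℕ) : ℝ) + 1)) := by
        apply mul_le_mul hpi hjk' (abs_nonneg _) (by norm_num)
    _ ≤ 7 * (1 / q) := by
        apply mul_le_mul_of_nonneg_left _ (by norm_num)
        apply one_div_le_one_div_of_le hqpos
        have : (q : ℝ) ≤ ((4 * Q + 4 : ℕ) : ℝ) := by exact_mod_cast hqN
        linarith
    _ = 7 / q := by ring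

lemma exists_good (M : ℝ) (hM : 1 ≤ M) : ∃ (q n : ℕ) (c : ℝ), 1 ≤ q ∧ 1 ≤ n ∧ 0 < c ∧
    c ≤ 1 / M ^ 2 ∧ M ^ 2 ≤ n ∧ n * ‖lam ^ q - 1‖ ≤ 1 ∧ 2 * M ≤ c * Real.sqrt n ∧
    c * (q : ℝ) ^ (1 / 8 : ℝ) ≤ 1 / M := by
  obtain ⟨q, hqQ, hq1, hq⟩ := exists_good_q (⌈(6 * M) ^ 8⌉₊ + 56)
  have hMpos : 0 < M := by linarith
  have hqpos : (0 : ℝ) < q := by exact_mod_cast hq1
  have hq56 : (56 : ℝ) ≤ q := by
    have : 56 ≤ q := by omega
    exact_mod_cast this
  have hqM : (6 * M) ^ 8 ≤ q := by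
    have h1 : (6 * M) ^ 8 ≤ (⌈(6 * M) ^ 8⌉₊ : ℝ) := Nat.le_ceil _
    have h2 : ((⌈(6 * M) ^ 8⌉₊ : ℕ) : ℝ) ≤ q := by
      have : ⌈(6 * M) ^ 8⌉₊ ≤ q := by omega
      exact_mod_cast this
    linarith
  set x : ℝ := (q : ℝ) ^ (1 / 8 : ℝ) with hx
  have hxpos : 0 < x := Real.rpow_pos_of_pos hqpos _
  have hx8 : x ^ 8 = q := by
    rw [hx, ← Real.rpow_natCast, ← Real.rpow_mul hqpos.le]
    norm_num
  have hxM : 6 * M ≤ x := by
    by_contra h
    push Not at h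
    have : x ^ 8 < (6 * M) ^ 8 := pow_lt_pow_left₀ h hxpos.le (by norm_num)
    linarith
  set n : ℕ := ⌊(q : ℝ) / 7⌋₊ with hn
  have hnle : (n : ℝ) ≤ q / 7 := Nat.floor_le (by positivity)
  have hnge : (q : ℝ) / 9 ≤ n := by
    have h1 : (q : ℝ) / 7 < n + 1 := Nat.lt_floor_add_one _
    linarith
  have hsq : x ^ 4 / 3 ≤ Real.sqrt n := by
    apply Real.le_sqrt_of_sq_le
    have : (x ^ 4 / 3) ^ 2 = x ^ 8 / 9 := by ring
    rw [this, hx8]
    exact hnge
  have hn1 : 1 ≤ n := by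
    have : (0 : ℝ) < n := by
      have : (0 : ℝ) < (q : ℝ) / 9 := by positivity
      linarith
    exact_mod_cast this
  refine ⟨q, n, 1 / x ^ 2, hq1, hn1, by positivity, ?_, ?_, ?_, ?_, ?_⟩
  · apply one_div_le_one_div_of_le (by positivity)
    apply pow_le_pow_left₀ hMpos.le
    linarith
  · have h1 : M ^ 2 ≤ x ^ 8 / 9 := by
      have h2 : (1 : ℝ) ≤ x := by linarith
      have h3 : x ^ 2 ≤ x ^ 8 := pow_le_pow_right₀ h2 (by norm_num)
      have h4 : (6 * M) ^ 2 ≤ x ^ 2 := pow_le_pow_left₀ (by positivity) hxM 2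
      nlinarith
    rw [hx8] at h1
    linarith
  · calc (n : ℝ) * ‖lam ^ q - 1‖ ≤ (q / 7) * (7 / q) :=
          mul_le_mul hnle hq (norm_nonneg _) (by positivity)
      _ = 1 := by field_simp
  · have h1 : 1 / x ^ 2 * (x ^ 4 / 3) ≤ 1 / x ^ 2 * Real.sqrt n :=
      mul_le_mul_of_nonneg_left hsq (by positivity)
    have h2 : 1 / x ^ 2 * (x ^ 4 / 3) = x ^ 2 / 3 := by field_simp
    have h3 : (6 * M) ^ 2 ≤ x ^ 2 := pow_le_pow_left₀ (by positivity) hxM 2
    have h4 : 2 * M ≤ x ^ 2 / 3 := by nlinarith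
    linarith
  · have h1 : 1 / x ^ 2 * x = 1 / x := by field_simp
    rw [h1]
    apply one_div_le_one_div_of_le hMpos
    linarith

/-- The data of the lacunary series. -/
structure LacData where
  q : ℕ → ℕ
  n : ℕ → ℕ
  c : ℕ → ℝ
  Ms : ℕ → ℝ
  q_pos : ∀ j, 1 ≤ q j
  n_pos : ∀ j, 1 ≤ n j
  c_pos : ∀ j, 0 < c j
  c_le : ∀ j, c j ≤ 1 / Ms j ^ 2
  Ms_sq : ∀ j, Ms j ^ 2 ≤ n j
  n_small : ∀ j, n j * ‖lam ^ q j - 1‖ ≤ 1
  amp : ∀ j, 2 * Ms j ≤ c j * Real.sqrt (n j)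
  hol : ∀ j, c j * (q j : ℝ) ^ (1 / 8 : ℝ) ≤ 1 / Ms j
  Ms_ge : ∀ j, 2 ^ (j + 1) ≤ Ms j
  Ms_mono : Monotone Ms
  n_le : ∀ j, (n j : ℝ) ≤ Ms (j + 1)
  sum_le : ∀ j, ∑ i ∈ Finset.range j, 2 / ‖lam ^ q i - 1‖ ≤ Ms j

theorem exists_lacData : Nonempty LacData := by
  choose! qf nf cf h using exists_good
  set F : ℝ → ℝ := fun M => 2 * M + 2 / ‖lam ^ qf M - 1‖ + nf M with hF
  obtain ⟨Ms, h0, hs⟩ : ∃ Ms : ℕ → ℝ, Ms 0 = 2 ∧ ∀ j, Ms (j + 1) = F (Ms j) :=
    ⟨fun n => F^[n] 2, rfl, fun j => Function.iterate_succ_apply' _ _ _⟩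
  have hFge : ∀ M, 2 * M ≤ F M := by
    intro M
    simp only [hF]
    have h1 : 0 ≤ 2 / ‖lam ^ qf M - 1‖ := by positivity
    have h2 : (0 : ℝ) ≤ nf M := Nat.cast_nonneg _
    linarith
  have hge : ∀ j, (2 : ℝ) ^ (j + 1) ≤ Ms j := by
    intro j
    induction j with
    | zero => rw [h0]; norm_num
    | succ j ih =>
      rw [hs, pow_succ]
      have := hFge (Ms j)
      linarith
  have hge1 : ∀ j, 1 ≤ Ms j := by
    intro j
    have h1 : (1 : ℝ) ≤ 2 ^ (j + 1) := one_le_pow₀ (by norm_num)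
    exact h1.trans (hge j)
  exact ⟨{
    q := fun j => qf (Ms j)
    n := fun j => nf (Ms j)
    c := fun j => cf (Ms j)
    Ms := Ms
    q_pos := fun j => (h _ (hge1 j)).1
    n_pos := fun j => (h _ (hge1 j)).2.1
    c_pos := fun j => (h _ (hge1 j)).2.2.1
    c_le := fun j => (h _ (hge1 j)).2.2.2.1
    Ms_sq := fun j => (h _ (hge1 j)).2.2.2.2.1
    n_small := fun j => (h _ (hge1 j)).2.2.2.2.2.1
    amp := fun j => (h _ (hge1 j)).2.2.2.2.2.2.1
    hol := fun j => (h _ (hge1 j)).2.2.2.2.2.2.2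
    Ms_ge := hge
    Ms_mono := by
      apply monotone_nat_of_le_succ
      intro j
      rw [hs]
      have := hFge (Ms j)
      have := hge1 j
      linarith
    n_le := by
      intro j
      rw [hs]
      simp only [hF]
      have h1 : 0 ≤ 2 / ‖lam ^ qf (Ms j) - 1‖ := by positivity
      have := hge1 j
      linarith
    sum_le := by
      intro j
      induction j with
      | zero => simp; linarith [hge1 0]
      | succ j ih =>
        rw [Finset.sum_range_succ, hs]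
        simp only [hF]
        have h2 : (0 : ℝ) ≤ nf (Ms j) := Nat.cast_nonneg _
        have := hge1 j
        linarith }⟩

namespace LacData

variable (L : LacData)

lemma Ms_ge_one (j : ℕ) : 1 ≤ L.Ms j := by
  have h1 : (1 : ℝ) ≤ 2 ^ (j + 1) := one_le_pow₀ (by norm_num)
  exact h1.trans (L.Ms_ge j)

lemma inv_Ms_le (j : ℕ) : 1 / L.Ms j ≤ (1 / 2) ^ (j + 1) := by
  rw [one_div_pow]
  exact one_div_le_one_div_of_le (by positivity) (L.Ms_ge j)

lemma c_le_inv (j : ℕ) : L.c j ≤ 1 / L.Ms j := by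
  refine (L.c_le j).trans ?_
  have := L.Ms_ge_one j
  apply one_div_le_one_div_of_le (by linarith)
  nlinarith

lemma c_le_geom (j : ℕ) : L.c j ≤ (1 / 2) ^ (j + 1) := (L.c_le_inv j).trans (L.inv_Ms_le j)

lemma c_le_one (j : ℕ) : L.c j ≤ 1 :=
  (L.c_le_geom j).trans (pow_le_one₀ (by norm_num) (by norm_num))

lemma summable_geom : Summable (fun j : ℕ => ((1 : ℝ) / 2) ^ (j + 1)) :=
  (summable_nat_add_iff 1).2 (summable_geometric_of_lt_one (by norm_num) (by norm_num))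

lemma summable_c : Summable L.c :=
  Summable.of_nonneg_of_le (fun j => (L.c_pos j).le) L.c_le_geom summable_geom

/-- The lacunary function on the circle. -/
noncomputable def G (t : UnitAddCircle) : ℝ := ∑' j, L.c j * (ee t ^ L.q j).re

lemma abs_re_le (z : ℂ) (hz : ‖z‖ ≤ 1) : |z.re| ≤ 1 := (Complex.abs_re_le_norm z).trans hz

lemma norm_ee_pow (t : UnitAddCircle) (q : ℕ) : ‖ee t ^ q‖ = 1 := by rw [norm_pow, norm_ee, one_pow]

lemma summable_term (t : UnitAddCircle) : Summable (fun j => L.c j * (ee t ^ L.q j).re) := by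
  apply Summable.of_norm_bounded (g := L.c) L.summable_c
  intro j
  rw [norm_mul, Real.norm_eq_abs, Real.norm_eq_abs, abs_of_pos (L.c_pos j)]
  have h1 := abs_re_le (ee t ^ L.q j) (norm_ee_pow t _).le
  have h2 := (L.c_pos j).le
  nlinarith

/-- Birkhoff sums of the lacunary function. -/
noncomputable def S (n : ℕ) (t : UnitAddCircle) : ℝ := ∑ i ∈ Finset.range n, L.G (t + i • al)

lemma ee_shift (t : UnitAddCircle) (i q : ℕ) : ee (t + i • al) ^ q = ee t ^ q * (lam ^ q) ^ i := by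
  rw [ee_add, ee_nsmul, ee_al, mul_pow, ← pow_mul, ← pow_mul, mul_comm i q]

lemma S_eq (n : ℕ) (t : UnitAddCircle) :
    L.S n t = ∑' j, L.c j * (ee t ^ L.q j * Dk (L.q j) n).re := by
  unfold S G
  rw [← Summable.tsum_finsetSum (fun i _ => L.summable_term (t + i • al))]
  congr 1
  ext j
  rw [← Finset.mul_sum]
  congr 1
  unfold Dk
  rw [Finset.mul_sum, Complex.re_sum]
  apply Finset.sum_congr rfl
  intro i _
  rw [ee_shift]

lemma abs_term_le (n j : ℕ) (t : UnitAddCircle) :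
    |L.c j * (ee t ^ L.q j * Dk (L.q j) n).re| ≤ L.c j * ‖Dk (L.q j) n‖ := by
  rw [abs_mul, abs_of_pos (L.c_pos j)]
  apply mul_le_mul_of_nonneg_left _ (L.c_pos j).le
  refine (Complex.abs_re_le_norm _).trans ?_
  rw [norm_mul, norm_ee_pow, one_mul]

lemma norm_Dk_le_div (j n : ℕ) : ‖Dk (L.q j) n‖ ≤ 2 / ‖lam ^ L.q j - 1‖ := by
  have hpos : 0 < ‖lam ^ L.q j - 1‖ :=
    norm_pos_iff.2 (sub_ne_zero.2 (lam_pow_ne_one _ (L.q_pos j)))
  rw [le_div_iff₀ hpos]
  exact norm_Dk_mul_le _ _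

lemma summable_S_term (n : ℕ) (t : UnitAddCircle) :
    Summable (fun j => L.c j * (ee t ^ L.q j * Dk (L.q j) n).re) := by
  apply Summable.of_norm_bounded (g := fun j => L.c j * n) (L.summable_c.mul_right _)
  intro j
  rw [Real.norm_eq_abs]
  refine (L.abs_term_le n j t).trans ?_
  exact mul_le_mul_of_nonneg_left (norm_Dk_le _ _) (L.c_pos j).le

/-- `S_n G = o(n)` uniformly. -/
theorem S_uniform (δ : ℝ) (hδ : 0 < δ) : ∀ᶠ n : ℕ in atTop, ∀ t, |L.S n t| ≤ δ * n := by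
  have htail : Tendsto (fun J => ∑' j, L.c (j + J)) atTop (𝓝 0) :=
    tendsto_sum_nat_add L.c
  obtain ⟨J, hJ⟩ := (htail.eventually (ge_mem_nhds (show (0 : ℝ) < δ / 2 by positivity))).exists
  have hJ' : ∑' j, L.c (j + J) ≤ δ / 2 := hJ
  have h1 : ∀ᶠ n : ℕ in atTop, L.Ms J ≤ (δ / 2) * n := by
    have : Tendsto (fun n : ℕ => (δ / 2) * (n : ℝ)) atTop atTop :=
      tendsto_natCast_atTop_atTop.const_mul_atTop (by positivity)
    exact this.eventually_ge_atTop _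
  filter_upwards [h1] with n hn t
  rw [L.S_eq, ← (L.summable_S_term n t).sum_add_tsum_nat_add J]
  refine (abs_add_le _ _).trans ?_
  have hA : |∑ j ∈ Finset.range J, L.c j * (ee t ^ L.q j * Dk (L.q j) n).re| ≤ L.Ms J := by
    refine (Finset.abs_sum_le_sum_abs _ _).trans ?_
    refine le_trans ?_ (L.sum_le J)
    apply Finset.sum_le_sum
    intro j _
    refine (L.abs_term_le n j t).trans ?_
    have h2 := L.norm_Dk_le_div j n
    have h3 := L.c_le_one j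
    have h4 := (L.c_pos j).le
    have h5 := norm_nonneg (Dk (L.q j) n)
    nlinarith
  have hB : |∑' j, L.c (j + J) * (ee t ^ L.q (j + J) * Dk (L.q (j + J)) n).re| ≤ (δ / 2) * n := by
    have h2 : Summable (fun j => L.c (j + J)) := (summable_nat_add_iff J).2 L.summable_c
    have h3 : ∀ j, ‖L.c (j + J) * (ee t ^ L.q (j + J) * Dk (L.q (j + J)) n).re‖ ≤
        L.c (j + J) * n := by
      intro j
      rw [Real.norm_eq_abs]
      refine (L.abs_term_le n (j + J) t).trans ?_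
      exact mul_le_mul_of_nonneg_left (norm_Dk_le _ _) (L.c_pos _).le
    have h4 := tsum_of_norm_bounded (h2.hasSum.mul_right (n : ℝ)) h3
    rw [Real.norm_eq_abs] at h4
    refine h4.trans ?_
    exact mul_le_mul_of_nonneg_right hJ' (Nat.cast_nonneg n)
  linarith

/-- The `J`-th term dominates at time `n_J`. -/
theorem S_main (J : ℕ) (t : UnitAddCircle) :
    L.c J * |(ee t ^ L.q J * Dk (L.q J) (L.n J)).re| - (L.Ms J + 1) ≤ |L.S (L.n J) t| := by
  set n := L.n J with hn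
  set a : ℕ → ℝ := fun j => L.c j * (ee t ^ L.q j * Dk (L.q j) n).re with ha
  have hsum := L.summable_S_term n t
  have h1 : L.S n t = ∑ j ∈ Finset.range J, a j + a J + ∑' j, a (j + (J + 1)) := by
    rw [L.S_eq, ← hsum.sum_add_tsum_nat_add (J + 1), Finset.sum_range_succ]
  have hA : |∑ j ∈ Finset.range J, a j| ≤ L.Ms J := by
    refine (Finset.abs_sum_le_sum_abs _ _).trans ?_
    refine le_trans ?_ (L.sum_le J)
    apply Finset.sum_le_sum
    intro j _
    refine (L.abs_term_le n j t).trans ?_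
    have h2 := L.norm_Dk_le_div j n
    have h3 := L.c_le_one j
    have h4 := (L.c_pos j).le
    have h5 := norm_nonneg (Dk (L.q j) n)
    nlinarith
  have hB : |∑' j, a (j + (J + 1))| ≤ 1 := by
    have h2 : HasSum (fun j : ℕ => ((1 : ℝ) / 2) ^ (j + 1)) 1 := by
      have h3 := (hasSum_geometric_of_lt_one (r := (1 : ℝ) / 2) (by norm_num) (by norm_num)).mul_left
        ((1 : ℝ) / 2)
      have h4 : (1 : ℝ) / 2 * (1 - 1 / 2)⁻¹ = 1 := by norm_num
      rw [h4] at h3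
      refine h3.congr_fun ?_
      intro j
      rw [pow_succ]
      ring
    have h3 : ∀ j, ‖a (j + (J + 1))‖ ≤ ((1 : ℝ) / 2) ^ (j + 1) := by
      intro j
      rw [Real.norm_eq_abs]
      refine (L.abs_term_le n (j + (J + 1)) t).trans ?_
      have h5 : ‖Dk (L.q (j + (J + 1))) n‖ ≤ L.Ms (j + (J + 1)) := by
        refine (norm_Dk_le _ _).trans ?_
        refine (L.n_le J).trans ?_
        apply L.Ms_mono
        omega
      have h6 := L.c_le (j + (J + 1))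
      have h7 := L.Ms_ge_one (j + (J + 1))
      have h8 := (L.c_pos (j + (J + 1))).le
      calc L.c (j + (J + 1)) * ‖Dk (L.q (j + (J + 1))) n‖
          ≤ 1 / L.Ms (j + (J + 1)) ^ 2 * L.Ms (j + (J + 1)) :=
            mul_le_mul h6 h5 (norm_nonneg _) (by positivity)
        _ = 1 / L.Ms (j + (J + 1)) := by
            have : L.Ms (j + (J + 1)) ≠ 0 := by linarith
            field_simp
        _ ≤ (1 / 2) ^ (j + (J + 1) + 1) := L.inv_Ms_le _
        _ ≤ (1 / 2) ^ (j + 1) := by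
            apply pow_le_pow_of_le_one (by norm_num) (by norm_num)
            omega
    have h4 := tsum_of_norm_bounded h2 h3
    rwa [Real.norm_eq_abs] at h4
  have hJ : |a J| = L.c J * |(ee t ^ L.q J * Dk (L.q J) n).re| := by
    simp only [ha]
    rw [abs_mul, abs_of_pos (L.c_pos J)]
  rw [← hJ, h1]
  have h5 : |a J| ≤ |∑ j ∈ Finset.range J, a j + a J + ∑' j, a (j + (J + 1))| +
      |∑ j ∈ Finset.range J, a j| + |∑' j, a (j + (J + 1))| := by
    have h6 : a J = (∑ j ∈ Finset.range J, a j + a J + ∑' j, a (j + (J + 1))) +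
      (-(∑ j ∈ Finset.range J, a j)) + (-(∑' j, a (j + (J + 1)))) := by ring
    calc |a J| = |(∑ j ∈ Finset.range J, a j + a J + ∑' j, a (j + (J + 1))) +
      (-(∑ j ∈ Finset.range J, a j)) + (-(∑' j, a (j + (J + 1))))| := by rw [← h6]
      _ ≤ _ := (abs_add_three _ _ _).trans (by rw [abs_neg, abs_neg])
  linarith

end LacData

end Pool.Agent.Helper179.Siegel
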