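import Pool.Agent.Helper179.SiegelCircle

open MeasureTheory Filter Topology
open scoped ENNReal NNReal

namespace Pool.Agent.Helper179.Siegel

open Pool.Agent.Helper179.KS Pool.Agent.Helper179.Eq

/-- The invariant curve. -/
def Crv : Set (ℂ × ℂ) := Set.range io

lemma crv_nonempty : Crv.Nonempty := ⟨io 0, 0, rfl⟩

lemma isClosed_crv : IsClosed Crv := io_closedEmbedding.isClosed_range

/-- Distance to the curve, truncated at `1`. -/
noncomputable def dcv (p : ℂ × ℂ) : ℝ := min (Metric.infDist p Crv) 1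

lemma dcv_nonneg (p : ℂ × ℂ) : 0 ≤ dcv p := le_min Metric.infDist_nonneg zero_le_one

lemma dcv_le_one (p : ℂ × ℂ) : dcv p ≤ 1 := min_le_right _ _

lemma continuous_dcv : Continuous dcv := by
  unfold dcv
  exact (Metric.continuous_infDist_pt _).min continuous_const

lemma dcv_io (t : UnitAddCircle) : dcv (io t) = 0 := by
  unfold dcv
  rw [Metric.infDist_zero_of_mem (show io t ∈ Crv from ⟨t, rfl⟩)]
  simp

lemma mem_crv_of_dcv {p : ℂ × ℂ} (h : dcv p = 0) : p ∈ Crv := by
  have h1 : Metric.infDist p Crv = 0 := by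
    unfold dcv at h
    rcases min_choice (Metric.infDist p Crv) 1 with h2 | h2
    · rw [h2] at h; exact h
    · rw [h2] at h; norm_num at h
  exact (isClosed_crv.mem_iff_infDist_zero crv_nonempty).2 h1

lemma abs_dcv_sub_le (p q : ℂ × ℂ) : |dcv p - dcv q| ≤ ‖p - q‖ := by
  unfold dcv
  have h1 := abs_min_sub_min_le_max (Metric.infDist p Crv) 1 (Metric.infDist q Crv) 1
  rw [sub_self, abs_zero, max_eq_left (abs_nonneg _)] at h1
  refine h1.trans ?_
  rw [abs_le]
  have h2 := Metric.infDist_le_infDist_add_dist (s := Crv) (x := p) (y := q)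
  have h3 := Metric.infDist_le_infDist_add_dist (s := Crv) (x := q) (y := p)
  rw [dist_comm] at h3
  rw [dist_eq_norm] at h2 h3
  constructor <;> linarith

/-- The weight: a multiple of the distance to the curve. -/
noncomputable def wgt (M : ℝ) (p : ℂ × ℂ) : ℝ := -(M * dcv p)

lemma isHolder_wgt (M : ℝ) : IsHolder (wgt M) := by
  refine ⟨1, |M|, one_pos, le_rfl, ?_⟩
  intro z w
  rw [Real.rpow_one]
  unfold wgt
  rw [show -(M * dcv z) - -(M * dcv w) = -(M * (dcv z - dcv w)) by ring, abs_neg, abs_mul]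
  have h1 := abs_dcv_sub_le z w
  have h2 := norm_le_euclid (z - w)
  simp only [Prod.fst_sub, Prod.snd_sub] at h2
  exact mul_le_mul_of_nonneg_left (h1.trans h2) (abs_nonneg M)

lemma near_tube {p : ℂ × ℂ} (h : Metric.infDist p Crv < r0 / 20) : p ∈ Tube := by
  obtain ⟨_, ⟨t, rfl⟩, ht⟩ := (Metric.infDist_lt_iff crv_nonempty).1 h
  have hr := r0_pos
  set z₀ : ℂ := ((r0 / 2 : ℝ) : ℂ) * ee t with hz₀
  have hz₀n : ‖z₀‖ = r0 / 2 := norm_io_arg t
  have hio : io t = (u (lam⁻¹ * z₀), u z₀) := by
    unfold io psi Th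
    simp only [add_zero]
    rw [← hz₀]
  rw [hio, Prod.dist_eq, max_lt_iff] at ht
  simp only [dist_eq_norm] at ht
  obtain ⟨ht1, ht2⟩ := ht
  obtain ⟨z, hz, hu⟩ := u_surj (z₀ := z₀) (x := p.2) (ρ := r0 / 10) (by positivity)
    (by rw [hz₀n]; linarith) (by linarith)
  have hzn : ‖z‖ ≤ r0 / 10 + r0 / 2 := by
    have h1 : ‖z‖ ≤ ‖z - z₀‖ + ‖z₀‖ := by simpa using norm_add_le (z - z₀) z₀
    linarith
  have hw : ‖p.1 - u (lam⁻¹ * z)‖ ≤ r0 / 20 + (11 / 10) * (r0 / 10) := by
    have h1 : ‖p.1 - u (lam⁻¹ * z)‖ ≤ ‖p.1 - u (lam⁻¹ * z₀)‖ +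
        ‖u (lam⁻¹ * z) - u (lam⁻¹ * z₀)‖ := by
      have := norm_sub_le (p.1 - u (lam⁻¹ * z₀)) (u (lam⁻¹ * z) - u (lam⁻¹ * z₀))
      rwa [show p.1 - u (lam⁻¹ * z₀) - (u (lam⁻¹ * z) - u (lam⁻¹ * z₀)) =
        p.1 - u (lam⁻¹ * z) by ring] at this
    have h2 := u_lip (z := lam⁻¹ * z) (w := lam⁻¹ * z₀) (by rw [norm_lam_inv_mul]; linarith)
      (by rw [norm_lam_inv_mul, hz₀n]; linarith)
    rw [← mul_sub, norm_lam_inv_mul] at h2
    linarith
  refine ⟨(z, p.1 - u (lam⁻¹ * z)), ?_, ?_⟩
  · simp only
    linarith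
  · unfold Th
    simp only
    rw [hu]
    apply Prod.ext
    · simp
    · rfl

lemma measurable_wgt (M : ℝ) : Measurable (wgt M) := by
  unfold wgt
  exact (measurable_const.mul continuous_dcv.measurable).neg

lemma integrable_wgt (M : ℝ) (ν : Measure (ℂ × ℂ)) [IsProbabilityMeasure ν] :
    Integrable (wgt M) ν := by
  apply Integrable.of_bound (measurable_wgt M).aestronglyMeasurable |M|
  apply Filter.Eventually.of_forall
  intro p
  unfold wgt
  rw [norm_neg, norm_mul, Real.norm_eq_abs, Real.norm_eq_abs, abs_of_nonneg (dcv_nonneg p)]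
  have := dcv_le_one p
  have := abs_nonneg M
  nlinarith

/-- The main estimate on free energies and the uniqueness of the equilibrium state. -/
theorem siegel_equilibrium : ∃ M : ℝ,
    IsEquilibriumState mapS (wgt M) muT ∧
    ∀ ν, IsEquilibriumState mapS (wgt M) ν → ν = muT := by
  obtain ⟨H, hH0, hH⟩ := mapS_entropy_bound
  have hr := r0_pos
  set M : ℝ := (H + 1) / (r0 / 20) with hM
  have hMpos : 0 < M := by positivity
  have hMr : M * (r0 / 20) = H + 1 := by rw [hM]; field_simp
  -- entropy bound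
  have hent : ∀ ν, IsInvariantProb mapS ν →
      ksEntropy ν mapS ≤ (((1 - ν.real Disc) * H : ℝ) : EReal) := by
    intro ν hν
    have := hν.1
    have h := ksEntropy_le_of_invariant_set ν hν.2 measurableSet_disc disc_preimage 0 H
      (fun μ h1 h2 h3 _ => entropy_disc μ h1 h2 h3)
      (fun μ h1 h2 _ _ => hH μ h1 h2)
    simpa using h
  -- integral bound
  have hintg : ∀ ν, IsInvariantProb mapS ν →
      ∫ p, wgt M p ∂ν ≤ -((H + 1) * (1 - ν.real Disc)) := by
    intro ν hν
    have hp := hν.1
    have h1 : ∀ᵐ p ∂ν, wgt M p ≤ Set.indicator Discᶜ (fun _ => -(H + 1)) p := by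
      filter_upwards [tube_null ν hν.1 hν.2] with p hp
      by_cases hD : p ∈ Disc
      · rw [Set.indicator_of_notMem (by simpa using hD)]
        unfold wgt
        have := dcv_nonneg p
        have : 0 ≤ M * dcv p := by positivity
        linarith
      · rw [Set.indicator_of_mem (by simpa using hD)]
        have h2 : p ∉ Tube := fun h => hD (hp h)
        have h3 : r0 / 20 ≤ Metric.infDist p Crv := by
          by_contra h
          exact h2 (near_tube (not_le.1 h))
        have h4 : r0 / 20 ≤ dcv p := by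
          unfold dcv
          apply le_min h3
          unfold r0
          norm_num
        unfold wgt
        have : M * (r0 / 20) ≤ M * dcv p := mul_le_mul_of_nonneg_left h4 hMpos.le
        linarith
    have h2 := integral_mono_ae (integrable_wgt M ν)
      ((integrable_const (-(H + 1))).indicator measurableSet_disc.compl) h1
    rw [integral_indicator measurableSet_disc.compl, setIntegral_const, smul_eq_mul,
      measureReal_compl measurableSet_disc] at h2
    simp only [probReal_univ] at h2
    linarith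
  have hd1 : ∀ ν : Measure (ℂ × ℂ), IsInvariantProb mapS ν → ν.real Disc ≤ 1 := by
    intro ν hν
    have := hν.1
    exact measureReal_le_one
  have hle0 : ∀ ν, IsInvariantProb mapS ν → freeEnergy mapS (wgt M) ν ≤
      ((-(1 - ν.real Disc) : ℝ) : EReal) := by
    intro ν hν
    unfold freeEnergy
    have h1 := hent ν hν
    have h2 := hintg ν hν
    calc ksEntropy ν mapS + ((∫ p, wgt M p ∂ν : ℝ) : EReal)
        ≤ (((1 - ν.real Disc) * H : ℝ) : EReal) +
          ((-((H + 1) * (1 - ν.real Disc)) : ℝ) : EReal) :=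
          add_le_add h1 (by exact_mod_cast h2)
      _ = ((-(1 - ν.real Disc) : ℝ) : EReal) := by
          rw [← EReal.coe_add]
          congr 1
          ring
  have hle : ∀ ν, IsInvariantProb mapS ν → freeEnergy mapS (wgt M) ν ≤ 0 := by
    intro ν hν
    refine (hle0 ν hν).trans ?_
    have h := hd1 ν hν
    have : -(1 - ν.real Disc) ≤ 0 := by linarith
    exact_mod_cast this
  have hint0 : ∫ p, wgt M p ∂muT = 0 := by
    unfold muT
    rw [integral_map continuous_io.aemeasurable (measurable_wgt M).aestronglyMeasurable]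
    have : ∀ t, wgt M (io t) = 0 := by
      intro t
      unfold wgt
      rw [dcv_io]
      simp
    simp [this]
  have hmuT : freeEnergy mapS (wgt M) muT = 0 := by
    apply le_antisymm (hle muT muT_inv)
    unfold freeEnergy
    rw [hint0]
    have := muT_inv.1
    have h := ksEntropy_nonneg muT mapS
    simpa using h
  have hpress : pressure mapS (wgt M) = 0 := by
    apply le_antisymm
    · apply iSup_le
      intro ν
      apply iSup_le
      intro hν
      exact hle ν hν
    · rw [← hmuT]
      exact le_iSup_of_le muT (le_iSup_of_le muT_inv le_rfl)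
  refine ⟨M, ⟨muT_inv, by rw [hmuT, hpress]⟩, ?_⟩
  intro ν hν
  have hp := hν.1.1
  have h1 := hν.2
  rw [hpress] at h1
  have h2 := hle0 ν hν.1
  rw [h1] at h2
  have h3 : (0 : ℝ) ≤ -(1 - ν.real Disc) := by exact_mod_cast h2
  have h4 : ν.real Disc = 1 := le_antisymm (hd1 ν hν.1) (by linarith)
  have h5 := hent ν hν.1
  rw [h4] at h5
  have h6 : ksEntropy ν mapS = 0 := by
    apply le_antisymm _ (ksEntropy_nonneg ν mapS)
    simpa using h5
  have h7 : ∫ p, wgt M p ∂ν = 0 := by
    unfold freeEnergy at h1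
    rw [h6, zero_add] at h1
    exact_mod_cast h1
  have h8 : ∀ᵐ p ∂ν, dcv p = 0 := by
    have h9 : ∫ p, M * dcv p ∂ν = 0 := by
      unfold wgt at h7
      rw [integral_neg] at h7
      linarith
    have h10 : Integrable (fun p => M * dcv p) ν := by
      have := (integrable_wgt M ν).neg
      have h11 : (-(wgt M)) = fun p => M * dcv p := by
        ext p
        simp [wgt]
      rwa [h11] at this
    have h12 := (integral_eq_zero_iff_of_nonneg
      (fun p => mul_nonneg hMpos.le (dcv_nonneg p)) h10).1 h9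
    filter_upwards [h12] with p hp
    have h13 : M * dcv p = 0 := hp
    rcases mul_eq_zero.1 h13 with h | h
    · exact absurd h hMpos.ne'
    · exact h
  apply eq_muT ν hν.1
  filter_upwards [h8] with p hp
  exact mem_crv_of_dcv hp

end Pool.Agent.Helper179.Siegel
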