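import Pool.Agent.Helper179.Lacunary
import Pool.Agent.Helper179.SiegelEq

open MeasureTheory Filter Topology
open scoped ENNReal NNReal

namespace Pool.Agent.Helper179.Siegel

open Pool.Agent.Helper179.KS Pool.Agent.Helper179.Eq

namespace LacData

variable (L : LacData)

lemma min_two_le {X : ℝ} (hX : 0 ≤ X) : min 2 X ≤ 2 * X ^ (1 / 8 : ℝ) := by
  rcases le_total X 1 with h | h
  · refine (min_le_right _ _).trans ?_
    have h1 : X ^ (1 : ℝ) ≤ X ^ (1 / 8 : ℝ) :=
      Real.rpow_le_rpow_of_exponent_ge' hX h (by norm_num) (by norm_num)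
    rw [Real.rpow_one] at h1
    have h2 : 0 ≤ X ^ (1 / 8 : ℝ) := Real.rpow_nonneg hX _
    linarith
  · refine (min_le_left _ _).trans ?_
    have h1 : 1 ≤ X ^ (1 / 8 : ℝ) := Real.one_le_rpow h (by norm_num)
    linarith

lemma term_holder (j : ℕ) (s t : UnitAddCircle) :
    |L.c j * (ee s ^ L.q j).re - L.c j * (ee t ^ L.q j).re| ≤
      (1 / 2) ^ (j + 1) * (2 * ‖ee s - ee t‖ ^ (1 / 8 : ℝ)) := by
  rw [← mul_sub, abs_mul, abs_of_pos (L.c_pos j), ← Complex.sub_re]
  have h1 : |(ee s ^ L.q j - ee t ^ L.q j).re| ≤ min 2 (L.q j * ‖ee s - ee t‖) := by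
    apply le_min
    · refine (Complex.abs_re_le_norm _).trans ((norm_sub_le _ _).trans ?_)
      rw [norm_ee_pow, norm_ee_pow]
      norm_num
    · refine (Complex.abs_re_le_norm _).trans ?_
      obtain ⟨m, hm⟩ : ∃ m, L.q j = m + 1 := ⟨L.q j - 1, by have := L.q_pos j; omega⟩
      rw [hm]
      have := norm_pow_sub_pow_le (z := ee s) (w := ee t) (r := 1) (norm_ee s).le (norm_ee t).le m
      simpa using this
  have h2 := min_two_le (X := L.q j * ‖ee s - ee t‖) (by positivity)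
  rw [Real.mul_rpow (by positivity) (norm_nonneg _)] at h2
  have h3 := (L.hol j).trans (L.inv_Ms_le j)
  have h4 := (L.c_pos j).le
  have h5 : 0 ≤ ‖ee s - ee t‖ ^ (1 / 8 : ℝ) := Real.rpow_nonneg (norm_nonneg _) _
  calc L.c j * |(ee s ^ L.q j - ee t ^ L.q j).re|
      ≤ L.c j * (2 * ((L.q j : ℝ) ^ (1 / 8 : ℝ) * ‖ee s - ee t‖ ^ (1 / 8 : ℝ))) :=
        mul_le_mul_of_nonneg_left (h1.trans h2) h4
    _ = (L.c j * (L.q j : ℝ) ^ (1 / 8 : ℝ)) * (2 * ‖ee s - ee t‖ ^ (1 / 8 : ℝ)) := by ring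
    _ ≤ (1 / 2) ^ (j + 1) * (2 * ‖ee s - ee t‖ ^ (1 / 8 : ℝ)) :=
        mul_le_mul_of_nonneg_right h3 (by positivity)

lemma hasSum_half : HasSum (fun j : ℕ => ((1 : ℝ) / 2) ^ (j + 1)) 1 := by
  have h3 := (hasSum_geometric_of_lt_one (r := (1 : ℝ) / 2) (by norm_num) (by norm_num)).mul_left
    ((1 : ℝ) / 2)
  have h4 : (1 : ℝ) / 2 * (1 - 1 / 2)⁻¹ = 1 := by norm_num
  rw [h4] at h3
  refine h3.congr_fun ?_
  intro j
  rw [pow_succ]
  ring

theorem G_holder (s t : UnitAddCircle) : |L.G s - L.G t| ≤ 2 * ‖ee s - ee t‖ ^ (1 / 8 : ℝ) := by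
  unfold G
  rw [← (L.summable_term s).tsum_sub (L.summable_term t)]
  have h := tsum_of_norm_bounded (hasSum_half.mul_right (2 * ‖ee s - ee t‖ ^ (1 / 8 : ℝ)))
    (fun j => by
      rw [Real.norm_eq_abs]
      exact L.term_holder j s t)
  rw [Real.norm_eq_abs, one_mul] at h
  exact h

lemma continuous_G : Continuous L.G := by
  rw [continuous_iff_continuousAt]
  intro t
  rw [ContinuousAt, tendsto_iff_dist_tendsto_zero]
  have h1 : Tendsto (fun s => ‖ee s - ee t‖) (𝓝 t) (𝓝 0) := by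
    have : Tendsto (fun s => ‖ee s - ee t‖) (𝓝 t) (𝓝 ‖ee t - ee t‖) :=
      ((continuous_ee.sub continuous_const).norm).tendsto t
    simpa using this
  have h2 : Tendsto (fun s => 2 * ‖ee s - ee t‖ ^ (1 / 8 : ℝ)) (𝓝 t) (𝓝 (2 * 0 ^ (1 / 8 : ℝ))) :=
    (h1.rpow_const (Or.inr (by norm_num))).const_mul 2
  have h3 : (2 : ℝ) * 0 ^ (1 / 8 : ℝ) = 0 := by
    rw [Real.zero_rpow (by norm_num), mul_zero]
  rw [h3] at h2
  refine squeeze_zero (fun s => dist_nonneg) (fun s => ?_) h2
  rw [Real.dist_eq]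
  exact L.G_holder s t

/-- The lacunary function extends to a Hölder function on `ℂ × ℂ`. -/
theorem exists_extension : ∃ g : ℂ × ℂ → ℝ, IsHolder g ∧ ∀ t, g (io t) = L.G t := by
  have hr := r0_pos
  set K : ℝ≥0 := ⟨2 * (20 / (9 * r0)) ^ (1 / 8 : ℝ), by positivity⟩ with hK
  let f : Metric.Snowflaking (ℂ × ℂ) (1 / 8) (by norm_num) (by norm_num) → ℝ :=
    fun p => L.G (Function.invFun io p.val)
  have hf : LipschitzOnWith K f {p | p.val ∈ Set.range io} := by
    apply LipschitzOnWith.of_dist_le_mul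
    rintro ⟨_⟩ ⟨s, rfl⟩ ⟨_⟩ ⟨t, rfl⟩
    simp only [f]
    rw [Function.leftInverse_invFun io_injective, Function.leftInverse_invFun io_injective]
    have h1 : dist (Metric.Snowflaking.toSnowflaking (α := 1 / 8) (hα₀ := by norm_num)
        (hα₁ := by norm_num) (io s)) (Metric.Snowflaking.toSnowflaking (io t)) =
        dist (io s) (io t) ^ (1 / 8 : ℝ) := Metric.Snowflaking.dist_toSnowflaking_toSnowflaking _ _
    change dist (L.G s) (L.G t) ≤ K * dist (Metric.Snowflaking.toSnowflaking (io s))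
      (Metric.Snowflaking.toSnowflaking (io t))
    rw [h1, Real.dist_eq]
    refine (L.G_holder s t).trans ?_
    have h2 := dist_io_ge s t
    have h3 : ‖ee s - ee t‖ ≤ 20 / (9 * r0) * dist (io s) (io t) := by
      have h4 : ‖ee s - ee t‖ = 20 / (9 * r0) * ((9 / 20) * r0 * ‖ee s - ee t‖) := by
        field_simp
      rw [h4]
      exact mul_le_mul_of_nonneg_left h2 (by positivity)
    have h5 : ‖ee s - ee t‖ ^ (1 / 8 : ℝ) ≤ (20 / (9 * r0) * dist (io s) (io t)) ^ (1 / 8 : ℝ) :=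
      Real.rpow_le_rpow (norm_nonneg _) h3 (by norm_num)
    rw [Real.mul_rpow (by positivity) dist_nonneg] at h5
    have h6 : (K : ℝ) = 2 * (20 / (9 * r0)) ^ (1 / 8 : ℝ) := rfl
    rw [h6]
    linarith
  obtain ⟨g', hg', hgf⟩ := hf.extend_real
  refine ⟨fun p => g' (Metric.Snowflaking.toSnowflaking p), ?_, ?_⟩
  · refine ⟨1 / 8, K, by norm_num, by norm_num, ?_⟩
    intro z w
    have h1 := hg'.dist_le_mul (Metric.Snowflaking.toSnowflaking z)
      (Metric.Snowflaking.toSnowflaking w)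
    rw [Metric.Snowflaking.dist_toSnowflaking_toSnowflaking, Real.dist_eq] at h1
    refine h1.trans ?_
    apply mul_le_mul_of_nonneg_left _ K.2
    apply Real.rpow_le_rpow dist_nonneg _ (by norm_num)
    rw [dist_eq_norm]
    have h2 := norm_le_euclid (z - w)
    simpa using h2
  · intro t
    have h1 := hgf (show Metric.Snowflaking.toSnowflaking (io t) ∈
      {p : Metric.Snowflaking (ℂ × ℂ) (1 / 8) (by norm_num) (by norm_num) |
        p.val ∈ Set.range io} from ⟨t, rfl⟩)
    change g' (Metric.Snowflaking.toSnowflaking (io t)) = L.G t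
    rw [← h1]
    change L.G (Function.invFun io (io t)) = L.G t
    rw [Function.leftInverse_invFun io_injective]

/-- Measure of the set where the real part of the character is small. -/
noncomputable def hm (η : ℝ) : ℝ≥0∞ := haarT {t | |(ee t).re| ≤ η}

lemma ee_surj (w : ℂ) (hw : ‖w‖ = 1) : ∃ t, ee t = w := by
  obtain ⟨t, ht⟩ := (AddCircle.homeomorphCircle (T := 1) one_ne_zero).surjective
    ⟨w, by rw [Submonoid.unitSphere]; simpa using hw⟩
  refine ⟨t, ?_⟩
  unfold ee
  rw [AddCircle.homeomorphCircle_apply] at ht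
  rw [ht]

lemma measurableSet_small (η : ℝ) : MeasurableSet {t : UnitAddCircle | |(ee t).re| ≤ η} :=
  measurableSet_le ((Complex.continuous_re.comp continuous_ee).abs.measurable) measurable_const

lemma small_eq (q : ℕ) (hq : 1 ≤ q) (w : ℂ) (hw : ‖w‖ = 1) (η : ℝ) :
    haarT {t | |(ee t ^ q * w).re| ≤ η} = hm η := by
  obtain ⟨θ, hθ⟩ := ee_surj w hw
  have h1 : {t | |(ee t ^ q * w).re| ≤ η} = (fun t : UnitAddCircle => (q : ℤ) • t + θ) ⁻¹'
      {t | |(ee t).re| ≤ η} := by
    ext t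
    simp only [Set.mem_preimage, Set.mem_ofPred_eq]
    rw [ee_add, hθ, natCast_zsmul, ee_nsmul]
  have h2 : MeasurePreserving (fun t : UnitAddCircle => (q : ℤ) • t + θ) haarT haarT := by
    have h3 : MeasurePreserving (fun t : UnitAddCircle => (q : ℤ) • t) haarT haarT :=
      Measure.measurePreserving_zsmul haarT (by exact_mod_cast (by omega : q ≠ 0))
    exact (measurePreserving_add_right haarT θ).comp h3
  rw [h1, h2.measure_preimage (measurableSet_small η).nullMeasurableSet]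
  rfl

instance : Nontrivial UnitAddCircle := by
  refine ⟨⟨al, 0, ?_⟩⟩
  intro h
  have h1 : ee al = ee 0 := by rw [h]
  have h2 : ee 0 = 1 := by
    unfold ee
    rw [AddCircle.toCircle_zero, Circle.coe_one]
  rw [ee_al, h2] at h1
  have h3 := lam_pow_ne_one 1 le_rfl
  rw [pow_one] at h3
  exact h3 h1

lemma hm_zero : hm 0 = 0 := by
  unfold hm
  have h1 : {t : UnitAddCircle | |(ee t).re| ≤ 0} ⊆ ee ⁻¹' {Complex.I, -Complex.I} := by
    intro t ht
    have h2 : (ee t).re = 0 := by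
      have := abs_nonneg (ee t).re
      have h3 : |(ee t).re| = 0 := le_antisymm ht this
      exact abs_eq_zero.1 h3
    have h4 := norm_ee t
    have h5 : (ee t).re ^ 2 + (ee t).im ^ 2 = 1 := by
      have := Complex.sq_norm (ee t)
      rw [h4, Complex.normSq_apply] at this
      nlinarith
    rw [h2] at h5
    have h6 : (ee t).im = 1 ∨ (ee t).im = -1 := by
      have h7 : ((ee t).im - 1) * ((ee t).im + 1) = 0 := by nlinarith
      rcases mul_eq_zero.1 h7 with h | h
      · left; linarith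
      · right; linarith
    rcases h6 with h | h
    · left
      apply Complex.ext <;> simp [h2, h]
    · right
      simp only [Set.mem_singleton_iff]
      apply Complex.ext <;> simp [h2, h]
  have h2 : (ee ⁻¹' {Complex.I, -Complex.I}).Finite :=
    (Set.toFinite _).preimage ee_injective.injOn
  exact measure_mono_null h1 (h2.measure_zero haarT)

lemma tendsto_hm : Tendsto (fun k : ℕ => hm (1 / ((k : ℝ) + 1))) atTop (𝓝 0) := by
  have h1 : Tendsto (fun k : ℕ => haarT {t : UnitAddCircle | |(ee t).re| ≤ 1 / ((k : ℝ) + 1)})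
      atTop (𝓝 (haarT (⋂ k : ℕ, {t : UnitAddCircle | |(ee t).re| ≤ 1 / ((k : ℝ) + 1)}))) := by
    apply tendsto_measure_iInter_atTop
    · intro k
      exact (measurableSet_small _).nullMeasurableSet
    · intro k l hkl t ht
      simp only [Set.mem_ofPred_eq] at ht ⊢
      refine ht.trans ?_
      apply one_div_le_one_div_of_le (by positivity)
      have : (k : ℝ) ≤ l := by exact_mod_cast hkl
      linarith
    · exact ⟨0, measure_ne_top _ _⟩
  have h2 : (⋂ k : ℕ, {t : UnitAddCircle | |(ee t).re| ≤ 1 / ((k : ℝ) + 1)}) =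
      {t | |(ee t).re| ≤ 0} := by
    ext t
    simp only [Set.mem_iInter, Set.mem_ofPred_eq]
    constructor
    · intro h
      exact ge_of_tendsto' tendsto_one_div_add_atTop_nhds_zero_nat h
    · intro h k
      exact h.trans (by positivity)
  rw [h2] at h1
  have h3 : haarT {t : UnitAddCircle | |(ee t).re| ≤ 0} = 0 := hm_zero
  rw [h3] at h1
  exact h1

lemma hm_mono {a b : ℝ} (h : a ≤ b) : hm a ≤ hm b :=
  measure_mono (fun _ ht => le_trans ht h)

lemma tendsto_Ms : Tendsto L.Ms atTop atTop := by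
  apply tendsto_atTop_mono L.Ms_ge
  exact (tendsto_pow_atTop_atTop_of_one_lt (by norm_num)).comp (tendsto_add_atTop_nat 1)

lemma tendsto_n : Tendsto L.n atTop atTop := by
  have h : Tendsto (fun j => (L.n j : ℝ)) atTop atTop := by
    apply tendsto_atTop_mono _ L.tendsto_Ms
    intro j
    have h1 := L.Ms_sq j
    have h2 := L.Ms_ge_one j
    nlinarith
  exact tendsto_natCast_atTop_iff.1 h

lemma small_subset (K : ℝ) (J : ℕ) : ∃ w : ℂ, ‖w‖ = 1 ∧
    {t | |L.S (L.n J) t| ≤ K * Real.sqrt (L.n J)} ⊆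
      {t | |(ee t ^ L.q J * w).re| ≤ (K + 2) / L.Ms J} := by
  set n := L.n J with hn
  set D := Dk (L.q J) n with hD
  have hn1 : (1 : ℝ) ≤ n := by exact_mod_cast L.n_pos J
  have hDge : (n : ℝ) / 2 ≤ ‖D‖ := norm_Dk_ge _ _ (L.n_small J)
  have hDpos : 0 < ‖D‖ := by linarith
  have hMs := L.Ms_ge_one J
  have hsq1 : 1 ≤ Real.sqrt n := by
    rw [show (1 : ℝ) = Real.sqrt 1 by simp]
    exact Real.sqrt_le_sqrt hn1
  have hsqM : L.Ms J ≤ Real.sqrt n := by
    apply Real.le_sqrt_of_sq_le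
    exact L.Ms_sq J
  have hsqn : Real.sqrt n * Real.sqrt n = n := Real.mul_self_sqrt (by positivity)
  refine ⟨D / ‖D‖, ?_, ?_⟩
  · rw [norm_div, Complex.norm_real, norm_norm, div_self hDpos.ne']
  · intro t ht
    simp only [Set.mem_ofPred_eq] at ht ⊢
    have h1 := L.S_main J t
    rw [← hn, ← hD] at h1
    have h2 : (ee t ^ L.q J * D).re = ‖D‖ * (ee t ^ L.q J * (D / ‖D‖)).re := by
      have h3 : ee t ^ L.q J * D = (‖D‖ : ℂ) * (ee t ^ L.q J * (D / ‖D‖)) := by
        have : (‖D‖ : ℂ) ≠ 0 := by exact_mod_cast hDpos.ne'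
        field_simp
      rw [h3, Complex.re_ofReal_mul]
    rw [h2, abs_mul, abs_of_pos hDpos] at h1
    set y := |(ee t ^ L.q J * (D / ‖D‖)).re| with hy
    have hy0 : 0 ≤ y := abs_nonneg _
    have h4 : L.Ms J * Real.sqrt n ≤ L.c J * ‖D‖ := by
      have h5 := L.amp J
      rw [← hn] at h5
      have h6 : L.c J * (n / 2) ≤ L.c J * ‖D‖ := mul_le_mul_of_nonneg_left hDge (L.c_pos J).le
      have h7 : L.c J * (n / 2) = (L.c J * Real.sqrt n) * Real.sqrt n / 2 := by
        rw [mul_assoc (L.c J), hsqn]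
        ring
      nlinarith
    have h8 : L.Ms J * Real.sqrt n * y ≤ (K + 2) * Real.sqrt n := by
      have h9 : L.Ms J * Real.sqrt n * y ≤ L.c J * ‖D‖ * y := mul_le_mul_of_nonneg_right h4 hy0
      nlinarith
    have h10 : L.Ms J * y ≤ K + 2 := by
      have h11 : (L.Ms J * y) * Real.sqrt n ≤ (K + 2) * Real.sqrt n := by nlinarith
      exact le_of_mul_le_mul_right h11 (by linarith)
    rw [le_div_iff₀ (by linarith)]
    linarith

/-- `S_{n_J} G / √n_J` tends to infinity in probability. -/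
theorem escape (K : ℝ) : Tendsto (fun J => haarT {t | |L.S (L.n J) t| ≤ K * Real.sqrt (L.n J)})
    atTop (𝓝 0) := by
  rw [ENNReal.tendsto_nhds_zero]
  intro ε hε
  obtain ⟨k, hk⟩ := ((ENNReal.tendsto_nhds_zero.1 tendsto_hm) ε hε).exists
  have h1 : ∀ᶠ J in atTop, (K + 2) * (k + 1) ≤ L.Ms J := L.tendsto_Ms.eventually_ge_atTop _
  filter_upwards [h1] with J hJ
  obtain ⟨w, hw, hsub⟩ := L.small_subset K J
  refine (measure_mono hsub).trans ?_
  rw [small_eq _ (L.q_pos J) w hw]
  refine (hm_mono ?_).trans hk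
  have := L.Ms_ge_one J
  rw [div_le_div_iff₀ (by linarith) (by positivity)]
  linarith

lemma integrable_G : Integrable L.G haarT := by
  apply Integrable.of_bound L.continuous_G.aestronglyMeasurable (|L.G 0| + 2 * 2 ^ (1 / 8 : ℝ))
  apply Filter.Eventually.of_forall
  intro t
  rw [Real.norm_eq_abs]
  have h1 := L.G_holder t 0
  have h2 : ‖ee t - ee 0‖ ≤ 2 := by
    refine (norm_sub_le _ _).trans ?_
    rw [norm_ee, norm_ee]
    norm_num
  have h3 : ‖ee t - ee 0‖ ^ (1 / 8 : ℝ) ≤ 2 ^ (1 / 8 : ℝ) :=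
    Real.rpow_le_rpow (norm_nonneg _) h2 (by norm_num)
  have h4 : |L.G t| ≤ |L.G 0| + |L.G t - L.G 0| := by
    have := abs_add_le (L.G 0) (L.G t - L.G 0)
    simpa using this
  linarith

/-- The lacunary function has mean zero. -/
theorem integral_G : ∫ t, L.G t ∂haarT = 0 := by
  have hS : ∀ n : ℕ, ∫ t, L.S n t ∂haarT = n * ∫ t, L.G t ∂haarT := by
    intro n
    unfold S
    have hint : ∀ i : ℕ, Integrable (fun t => L.G (t + i • al)) haarT := fun i =>
      L.integrable_G.comp_add_right (i • al)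
    rw [integral_finsetSum _ (fun i _ => hint i)]
    have : ∀ i : ℕ, ∫ t, L.G (t + i • al) ∂haarT = ∫ t, L.G t ∂haarT := fun i =>
      integral_add_right_eq_self (fun t => L.G t) (i • al)
    simp [this]
  by_contra hne
  have hpos : 0 < |∫ t, L.G t ∂haarT| := abs_pos.2 hne
  obtain ⟨n, hn, hn1⟩ := ((L.S_uniform (|∫ t, L.G t ∂haarT| / 2) (by positivity)).and
    (eventually_ge_atTop 1)).exists
  have hn1' : (1 : ℝ) ≤ n := by exact_mod_cast hn1
  have h1 : |∫ t, L.S n t ∂haarT| ≤ |∫ t, L.G t ∂haarT| / 2 * n := by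
    have := norm_integral_le_of_norm_le_const (μ := haarT) (f := L.S n)
      (C := |∫ t, L.G t ∂haarT| / 2 * n) (Filter.Eventually.of_forall (fun t => hn t))
    simpa using this
  rw [hS, abs_mul, Nat.abs_cast] at h1
  nlinarith

end LacData

end Pool.Agent.Helper179.Siegel
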