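import Mathlib

open Filter Topology

namespace Pool.Agent.Helper179.Siegel

/-! ### Counting small divisors on binary trees -/

/-- Binary trees. -/
inductive BT : Type
  | leaf : BT
  | node (l r : BT) : BT

namespace BT

/-- Number of leaves. -/
def size : BT → ℕ
  | leaf => 1
  | node l r => size l + size r

lemma size_pos : ∀ t : BT, 1 ≤ size t
  | leaf => le_rfl
  | node l r => by
    have := size_pos l
    have := size_pos r
    simp only [size]
    omega

open Classical in
/-- Number of inner nodes whose number of leaves is bad. -/
noncomputable def count (bad : ℕ → Prop) : BT → ℕ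
  | leaf => 0
  | node l r => count bad l + count bad r + if bad (size l + size r) then 1 else 0

/-- The same count without the root. -/
noncomputable def count' (bad : ℕ → Prop) : BT → ℕ
  | leaf => 0
  | node l r => count bad l + count bad r

lemma count_eq_count' (bad : ℕ → Prop) (t : BT) (h : 2 ≤ size t → ¬ bad (size t)) :
    count bad t = count' bad t := by
  cases t with
  | leaf => rfl
  | node l r =>
    have h1 := size_pos l
    have h2 := size_pos r
    have h3 : ¬ bad (size l + size r) := h (by simp only [size]; omega)
    simp [count, count', h3]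

/-- Bruno's counting lemma. -/
theorem count_bound (q : ℕ) (bad : ℕ → Prop) (h1 : ∀ m, 2 ≤ m → bad m → q + 1 ≤ m)
    (h2 : ∀ m m', 2 ≤ m' → m' < m → bad m → bad m' → q ≤ m - m') (hq : 1 ≤ q) : ∀ t : BT,
    (count bad t = 0 ∨ q * (count bad t + 1) ≤ 2 * size t) ∧
    ∀ m, 2 ≤ m → size t ≤ m → 2 * m < q + 2 * size t → bad m → q * (count' bad t + 2) ≤ 2 * m
  | leaf => by
    refine ⟨Or.inl rfl, ?_⟩
    intro m hm _ hlt hb
    have := h1 m hm hb
    simp only [size] at hlt
    omega
  | node l r => by
    obtain ⟨Al, Bl⟩ := count_bound q bad h1 h2 hq l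
    obtain ⟨Ar, Br⟩ := count_bound q bad h1 h2 hq r
    have sl := size_pos l
    have sr := size_pos r
    have hB : ∀ m, 2 ≤ m → size (node l r) ≤ m → 2 * m < q + 2 * size (node l r) → bad m →
        q * (count' bad (node l r) + 2) ≤ 2 * m := by
      intro m hm hle hlt hb
      have hqm := h1 m hm hb
      simp only [size] at hle hlt
      simp only [count']
      by_cases c1 : 2 * m < q + 2 * size l
      · have hr0 : count bad r = 0 := by
          rcases Ar with h | h
          · exact h
          · exfalso
            have : q * (count bad r + 1) ≥ q := Nat.le_mul_of_pos_right q (Nat.succ_pos _)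
            omega
        have hl : count bad l = count' bad l := by
          apply count_eq_count'
          intro h2l hbl
          have := h2 m (size l) h2l (by omega) hb hbl
          omega
        rw [hr0, hl]
        exact Bl m hm (by omega) c1 hb
      · by_cases c2 : 2 * m < q + 2 * size r
        · have hl0 : count bad l = 0 := by
            rcases Al with h | h
            · exact h
            · exfalso
              have : q * (count bad l + 1) ≥ q := Nat.le_mul_of_pos_right q (Nat.succ_pos _)
              omega
          have hr : count bad r = count' bad r := by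
            apply count_eq_count'
            intro h2r hbr
            have := h2 m (size r) h2r (by omega) hb hbr
            omega
          rw [hl0, hr, Nat.zero_add]
          exact Br m hm (by omega) c2 hb
        · have e1 : ∀ a b : ℕ, q * (a + b + 2) = q * (a + 1) + q * (b + 1) := by intro a b; ring
          have e2 : ∀ a : ℕ, q * (a + 2) = q * (a + 1) + q := by intro a; ring
          rcases Al with hl | hl <;> rcases Ar with hr | hr
          · rw [hl, hr]
            omega
          · rw [hl, Nat.zero_add, e2]
            omega
          · rw [hr, Nat.add_zero, e2]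
            omega
          · rw [e1]
            omega
    refine ⟨?_, hB⟩
    by_cases hbad : bad (size l + size r)
    · right
      have h := hB (size (node l r)) (by simp only [size]; omega) le_rfl (by omega)
        (by simpa only [size] using hbad)
      simp only [count, hbad, if_true]
      simp only [count'] at h
      exact h
    · simp only [count, hbad, if_false, Nat.add_zero, size]
      have e1 : ∀ a b : ℕ, q * (a + b + 1) + q = q * (a + 1) + q * (b + 1) := by intro a b; ring
      rcases Al with hl | hl <;> rcases Ar with hr | hr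
      · left; omega
      · right; rw [hl, Nat.zero_add]; omega
      · right; rw [hr, Nat.add_zero]; omega
      · right
        have := e1 (count bad l) (count bad r)
        omega

/-- Product of the weights `w` over the inner nodes. -/
noncomputable def weight (w : ℕ → ℝ) : BT → ℝ
  | leaf => 1
  | node l r => weight w l * weight w r * w (size l + size r)

lemma weight_pos (w : ℕ → ℝ) (hw : ∀ m, 2 ≤ m → 0 < w m) : ∀ t : BT, 0 < weight w t
  | leaf => one_pos
  | node l r => by
    have h1 := size_pos l
    have h2 := size_pos r
    exact mul_pos (mul_pos (weight_pos w hw l) (weight_pos w hw r)) (hw _ (by omega))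

lemma le_two_pow_card (K : ℕ) (x : ℝ) (hx : x ≤ 2 ^ K) :
    x ≤ 2 ^ ((Finset.range K).filter (fun k => (2 : ℝ) ^ k < x)).card := by
  induction K with
  | zero => simpa using hx
  | succ K ih =>
    by_cases h : x ≤ 2 ^ K
    · refine (ih h).trans ?_
      apply pow_le_pow_right₀ (by norm_num)
      apply Finset.card_le_card
      apply Finset.filter_subset_filter
      exact Finset.range_subset_range.2 (Nat.le_succ K)
    · push Not at h
      have : (Finset.range (K + 1)).filter (fun k => (2 : ℝ) ^ k < x) = Finset.range (K + 1) := by
        apply Finset.filter_true_of_mem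
        intro k hk
        refine lt_of_le_of_lt ?_ h
        apply pow_le_pow_right₀ (by norm_num)
        have := Finset.mem_range.1 hk
        omega
      rw [this, Finset.card_range]
      exact hx

lemma weight_le_two_pow (w : ℕ → ℝ) (hw : ∀ m, 2 ≤ m → 0 < w m) (K : ℕ) : ∀ t : BT,
    (∀ m, 2 ≤ m → m ≤ size t → w m ≤ 2 ^ K) →
    weight w t ≤ 2 ^ (∑ k ∈ Finset.range K, count (fun m => (2 : ℝ) ^ k < w m) t)
  | leaf => by intro _; simp [weight, count]
  | node l r => by
    intro h
    have s1 := size_pos l
    have s2 := size_pos r
    have hl := weight_le_two_pow w hw K l (fun m h2 h3 => h m h2 (by simp only [size]; omega))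
    have hr := weight_le_two_pow w hw K r (fun m h2 h3 => h m h2 (by simp only [size]; omega))
    have hroot := le_two_pow_card K (w (size l + size r)) (h _ (by omega) le_rfl)
    have hsum : ∑ k ∈ Finset.range K, count (fun m => (2 : ℝ) ^ k < w m) (node l r) =
        ∑ k ∈ Finset.range K, count (fun m => (2 : ℝ) ^ k < w m) l +
        ∑ k ∈ Finset.range K, count (fun m => (2 : ℝ) ^ k < w m) r +
        ((Finset.range K).filter (fun k => (2 : ℝ) ^ k < w (size l + size r))).card := by
      simp only [count]
      rw [Finset.sum_add_distrib, Finset.sum_add_distrib, Finset.card_filter]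
    rw [hsum, pow_add, pow_add]
    simp only [weight]
    have p1 := (weight_pos w hw l).le
    have p2 := (weight_pos w hw r).le
    have p3 := (hw (size l + size r) (by omega)).le
    exact mul_le_mul (mul_le_mul hl hr p2 (by positivity)) hroot p3 (by positivity)

/-- The Siegel-Bruno bound: if `w m ≤ m - 1` and the large weights are well separated, then the
products of weights over trees grow at most geometrically. -/
theorem weight_bound (w : ℕ → ℝ) (hw : ∀ m, 2 ≤ m → 0 < w m) (hw1 : ∀ m, 2 ≤ m → w m ≤ m - 1)
    (hsep : ∀ m m', 2 ≤ m' → m' < m → ∀ θ : ℝ, 0 < θ → θ < w m → θ < w m' →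
      θ / 2 < (m : ℝ) - m') (t : BT) : weight w t ≤ 256 ^ size t := by
  have hcount : ∀ k : ℕ, (count (fun m => (2 : ℝ) ^ k < w m) t : ℝ) ≤ (4 * size t) * (1 / 2) ^ k := by
    intro k
    have hpos : (0 : ℝ) < 2 ^ k := by positivity
    have hcb := (count_bound (2 ^ (k - 1)) (fun m => (2 : ℝ) ^ k < w m)
      (by
        intro m hm hb
        have h1 : (2 : ℝ) ^ k < m - 1 := lt_of_lt_of_le hb (hw1 m hm)
        have h2 : (2 : ℝ) ^ (k - 1) ≤ 2 ^ k := pow_le_pow_right₀ (by norm_num) (Nat.sub_le k 1)
        have h3 : ((2 ^ (k - 1) + 1 : ℕ) : ℝ) ≤ (m : ℝ) := by push_cast; linarith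
        exact_mod_cast h3)
      (by
        intro m m' hm' hlt hb hb'
        have h1 := hsep m m' hm' hlt (2 ^ k) hpos hb hb'
        rcases Nat.eq_zero_or_pos k with rfl | hk
        · simp only [Nat.zero_sub, pow_zero]
          omega
        · obtain ⟨j, rfl⟩ : ∃ j, k = j + 1 := ⟨k - 1, by omega⟩
          rw [Nat.add_sub_cancel]
          rw [pow_succ, mul_div_assoc, div_self (by norm_num), mul_one] at h1
          have h2 : ((2 ^ j + m' : ℕ) : ℝ) < (m : ℝ) := by push_cast; linarith
          have h3 : 2 ^ j + m' < m := by exact_mod_cast h2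
          omega)
      Nat.one_le_two_pow t).1
    rcases hcb with h | h
    · rw [h]
      simp only [Nat.cast_zero]
      positivity
    · have h1 : ((2 ^ (k - 1) : ℕ) : ℝ) * ((count (fun m => (2 : ℝ) ^ k < w m) t : ℝ) + 1) ≤
          2 * (size t : ℝ) := by exact_mod_cast h
      have h2 : (2 : ℝ) ^ k ≤ 2 * ((2 ^ (k - 1) : ℕ) : ℝ) := by
        push_cast
        rcases Nat.eq_zero_or_pos k with rfl | hk
        · norm_num
        · obtain ⟨j, rfl⟩ : ∃ j, k = j + 1 := ⟨k - 1, by omega⟩
          rw [Nat.add_sub_cancel, pow_succ]
          linarith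
      have h3 : (0 : ℝ) ≤ (count (fun m => (2 : ℝ) ^ k < w m) t : ℝ) := Nat.cast_nonneg _
      have h4 : (2 : ℝ) ^ k * (count (fun m => (2 : ℝ) ^ k < w m) t : ℝ) ≤ 4 * size t := by
        nlinarith
      rw [one_div, inv_pow, ← div_eq_mul_inv, le_div_iff₀ hpos]
      linarith
  obtain ⟨K, hK⟩ := pow_unbounded_of_one_lt (size t : ℝ) (by norm_num : (1 : ℝ) < 2)
  have h1 := weight_le_two_pow w hw K t (by
    intro m hm hle
    have h2 := hw1 m hm
    have h3 : (m : ℝ) ≤ size t := by exact_mod_cast hle
    linarith)
  refine h1.trans ?_
  have h2 : ∑ k ∈ Finset.range K, count (fun m => (2 : ℝ) ^ k < w m) t ≤ 8 * size t := by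
    have h3 : ((∑ k ∈ Finset.range K, count (fun m => (2 : ℝ) ^ k < w m) t : ℕ) : ℝ) ≤
        8 * size t := by
      push_cast
      calc ∑ k ∈ Finset.range K, (count (fun m => (2 : ℝ) ^ k < w m) t : ℝ)
          ≤ ∑ k ∈ Finset.range K, (4 * size t : ℝ) * (1 / 2) ^ k :=
            Finset.sum_le_sum (fun k _ => hcount k)
        _ = (4 * size t : ℝ) * ∑ k ∈ Finset.range K, ((1 : ℝ) / 2) ^ k := by
            rw [Finset.mul_sum]
        _ ≤ (4 * size t : ℝ) * 2 := by
            apply mul_le_mul_of_nonneg_left _ (by positivity)
            exact sum_geometric_two_le K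
        _ = 8 * size t := by ring
    exact_mod_cast h3
  calc (2 : ℝ) ^ (∑ k ∈ Finset.range K, count (fun m => (2 : ℝ) ^ k < w m) t)
      ≤ 2 ^ (8 * size t) := pow_le_pow_right₀ (by norm_num) h2
    _ = 256 ^ size t := by rw [pow_mul]; norm_num

end BT

end Pool.Agent.Helper179.Siegel
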