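import Pool.Agent.Helper179.SiegelMap

open MeasureTheory Filter Topology
open scoped ENNReal NNReal

namespace Pool.Agent.Helper179.Siegel

open Pool.Agent.Helper179.KS Pool.Agent.Helper179.Eq

/-- Escape in both time directions for a map that doubles the larger coordinate. -/
lemma box_of_escape' (R : ℝ) (hR : 0 < R) (f : ℂ × ℂ → ℂ × ℂ) (g₁ g₂ : ℂ × ℂ → ℝ)
    (hg₁ : Continuous g₁)
    (hg₂ : Continuous g₂) (hnorm : ∀ z, ‖z‖ = max (g₁ z) (g₂ z))
    (hfw : ∀ z, R < g₁ z → g₂ z ≤ g₁ z → 2 * g₁ z ≤ g₁ (f z) ∧ g₂ (f z) ≤ g₁ (f z))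
    (hbw : ∀ z, R < g₂ (f z) → g₁ (f z) ≤ g₂ (f z) → 2 * g₂ (f z) ≤ g₂ z ∧ g₁ z ≤ g₂ z)
    (ν : Measure (ℂ × ℂ)) (hν : IsProbabilityMeasure ν) (hT : MeasurePreserving f ν ν) :
    ∀ᵐ z ∂ν, ‖z‖ ≤ R := by
  have hgrow : ∀ a : ℝ, ∃ n : ℕ, a ≤ R * 2 ^ n := by
    intro a
    obtain ⟨n, hn⟩ := pow_unbounded_of_one_lt (a / R) (by norm_num : (1 : ℝ) < 2)
    refine ⟨n, ?_⟩
    rw [div_lt_iff₀ hR] at hn
    linarith
  have key : ∀ (a b : ℂ × ℂ → ℝ), Continuous a → Continuous b →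
      (∀ n : ℕ, ν {z | R * 2 ^ n < a z ∧ b z ≤ a z} ≤ ν {z | R * 2 ^ (n + 1) < a z ∧ b z ≤ a z}) →
      ∀ᵐ z ∂ν, ¬ (R < a z ∧ b z ≤ a z) := by
    intro a b ha hb hle
    have h0 := measure_eq_zero_of_escape ν
      (fun n : ℕ => {z | R * 2 ^ n < a z ∧ b z ≤ a z})
      (fun n => (measurableSet_lt measurable_const ha.measurable).inter
        (measurableSet_le hb.measurable ha.measurable))
      (by
        intro m n hmn z hz
        refine ⟨lt_of_le_of_lt ?_ hz.1, hz.2⟩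
        have : (2 : ℝ) ^ m ≤ 2 ^ n := pow_le_pow_right₀ (by norm_num) hmn
        exact mul_le_mul_of_nonneg_left this hR.le)
      (by
        rw [Set.eq_empty_iff_forall_notMem]
        intro z hz
        rw [Set.mem_iInter] at hz
        obtain ⟨n, hn⟩ := hgrow (a z)
        exact absurd (hz n).1 (not_lt.2 hn))
      hle
    have h1 := measure_eq_zero_iff_ae_notMem.1 h0
    filter_upwards [h1] with z hz h
    apply hz
    refine ⟨?_, h.2⟩
    simpa using h.1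
  have hA := key g₁ g₂ hg₁ hg₂ (by
    intro n
    have hm : MeasurableSet {z : ℂ × ℂ | R * 2 ^ (n + 1) < g₁ z ∧ g₂ z ≤ g₁ z} :=
      (measurableSet_lt measurable_const hg₁.measurable).inter
        (measurableSet_le hg₂.measurable hg₁.measurable)
    rw [← hT.measure_preimage hm.nullMeasurableSet]
    apply measure_mono
    rintro z ⟨hz1, hz2⟩
    have h2 : (1 : ℝ) ≤ 2 ^ n := one_le_pow₀ (by norm_num)
    have h3 := hfw z (by nlinarith) hz2
    refine ⟨?_, h3.2⟩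
    rw [pow_succ]
    linarith [h3.1])
  have hB := key g₂ g₁ hg₂ hg₁ (by
    intro n
    have hm : MeasurableSet {z : ℂ × ℂ | R * 2 ^ n < g₂ z ∧ g₁ z ≤ g₂ z} :=
      (measurableSet_lt measurable_const hg₂.measurable).inter
        (measurableSet_le hg₁.measurable hg₂.measurable)
    rw [← hT.measure_preimage hm.nullMeasurableSet]
    apply measure_mono
    rintro z ⟨hz1, hz2⟩
    have h2 : (1 : ℝ) ≤ 2 ^ n := one_le_pow₀ (by norm_num)
    have h3 := hbw z (by nlinarith) hz2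
    refine ⟨?_, h3.2⟩
    rw [pow_succ]
    linarith [h3.1])
  filter_upwards [hA, hB] with z h1 h2
  rw [hnorm]
  by_contra hcon
  push Not at hcon
  rcases lt_max_iff.1 hcon with h | h
  · rcases le_total (g₂ z) (g₁ z) with h3 | h3
    · exact h1 ⟨h, h3⟩
    · exact h2 ⟨lt_of_lt_of_le h h3, h3⟩
  · rcases le_total (g₂ z) (g₁ z) with h3 | h3
    · exact h1 ⟨lt_of_lt_of_le h h3, h3⟩
    · exact h2 ⟨h, h3⟩

lemma norm_bb : ‖bb‖ ≤ 5 / 4 := by
  unfold bb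
  refine (norm_add_le _ _).trans ?_
  rw [norm_mul, norm_inv, norm_lam]
  norm_num

lemma mapS_box (ν : Measure (ℂ × ℂ)) (hν : IsProbabilityMeasure ν)
    (hT : MeasurePreserving mapS ν ν) : ∀ᵐ z ∂ν, ‖z‖ ≤ 4 := by
  have hb := norm_bb
  have key : ∀ x y : ℂ, ‖y‖ ^ 2 - (5 / 4) * ‖y‖ - (1 / 4) * ‖x‖ ≤
      ‖y ^ 2 + bb * y - (1 / 4) * x‖ := by
    intro x y
    have h1 : ‖y ^ 2 + bb * y‖ - ‖(1 / 4) * x‖ ≤ ‖y ^ 2 + bb * y - (1 / 4) * x‖ :=
      norm_sub_norm_le _ _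
    have h2 : ‖y ^ 2‖ - ‖bb * y‖ ≤ ‖y ^ 2 + bb * y‖ := by
      have := norm_sub_norm_le (y ^ 2) (-(bb * y))
      rwa [norm_neg, sub_neg_eq_add] at this
    have h3 : ‖(1 / 4) * x‖ = (1 / 4) * ‖x‖ := by rw [norm_mul]; norm_num
    have h4 : ‖bb * y‖ ≤ (5 / 4) * ‖y‖ := by
      rw [norm_mul]; exact mul_le_mul_of_nonneg_right hb (norm_nonneg _)
    rw [norm_pow] at h2
    linarith
  apply box_of_escape' 4 (by norm_num) mapS (fun z => ‖z.2‖) (fun z => ‖z.1‖) (by fun_prop)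
    (by fun_prop) (fun z => by rw [Prod.norm_def, max_comm]) _ _ ν hν hT
  · intro z h1 h2
    have h3 := key z.1 z.2
    simp only [mapS] at h1 h2 ⊢
    constructor <;> nlinarith
  · intro z h1 h2
    have h3 := key z.1 z.2
    simp only [mapS] at h1 h2 ⊢
    constructor <;> nlinarith

theorem mapS_entropy_bound : ∃ H : ℝ, 0 ≤ H ∧ ∀ ν : Measure (ℂ × ℂ), IsProbabilityMeasure ν →
    MeasurePreserving mapS ν ν → ksEntropy ν mapS ≤ (H : EReal) := by
  set K : Set (ℂ × ℂ) := {z | ∀ n : ℕ, ‖mapS^[n] z‖ ≤ 4} with hK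
  have hK0 : ∀ z ∈ K, ‖z‖ ≤ 4 := fun z hz => hz 0
  have hKinv : ∀ z ∈ K, mapS z ∈ K := by
    intro z hz n
    rw [← Function.iterate_succ_apply]
    exact hz (n + 1)
  obtain ⟨H, hH0, hH⟩ := exists_entropy_bound mapS K hKinv 8 10
    (by
      intro z hz w hw
      rw [dist_eq_norm]
      have h1 := norm_sub_le z w
      have h2 := hK0 z hz
      have h3 := hK0 w hw
      linarith)
    (by norm_num)
    (by
      intro z hz w hw
      have hz1 := (norm_snd_le z).trans (hK0 z hz)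
      have hw1 := (norm_snd_le w).trans (hK0 w hw)
      rw [dist_eq_norm, dist_eq_norm]
      have h1 : ‖z.1 - w.1‖ ≤ ‖z - w‖ := norm_fst_le (z - w)
      have h2 : ‖z.2 - w.2‖ ≤ ‖z - w‖ := norm_snd_le (z - w)
      rw [Prod.norm_def (mapS z - mapS w)]
      apply max_le
      · simp only [mapS, Prod.fst_sub]
        have := norm_nonneg (z - w)
        linarith
      · simp only [mapS, Prod.snd_sub]
        have h3 : z.2 ^ 2 + bb * z.2 - (1 / 4) * z.1 - (w.2 ^ 2 + bb * w.2 - (1 / 4) * w.1) =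
            (z.2 + w.2 + bb) * (z.2 - w.2) - (1 / 4) * (z.1 - w.1) := by ring
        rw [h3]
        have h4 : ‖(z.2 + w.2 + bb) * (z.2 - w.2) - (1 / 4) * (z.1 - w.1)‖ ≤
            ‖(z.2 + w.2 + bb) * (z.2 - w.2)‖ + ‖(1 / 4) * (z.1 - w.1)‖ := norm_sub_le _ _
        have h5 : ‖(1 / 4) * (z.1 - w.1)‖ = (1 / 4) * ‖z.1 - w.1‖ := by rw [norm_mul]; norm_num
        have h6 : ‖z.2 + w.2 + bb‖ ≤ 4 + 4 + 5 / 4 := by
          refine (norm_add_le _ _).trans (add_le_add ((norm_add_le _ _).trans ?_) norm_bb)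
          exact add_le_add hz1 hw1
        have h7 : ‖(z.2 + w.2 + bb) * (z.2 - w.2)‖ ≤ (4 + 4 + 5 / 4) * ‖z - w‖ := by
          rw [norm_mul]
          exact mul_le_mul h6 h2 (norm_nonneg _) (by norm_num)
        have := norm_nonneg (z - w)
        linarith)
  refine ⟨H, hH0, ?_⟩
  intro ν hν hT
  apply hH ν hν hT
  have h1 : ∀ n : ℕ, ∀ᵐ z ∂ν, ‖mapS^[n] z‖ ≤ 4 := by
    intro n
    exact (hT.iterate n).quasiMeasurePreserving.ae (mapS_box ν hν hT)
  exact ae_all_iff.2 h1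

end Pool.Agent.Helper179.Siegel
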