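import Pool.Agent.Helper179.SiegelBox

open MeasureTheory Filter Topology
open scoped ENNReal NNReal

namespace Pool.Agent.Helper179.Siegel

open Pool.Agent.Helper179.KS Pool.Agent.Helper179.Eq

/-- The character `t ↦ exp(2 π i t)`. -/
noncomputable def ee (t : UnitAddCircle) : ℂ := (AddCircle.toCircle t : ℂ)

/-- The rotation angle. -/
noncomputable def al : UnitAddCircle := ((Real.sqrt 2 : ℝ) : UnitAddCircle)

/-- Normalised Haar measure. -/
noncomputable def haarT : Measure UnitAddCircle := AddCircle.haarAddCircle

instance : IsProbabilityMeasure haarT := by unfold haarT; infer_instance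
instance : haarT.IsAddHaarMeasure := by unfold haarT; infer_instance

lemma ee_add (s t : UnitAddCircle) : ee (s + t) = ee s * ee t := by
  unfold ee
  rw [AddCircle.toCircle_add, Circle.coe_mul]

lemma norm_ee (t : UnitAddCircle) : ‖ee t‖ = 1 := by
  unfold ee
  exact Circle.norm_coe _

lemma continuous_ee : Continuous ee := by
  unfold ee
  exact (by fun_prop : Continuous (fun z : Circle => (z : ℂ))).comp AddCircle.continuous_toCircle

lemma ee_al : ee al = lam := by
  unfold ee al lam
  rw [AddCircle.toCircle_apply_mk, Circle.coe_exp]
  congr 1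
  push_cast
  ring

lemma ee_nsmul (n : ℕ) (t : UnitAddCircle) : ee (n • t) = ee t ^ n := by
  unfold ee
  rw [AddCircle.toCircle_nsmul, Circle.coe_pow]

lemma ee_injective : Function.Injective ee := by
  intro s t h
  unfold ee at h
  exact AddCircle.injective_toCircle one_ne_zero (Circle.ext h)

/-- The embedding of the circle onto the invariant curve. -/
noncomputable def io (t : UnitAddCircle) : ℂ × ℂ := psi ((r0 / 2 : ℝ) * ee t)

lemma norm_io_arg (t : UnitAddCircle) : ‖((r0 / 2 : ℝ) : ℂ) * ee t‖ = r0 / 2 := by
  have := r0_pos
  rw [norm_mul, norm_ee, mul_one, Complex.norm_real, Real.norm_eq_abs, abs_of_pos (by positivity)]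

lemma io_arg_le (t : UnitAddCircle) : ‖((r0 / 2 : ℝ) : ℂ) * ee t‖ ≤ r0 := by
  rw [norm_io_arg]; have := r0_pos; linarith

lemma mapS_io (t : UnitAddCircle) : mapS (io t) = io (t + al) := by
  unfold io
  rw [mapS_psi (io_arg_le t), ee_add, ee_al]
  congr 1
  ring

lemma dist_io_le (s t : UnitAddCircle) : dist (io s) (io t) ≤ ‖ee s - ee t‖ := by
  have h := psi_lip (io_arg_le s) (io_arg_le t)
  have hr := r0_pos
  rw [← mul_sub, norm_mul, Complex.norm_real, Real.norm_eq_abs, abs_of_pos (by positivity)] at h
  refine h.trans ?_
  have h1 : (11 / 10) * (r0 / 2) ≤ 1 := by unfold r0; norm_num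
  have := norm_nonneg (ee s - ee t)
  nlinarith

lemma dist_io_ge (s t : UnitAddCircle) : (9 / 20) * r0 * ‖ee s - ee t‖ ≤ dist (io s) (io t) := by
  have h := psi_lower (io_arg_le s) (io_arg_le t)
  have hr := r0_pos
  rw [← mul_sub, norm_mul, Complex.norm_real, Real.norm_eq_abs, abs_of_pos (by positivity)] at h
  refine le_trans (le_of_eq ?_) h
  ring

lemma continuous_io : Continuous io := by
  rw [continuous_iff_continuousAt]
  intro t
  rw [ContinuousAt, tendsto_iff_dist_tendsto_zero]
  apply squeeze_zero (fun s => dist_nonneg) (fun s => dist_io_le s t)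
  have : Tendsto (fun s => ‖ee s - ee t‖) (𝓝 t) (𝓝 ‖ee t - ee t‖) :=
    ((continuous_ee.sub continuous_const).norm).tendsto t
  simpa using this

lemma io_injective : Function.Injective io := by
  intro s t h
  have h1 := dist_io_ge s t
  rw [h, dist_self] at h1
  have hr := r0_pos
  have h2 : ‖ee s - ee t‖ = 0 := by
    apply le_antisymm _ (norm_nonneg _)
    by_contra hcon
    push Not at hcon
    have : 0 < (9 / 20) * r0 * ‖ee s - ee t‖ := by positivity
    linarith
  exact ee_injective (sub_eq_zero.1 (norm_eq_zero.1 h2))

lemma io_closedEmbedding : Topology.IsClosedEmbedding io :=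
  continuous_io.isClosedEmbedding io_injective

lemma io_measurableEmbedding : MeasurableEmbedding io := io_closedEmbedding.measurableEmbedding

/-- Unique ergodicity of the irrational rotation. -/
theorem unique_ergodic (ν : Measure UnitAddCircle) [IsProbabilityMeasure ν]
    (h : MeasurePreserving (fun t => t + al) ν ν) : ν = haarT := by
  apply ext_of_forall_integral_eq_of_IsFiniteMeasure
  intro F
  set g : UnitAddCircle → ℝ := fun s => ∫ t, F (t + s) ∂ν with hg
  have hcont : Continuous g := by
    apply continuous_of_dominated (bound := fun _ => ‖F‖)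
    · intro s
      exact (F.continuous.comp (continuous_id.add continuous_const)).aestronglyMeasurable
    · intro s
      exact Filter.Eventually.of_forall (fun t => F.norm_coe_le_norm _)
    · exact integrable_const _
    · exact Filter.Eventually.of_forall (fun t =>
        F.continuous.comp (continuous_const.add continuous_id))
  have hper : Function.Periodic g al := by
    intro s
    simp only [hg]
    have h1 : ∫ t, F (t + s) ∂(ν.map (fun t => t + al)) = ∫ t, F ((t + al) + s) ∂ν := by
      apply integral_map h.measurable.aemeasurable
      exact (F.continuous.comp (continuous_id.add continuous_const)).aestronglyMeasurable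
    rw [h.map_eq] at h1
    rw [h1]
    congr 1
    ext t
    congr 1
    abel
  have hdense : DenseRange (fun n : ℤ => n • al) := by
    unfold al
    rw [AddCircle.denseRange_zsmul_coe_iff, div_one]
    exact irrational_sqrt_two
  have hconst : g = fun _ => g 0 := by
    apply hdense.equalizer hcont continuous_const
    ext n
    have := (hper.zsmul n) 0
    simpa using this
  have hint : ∫ s, g s ∂haarT = g 0 := by
    rw [hconst]
    simp
  have hswap : ∫ s, g s ∂haarT = ∫ x, F x ∂haarT := by
    simp only [hg]
    rw [integral_integral_swap]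
    · have h2 : ∀ t, ∫ s, F (t + s) ∂haarT = ∫ x, F x ∂haarT := fun t =>
        integral_add_left_eq_self (fun x => F x) t
      simp only [h2]
      simp
    · have hc : Continuous (Function.uncurry fun s t : UnitAddCircle => F (t + s)) :=
        F.continuous.comp (continuous_snd.add continuous_fst)
      apply Integrable.of_bound hc.aestronglyMeasurable ‖F‖
      exact Filter.Eventually.of_forall (fun p => F.norm_coe_le_norm _)
  have hg0 : g 0 = ∫ x, F x ∂ν := by
    simp only [hg, add_zero]
  rw [← hg0, ← hint, hswap]

/-- The invariant measure on the curve. -/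
noncomputable def muT : Measure (ℂ × ℂ) := haarT.map io

lemma muT_inv : IsInvariantProb mapS muT := by
  refine ⟨Measure.isProbabilityMeasure_map continuous_io.aemeasurable,
    continuous_mapS.measurable, ?_⟩
  unfold muT
  rw [Measure.map_map continuous_mapS.measurable continuous_io.measurable]
  have h1 : mapS ∘ io = io ∘ (fun t => t + al) := by
    ext t : 1
    exact mapS_io t
  rw [h1, ← Measure.map_map continuous_io.measurable (by fun_prop)]
  have h2 : haarT.map (fun t => t + al) = haarT := map_add_right_eq_self haarT al
  rw [h2]

/-- The only invariant probability measure on the invariant curve. -/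
theorem eq_muT (ν : Measure (ℂ × ℂ)) (hν : IsInvariantProb mapS ν)
    (hT : ∀ᵐ p ∂ν, p ∈ Set.range io) : ν = muT := by
  have hp := hν.1
  have he := io_measurableEmbedding
  set ν' : Measure UnitAddCircle := ν.comap io with hν'
  have hmap : ν'.map io = ν := by
    rw [hν', he.map_comap, Measure.restrict_eq_self_of_ae_mem hT]
  have hprob : IsProbabilityMeasure ν' := by
    constructor
    have : ν'.map io Set.univ = 1 := by rw [hmap]; exact measure_univ
    rwa [Measure.map_apply continuous_io.measurable MeasurableSet.univ, Set.preimage_univ] at this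
  have hinv : MeasurePreserving (fun t => t + al) ν' ν' := by
    refine ⟨by fun_prop, ?_⟩
    ext B hB
    rw [Measure.map_apply (by fun_prop) hB]
    have hB' : MeasurableSet ((fun t => t + al) ⁻¹' B) := (by fun_prop : Measurable
      (fun t : UnitAddCircle => t + al)) hB
    rw [hν', he.comap_apply, he.comap_apply]
    have h1 : mapS ⁻¹' (io '' B) = io '' ((fun t => t + al) ⁻¹' B) := by
      ext p
      constructor
      · rintro ⟨t, ht, htp⟩
        refine ⟨t - al, by simpa using ht, ?_⟩
        apply mapS_injective
        rw [mapS_io, sub_add_cancel]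
        exact htp
      · rintro ⟨t, ht, rfl⟩
        exact ⟨t + al, ht, (mapS_io t).symm⟩
    rw [← h1, hν.2.measure_preimage (he.measurableSet_image.2 hB).nullMeasurableSet]
  rw [← hmap, unique_ergodic ν' hinv]
  rfl

end Pool.Agent.Helper179.Siegel
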