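import Pool.Agent.Helper179.Siegel

open Filter Topology

namespace Pool.Agent.Helper179.Siegel

/-- The rotation number factor `λ = exp(2 π i √2)`. -/
noncomputable def lam : ℂ := Complex.exp (Complex.I * ((2 * Real.pi * Real.sqrt 2 : ℝ) : ℂ))

lemma norm_lam : ‖lam‖ = 1 := by
  unfold lam
  rw [mul_comm]
  exact Complex.norm_exp_ofReal_mul_I _

lemma lam_ne_zero : lam ≠ 0 := by
  intro h
  have := norm_lam
  rw [h] at this
  simp at this

lemma norm_lam_pow (n : ℕ) : ‖lam ^ n‖ = 1 := by rw [norm_pow, norm_lam, one_pow]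

/-- `√2` is badly approximable. -/
lemma sqrt_two_approx (j : ℕ) (hj : 1 ≤ j) (p : ℤ) : 1 / (4 * (j : ℝ)) ≤ |j * Real.sqrt 2 - p| := by
  have hj' : (1 : ℝ) ≤ j := by exact_mod_cast hj
  have hs : Real.sqrt 2 ^ 2 = 2 := Real.sq_sqrt (by norm_num)
  have hs1 : 1 ≤ Real.sqrt 2 := by
    rw [show (1 : ℝ) = Real.sqrt 1 by simp]
    exact Real.sqrt_le_sqrt (by norm_num)
  have hs2 : Real.sqrt 2 ≤ 3 / 2 := by
    rw [show (3 / 2 : ℝ) = Real.sqrt ((3 / 2) ^ 2) by rw [Real.sqrt_sq (by norm_num)]]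
    exact Real.sqrt_le_sqrt (by norm_num)
  by_contra hcon
  push Not at hcon
  have h1 : 1 / (4 * (j : ℝ)) ≤ 1 / 4 := by
    rw [div_le_div_iff₀ (by positivity) (by norm_num)]
    linarith
  have h2 : |j * Real.sqrt 2 - p| < 1 / 4 := lt_of_lt_of_le hcon h1
  rw [abs_lt] at h2
  have hprod : |(j : ℝ) * Real.sqrt 2 - p| * |(j : ℝ) * Real.sqrt 2 + p| = |2 * (j : ℝ) ^ 2 - p ^ 2| := by
    rw [← abs_mul]
    congr 1
    nlinarith
  have hint : (1 : ℝ) ≤ |2 * (j : ℝ) ^ 2 - p ^ 2| := by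
    have hne : 2 * (j : ℤ) ^ 2 - p ^ 2 ≠ 0 := by
      intro h
      have hirr := irrational_sqrt_two
      have h3 : ((p : ℝ) / j) ^ 2 = 2 := by
        have : (2 * (j : ℝ) ^ 2 - (p : ℝ) ^ 2) = 0 := by exact_mod_cast h
        rw [div_pow, div_eq_iff (by positivity)]
        linarith
      have h4 : Real.sqrt 2 = |(p : ℝ) / j| := by
        rw [← h3, Real.sqrt_sq_eq_abs]
      apply hirr
      refine ⟨|(p : ℚ) / j|, ?_⟩
      rw [h4]
      push_cast
      rfl
    have h5 : (1 : ℤ) ≤ |2 * (j : ℤ) ^ 2 - p ^ 2| := Int.one_le_abs hne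
    have h6 : ((1 : ℤ) : ℝ) ≤ ((|2 * (j : ℤ) ^ 2 - p ^ 2| : ℤ) : ℝ) := by exact_mod_cast h5
    push_cast at h6
    exact h6
  rw [← hprod] at hint
  have h7 : |(j : ℝ) * Real.sqrt 2 + p| ≤ 4 * j := by
    rw [abs_le]
    constructor
    · nlinarith
    · nlinarith
  have h8 : |(j : ℝ) * Real.sqrt 2 - p| * |(j : ℝ) * Real.sqrt 2 + p| <
      1 / (4 * (j : ℝ)) * (4 * j) := by
    have h9 : 0 < |(j : ℝ) * Real.sqrt 2 + p| := by
      by_contra h
      have : |(j : ℝ) * Real.sqrt 2 + p| = 0 := le_antisymm (not_lt.1 h) (abs_nonneg _)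
      rw [this] at hint
      linarith
    calc |(j : ℝ) * Real.sqrt 2 - p| * |(j : ℝ) * Real.sqrt 2 + p|
        < 1 / (4 * (j : ℝ)) * |(j : ℝ) * Real.sqrt 2 + p| := by
          exact mul_lt_mul_of_pos_right hcon h9
      _ ≤ 1 / (4 * (j : ℝ)) * (4 * j) := by
          apply mul_le_mul_of_nonneg_left h7 (by positivity)
  have h10 : 1 / (4 * (j : ℝ)) * (4 * j) = 1 := by field_simp
  linarith

lemma lam_pow (j : ℕ) :
    lam ^ j = Complex.exp (Complex.I * ((2 * Real.pi * (j * Real.sqrt 2) : ℝ) : ℂ)) := by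
  unfold lam
  rw [← Complex.exp_nat_mul]
  congr 1
  push_cast
  ring

lemma exp_int_shift (θ : ℝ) (p : ℤ) :
    Complex.exp (Complex.I * ((2 * Real.pi * θ : ℝ) : ℂ)) =
      Complex.exp (Complex.I * ((2 * Real.pi * (θ - p) : ℝ) : ℂ)) := by
  rw [show Complex.I * ((2 * Real.pi * θ : ℝ) : ℂ) =
    Complex.I * ((2 * Real.pi * (θ - p) : ℝ) : ℂ) + p * (2 * Real.pi * Complex.I) by
      push_cast; ring]
  rw [Complex.exp_add, Complex.exp_int_mul_two_pi_mul_I, mul_one]

lemma norm_exp_sub_one_ge {t : ℝ} (ht : |t| ≤ 1 / 2) :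
    4 * |t| ≤ ‖Complex.exp (Complex.I * ((2 * Real.pi * t : ℝ) : ℂ)) - 1‖ := by
  rw [Complex.norm_exp_I_mul_ofReal_sub_one]
  have h1 : 2 * Real.pi * t / 2 = Real.pi * t := by ring
  rw [h1, norm_mul]
  have h2 : 2 / Real.pi * (Real.pi * |t|) ≤ Real.sin (Real.pi * |t|) := by
    apply Real.mul_le_sin
    · positivity
    · have := Real.pi_pos
      nlinarith
  have h3 : 2 / Real.pi * (Real.pi * |t|) = 2 * |t| := by
    have := Real.pi_ne_zero
    field_simp
  have h4 : Real.sin (Real.pi * |t|) ≤ |Real.sin (Real.pi * t)| := by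
    rcases abs_cases t with ⟨h, _⟩ | ⟨h, _⟩
    · rw [h]; exact le_abs_self _
    · rw [h, mul_neg, Real.sin_neg]; exact neg_le_abs _
  have h5 : ‖(2 : ℝ)‖ = 2 := by norm_num
  rw [h5, Real.norm_eq_abs]
  linarith

/-- Diophantine condition for `λ`. -/
theorem lam_pow_sub_one (j : ℕ) (hj : 1 ≤ j) : 1 / (j : ℝ) ≤ ‖lam ^ j - 1‖ := by
  rw [lam_pow, exp_int_shift _ (round ((j : ℝ) * Real.sqrt 2))]
  have h1 := norm_exp_sub_one_ge (abs_sub_round ((j : ℝ) * Real.sqrt 2))
  have h2 := sqrt_two_approx j hj (round ((j : ℝ) * Real.sqrt 2))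
  have h3 : 1 / (j : ℝ) = 4 * (1 / (4 * (j : ℝ))) := by
    have : (j : ℝ) ≠ 0 := by
      have : 0 < j := hj
      positivity
    field_simp
  rw [h3]
  linarith

lemma lam_pow_ne_one (j : ℕ) (hj : 1 ≤ j) : lam ^ j ≠ 1 := by
  intro h
  have := lam_pow_sub_one j hj
  rw [h, sub_self, norm_zero] at this
  have hj' : (0 : ℝ) < j := by exact_mod_cast hj
  have : 0 < 1 / (j : ℝ) := by positivity
  linarith

/-- The weights `1 / |λ^{m-1} - 1|`. -/
noncomputable def wt (m : ℕ) : ℝ := 1 / ‖lam ^ (m - 1) - 1‖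

lemma wt_pos (m : ℕ) (hm : 2 ≤ m) : 0 < wt m := by
  unfold wt
  have h1 : lam ^ (m - 1) - 1 ≠ 0 := sub_ne_zero.2 (lam_pow_ne_one _ (by omega))
  have := norm_pos_iff.2 h1
  positivity

lemma wt_le (m : ℕ) (hm : 2 ≤ m) : wt m ≤ m - 1 := by
  have h1 := lam_pow_sub_one (m - 1) (by omega)
  have h2 : ((m - 1 : ℕ) : ℝ) = m - 1 := by
    rw [Nat.cast_sub (by omega)]; simp
  rw [h2] at h1
  have h3 : (0 : ℝ) < m - 1 := by
    have : (2 : ℝ) ≤ m := by exact_mod_cast hm
    linarith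
  unfold wt
  rw [div_le_iff₀ (lt_of_lt_of_le (by positivity) h1)]
  rw [div_le_iff₀ h3] at h1
  linarith

lemma wt_sep (m m' : ℕ) (hm' : 2 ≤ m') (hlt : m' < m) (θ : ℝ) (_ : 0 < θ) (h1 : θ < wt m)
    (h2 : θ < wt m') : θ / 2 < (m : ℝ) - m' := by
  unfold wt at h1 h2
  have p1 : 0 < ‖lam ^ (m - 1) - 1‖ :=
    norm_pos_iff.2 (sub_ne_zero.2 (lam_pow_ne_one _ (by omega)))
  have p2 : 0 < ‖lam ^ (m' - 1) - 1‖ :=
    norm_pos_iff.2 (sub_ne_zero.2 (lam_pow_ne_one _ (by omega)))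
  rw [lt_div_iff₀ p1] at h1
  rw [lt_div_iff₀ p2] at h2
  have h3 := lam_pow_sub_one (m - m') (by omega)
  have h4 : lam ^ (m - 1) - lam ^ (m' - 1) = lam ^ (m' - 1) * (lam ^ (m - m') - 1) := by
    rw [mul_sub, ← pow_add, mul_one]
    congr 2
    omega
  have h5 : ‖lam ^ (m - m') - 1‖ ≤ ‖lam ^ (m - 1) - 1‖ + ‖lam ^ (m' - 1) - 1‖ := by
    calc ‖lam ^ (m - m') - 1‖ = ‖lam ^ (m' - 1) * (lam ^ (m - m') - 1)‖ := by
          rw [norm_mul, norm_lam_pow, one_mul]
      _ = ‖(lam ^ (m - 1) - 1) - (lam ^ (m' - 1) - 1)‖ := by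
          rw [← h4]; congr 1; ring
      _ ≤ _ := norm_sub_le _ _
  have h6 : ((m - m' : ℕ) : ℝ) = (m : ℝ) - m' := by
    rw [Nat.cast_sub hlt.le]
  rw [h6] at h3
  have h7 : (0 : ℝ) < (m : ℝ) - m' := by
    have : (m' : ℝ) < m := by exact_mod_cast hlt
    linarith
  rw [div_le_iff₀ h7] at h3
  nlinarith

theorem weight_wt_bound (t : BT) : BT.weight wt t ≤ 256 ^ BT.size t :=
  BT.weight_bound wt wt_pos wt_le wt_sep t

/-! ### The coefficients of the linearising series -/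

/-- The parameter `b = λ + 1/(4λ)`, the trace at the origin. -/
noncomputable def bb : ℂ := lam + (1 / 4) * lam⁻¹

/-- The divisor `λ^n + λ^{-n}/4 - b`. -/
noncomputable def dv (n : ℕ) : ℂ := lam ^ n + (1 / 4) * (lam⁻¹) ^ n - bb

lemma dv_eq (n : ℕ) : dv (n + 1) = lam * (lam ^ n - 1) * (1 - (1 / 4) * (lam⁻¹) ^ (n + 2)) := by
  unfold dv bb
  have hm : lam * lam⁻¹ = 1 := mul_inv_cancel₀ lam_ne_zero
  have hn : lam ^ n * (lam⁻¹) ^ n = 1 := by rw [← mul_pow, hm, one_pow]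
  generalize lam⁻¹ = μ at *
  linear_combination ((1 / 4) * μ * lam ^ n * μ ^ n - (1 / 4) * μ * μ ^ n) * hm + (1 / 4) * μ * hn

lemma norm_dv_ge (n : ℕ) : (3 / 4) * ‖lam ^ n - 1‖ ≤ ‖dv (n + 1)‖ := by
  rw [dv_eq, norm_mul, norm_mul, norm_lam, one_mul]
  have h1 : ‖(1 / 4 : ℂ) * (lam⁻¹) ^ (n + 2)‖ = 1 / 4 := by
    rw [norm_mul, norm_pow, norm_inv, norm_lam]
    norm_num
  have h2 : 1 - ‖(1 / 4 : ℂ) * (lam⁻¹) ^ (n + 2)‖ ≤ ‖1 - (1 / 4 : ℂ) * (lam⁻¹) ^ (n + 2)‖ := by
    have := norm_sub_norm_le (1 : ℂ) ((1 / 4 : ℂ) * (lam⁻¹) ^ (n + 2))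
    simpa using this
  rw [h1] at h2
  have := norm_nonneg (lam ^ n - 1)
  nlinarith

lemma dv_ne_zero (n : ℕ) (hn : 1 ≤ n) : dv (n + 1) ≠ 0 := by
  have h1 := norm_dv_ge n
  have h2 : 0 < ‖lam ^ n - 1‖ := norm_pos_iff.2 (sub_ne_zero.2 (lam_pow_ne_one n hn))
  intro h
  rw [h, norm_zero] at h1
  linarith

/-- The coefficients `c_n` of the linearising series. -/
noncomputable def coef : ℕ → ℂ
  | 0 => 0
  | 1 => 1
  | n + 2 => (∑ j : Fin (n + 1), coef (j + 1) * coef (n + 1 - j)) / dv (n + 2)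
decreasing_by
  · have := j.isLt; omega
  · have := j.isLt; omega

lemma coef_zero : coef 0 = 0 := by rw [coef]
lemma coef_one : coef 1 = 1 := by rw [coef]
lemma coef_succ_succ (n : ℕ) :
    coef (n + 2) = (∑ j : Fin (n + 1), coef (j + 1) * coef (n + 1 - j)) / dv (n + 2) := by
  rw [coef]

lemma catalan_le (n : ℕ) : catalan n ≤ 4 ^ n := by
  rw [catalan_eq_centralBinom_div]
  refine (Nat.div_le_self _ _).trans ?_
  rw [Nat.centralBinom_eq_two_mul_choose]
  refine (Nat.choose_le_two_pow _ _).trans ?_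
  rw [pow_mul]
  norm_num

theorem coef_tree (n : ℕ) : ∃ t : BT, BT.size t = n + 1 ∧
    ‖coef (n + 1)‖ ≤ (4 / 3) ^ n * catalan n * BT.weight wt t := by
  induction n using Nat.strong_induction_on with
  | _ n ih =>
    cases n with
    | zero => exact ⟨BT.leaf, rfl, by simp [coef_one, BT.weight]⟩
    | succ n =>
      have hT : ∀ j : Fin (n + 1), ∃ t : BT, BT.size t = j + 1 ∧
          ‖coef (j + 1)‖ ≤ (4 / 3) ^ (j : ℕ) * catalan j * BT.weight wt t := fun j =>
        ih j j.isLt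
      have hT' : ∀ j : Fin (n + 1), ∃ t : BT, BT.size t = n + 1 - j ∧
          ‖coef (n + 1 - j)‖ ≤ (4 / 3) ^ (n - j : ℕ) * catalan (n - j) * BT.weight wt t := by
        intro j
        obtain ⟨t, h1, h2⟩ := ih (n - j) (by omega)
        have h3 : n - (j : ℕ) + 1 = n + 1 - j := by have := j.isLt; omega
        rw [h3] at h1 h2
        exact ⟨t, h1, h2⟩
      choose T hT1 hT2 using hT
      choose T' hT1' hT2' using hT'
      obtain ⟨j₀, hj₀⟩ := Finite.exists_max
        (fun j : Fin (n + 1) => BT.weight wt (T j) * BT.weight wt (T' j))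
      have hlt := j₀.isLt
      refine ⟨BT.node (T j₀) (T' j₀), ?_, ?_⟩
      · simp only [BT.size, hT1, hT1']
        omega
      · have hsize : BT.size (T j₀) + BT.size (T' j₀) = n + 2 := by
          rw [hT1, hT1']; omega
        simp only [BT.weight, hsize]
        rw [show n + 1 + 1 = n + 2 from rfl, coef_succ_succ, norm_div]
        have hd := norm_dv_ge (n + 1)
        have hx : 0 < ‖lam ^ (n + 1) - 1‖ :=
          norm_pos_iff.2 (sub_ne_zero.2 (lam_pow_ne_one _ (by omega)))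
        have hdpos : 0 < ‖dv (n + 2)‖ := by
          have : (0 : ℝ) < (3 / 4) * ‖lam ^ (n + 1) - 1‖ := by positivity
          exact lt_of_lt_of_le this hd
        rw [div_le_iff₀ hdpos]
        have hwt : wt (n + 2) = 1 / ‖lam ^ (n + 1) - 1‖ := rfl
        set M : ℝ := BT.weight wt (T j₀) * BT.weight wt (T' j₀) with hM
        have hMpos : 0 < M := mul_pos (BT.weight_pos wt wt_pos _) (BT.weight_pos wt wt_pos _)
        have hsum : ‖∑ j : Fin (n + 1), coef (j + 1) * coef (n + 1 - j)‖ ≤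
            (4 / 3) ^ n * catalan (n + 1) * M := by
          refine (norm_sum_le _ _).trans ?_
          rw [catalan_succ]
          push_cast
          rw [Finset.mul_sum, Finset.sum_mul]
          apply Finset.sum_le_sum
          intro j _
          have hj := j.isLt
          rw [norm_mul]
          have h1 := hT2 j
          have h2 := hT2' j
          have h3 := hj₀ j
          have w1 := BT.weight_pos wt wt_pos (T j)
          have w2 := BT.weight_pos wt wt_pos (T' j)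
          calc ‖coef (j + 1)‖ * ‖coef (n + 1 - j)‖
              ≤ ((4 / 3) ^ (j : ℕ) * catalan j * BT.weight wt (T j)) *
                ((4 / 3) ^ (n - j : ℕ) * catalan (n - j) * BT.weight wt (T' j)) := by
                apply mul_le_mul h1 h2 (norm_nonneg _)
                positivity
            _ = ((4 / 3) ^ (j : ℕ) * (4 / 3) ^ (n - j : ℕ)) * (catalan j * catalan (n - j)) *
                (BT.weight wt (T j) * BT.weight wt (T' j)) := by ring
            _ ≤ ((4 / 3) ^ (j : ℕ) * (4 / 3) ^ (n - j : ℕ)) * (catalan j * catalan (n - j)) * M := by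
                apply mul_le_mul_of_nonneg_left h3
                positivity
            _ = (4 / 3) ^ n * (catalan j * catalan (n - j)) * M := by
                rw [← pow_add]
                congr 3
                omega
        refine hsum.trans ?_
        have h5 : (4 / 3 : ℝ) ^ n * catalan (n + 1) * M =
            ((4 / 3) ^ (n + 1) * catalan (n + 1) * (M * wt (n + 2))) *
              ((3 / 4) * ‖lam ^ (n + 1) - 1‖) := by
          rw [hwt, pow_succ]
          field_simp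
        rw [h5]
        apply mul_le_mul_of_nonneg_left hd
        have := (wt_pos (n + 2) (by omega)).le
        positivity

/-- Geometric bound for the coefficients: Siegel's theorem. -/
theorem norm_coef_le (n : ℕ) : ‖coef n‖ ≤ 2048 ^ n := by
  cases n with
  | zero => simp [coef_zero]
  | succ n =>
    obtain ⟨t, hs, ht⟩ := coef_tree n
    have h1 := weight_wt_bound t
    rw [hs] at h1
    have h2 : (catalan n : ℝ) ≤ 4 ^ n := by exact_mod_cast catalan_le n
    have h3 := (BT.weight_pos wt wt_pos t).le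
    calc ‖coef (n + 1)‖ ≤ (4 / 3) ^ n * catalan n * BT.weight wt t := ht
      _ ≤ (4 / 3) ^ n * 4 ^ n * 256 ^ (n + 1) := by gcongr
      _ = (16 / 3) ^ n * 256 ^ (n + 1) := by rw [← mul_pow]; norm_num
      _ ≤ 8 ^ n * 256 ^ (n + 1) := by gcongr; norm_num
      _ ≤ 8 ^ (n + 1) * 256 ^ (n + 1) := by
          gcongr
          · norm_num
          · omega
      _ = 2048 ^ (n + 1) := by rw [← mul_pow]; norm_num

end Pool.Agent.Helper179.Siegel
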