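import Pool.Agent.Helper179.Lacunary2

open MeasureTheory Filter Topology
open scoped ENNReal NNReal

namespace Pool.Agent.Helper179.Siegel

open Pool.Agent.Helper179.KS Pool.Agent.Helper179.Eq

lemma mapS_iterate_io (n : ℕ) (t : UnitAddCircle) : mapS^[n] (io t) = io (t + n • al) := by
  induction n with
  | zero => simp
  | succ n ih =>
    rw [Function.iterate_succ_apply', ih, mapS_io, succ_nsmul, add_assoc]

lemma isHolder_continuous {g : ℂ × ℂ → ℝ} (hg : IsHolder g) : Continuous g := by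
  obtain ⟨α, C, hα, _, h⟩ := hg
  rw [continuous_iff_continuousAt]
  intro w
  rw [ContinuousAt, tendsto_iff_dist_tendsto_zero]
  have h1 : Tendsto (fun z : ℂ × ℂ =>
      C * (Real.sqrt (‖z.1 - w.1‖ ^ 2 + ‖z.2 - w.2‖ ^ 2)) ^ α) (𝓝 w) (𝓝 0) := by
    have h2 : Continuous (fun z : ℂ × ℂ => Real.sqrt (‖z.1 - w.1‖ ^ 2 + ‖z.2 - w.2‖ ^ 2)) := by
      fun_prop
    have h3 := ((h2.tendsto w).rpow_const (p := α) (Or.inr hα.le)).const_mul C
    simp only [sub_self, norm_zero] at h3
    rw [show ((0 : ℝ) ^ 2 + 0 ^ 2) = 0 by norm_num, Real.sqrt_zero, Real.zero_rpow hα.ne',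
      mul_zero] at h3
    exact h3
  refine squeeze_zero (fun s => dist_nonneg) (fun z => ?_) h1
  rw [Real.dist_eq]
  exact h z w

/-- Birkhoff sums `g + g∘f + ... + g∘f^{n-1}`. -/
noncomputable def bsum (f : ℂ × ℂ → ℂ × ℂ) (g : ℂ × ℂ → ℝ) (n : ℕ) (x : ℂ × ℂ) : ℝ :=
  ∑ j ∈ Finset.range n, g (f^[j] x)

/-- Summary: the map `mapS` has a Hölder weight with exactly one equilibrium state `muT` and a
Hölder observable of mean zero whose Birkhoff sums are uniformly `o(n)` on the curve but escape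
at scale `√n` along a sequence of times. -/
theorem siegel_summary : ∃ (M : ℝ) (g : ℂ × ℂ → ℝ) (n : ℕ → ℕ),
    IsEquilibriumState mapS (wgt M) muT ∧
    (∀ ν, IsEquilibriumState mapS (wgt M) ν → ν = muT) ∧
    IsHolder g ∧ ∫ x, g x ∂muT = 0 ∧ Tendsto n atTop atTop ∧
    (∀ K : ℝ, Tendsto (fun J => muT {x | |bsum mapS g (n J) x| ≤ K * Real.sqrt (n J)})
      atTop (𝓝 0)) ∧
    (∀ ε > 0, ∀ᶠ m : ℕ in atTop, muT {x | ε < bsum mapS g m x / m} = 0) := by
  obtain ⟨M, h1, h2⟩ := siegel_equilibrium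
  obtain ⟨L⟩ := exists_lacData
  obtain ⟨g, hg, hgG⟩ := L.exists_extension
  have hS : ∀ m t, bsum mapS g m (io t) = L.S m t := by
    intro m t
    unfold bsum LacData.S
    apply Finset.sum_congr rfl
    intro j _
    rw [mapS_iterate_io, hgG]
  have hmu : ∀ A : Set (ℂ × ℂ), muT A = haarT (io ⁻¹' A) := fun A =>
    io_measurableEmbedding.map_apply _ _
  refine ⟨M, g, L.n, h1, h2, hg, ?_, L.tendsto_n, ?_, ?_⟩
  · unfold muT
    rw [integral_map continuous_io.aemeasurable (isHolder_continuous hg).aestronglyMeasurable]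
    simp only [hgG]
    exact L.integral_G
  · intro K
    have h3 := L.escape K
    refine h3.congr ?_
    intro J
    rw [hmu]
    congr 1
    ext t
    simp only [Set.mem_preimage, Set.mem_ofPred_eq, hS]
  · intro ε hε
    filter_upwards [L.S_uniform ε hε, eventually_ge_atTop 1] with m hm hm1
    rw [hmu]
    have h3 : io ⁻¹' {x | ε < bsum mapS g m x / m} = ∅ := by
      rw [Set.eq_empty_iff_forall_notMem]
      intro t ht
      simp only [Set.mem_preimage, Set.mem_ofPred_eq, hS] at ht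
      have hmpos : (0 : ℝ) < m := by exact_mod_cast hm1
      rw [lt_div_iff₀ hmpos] at ht
      have := hm t
      have := le_abs_self (L.S m t)
      linarith
    rw [h3, measure_empty]

end Pool.Agent.Helper179.Siegel
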