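import Pool.Agent.Helper179.Sink

open MeasureTheory Filter Topology
open scoped ENNReal NNReal

namespace Pool.Agent.Helper179.Eq

open Pool.Agent.Helper179.KS

/-- A decreasing sequence of sets with empty intersection and non-decreasing measure is null. -/
lemma measure_eq_zero_of_escape {X : Type*} [MeasurableSpace X] (ν : Measure X)
    [IsProbabilityMeasure ν] (V : ℕ → Set X) (hV : ∀ n, MeasurableSet (V n))
    (hanti : Antitone V) (hempty : ⋂ n, V n = ∅) (hle : ∀ n, ν (V n) ≤ ν (V (n + 1))) :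
    ν (V 0) = 0 := by
  have h1 : Tendsto (fun n => ν (V n)) atTop (𝓝 (ν (⋂ n, V n))) :=
    tendsto_measure_iInter_atTop (fun n => (hV n).nullMeasurableSet) hanti
      ⟨0, measure_ne_top _ _⟩
  rw [hempty, measure_empty] at h1
  have h2 : ∀ n, ν (V 0) ≤ ν (V n) := by
    intro n
    induction n with
    | zero => exact le_rfl
    | succ n ih => exact ih.trans (hle n)
  exact le_antisymm (ge_of_tendsto' h1 h2) bot_le

theorem sinkData_of (f : ℂ × ℂ → ℂ × ℂ) (hcont : Continuous f) (pre : f ⁻¹' {0} = {0})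
    (N : ℂ × ℂ → ℝ) (hNcont : Continuous N) (hN0 : ∀ z, N z ≤ 0 → z = 0)
    (hNc : ∀ z, N z ≤ 1 / 4 → N (f z) ≤ 3 / 4 * N z) (hNle : ∀ z, N z ≤ ‖z‖)
    (box : ∀ ν : Measure (ℂ × ℂ), IsProbabilityMeasure ν → MeasurePreserving f ν ν →
      ∀ᵐ z ∂ν, ‖z‖ ≤ 3)
    (lip : ∀ z w, ‖z‖ ≤ 3 → ‖w‖ ≤ 3 → dist (f z) (f w) ≤ 7 * dist z w) :
    ∃ H : ℝ, SinkData f H := by
  set K : Set (ℂ × ℂ) := {z | ∀ n : ℕ, ‖f^[n] z‖ ≤ 3} with hK
  have hK0 : ∀ z ∈ K, ‖z‖ ≤ 3 := fun z hz => hz 0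
  have hKinv : ∀ z ∈ K, f z ∈ K := by
    intro z hz n
    rw [← Function.iterate_succ_apply]
    exact hz (n + 1)
  obtain ⟨H, _, hH⟩ := exists_entropy_bound f K hKinv 6 7
    (by
      intro z hz w hw
      rw [dist_eq_norm]
      have h1 := norm_sub_le z w
      have h2 := hK0 z hz
      have h3 := hK0 w hw
      linarith)
    (by norm_num)
    (fun z hz w hw => lip z w (hK0 z hz) (hK0 w hw))
  refine ⟨H, hcont.measurable, pre, ?_, ?_⟩
  · intro ν hν hT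
    set V : ℕ → Set (ℂ × ℂ) := fun n => {z | N z ≤ (3 / 4) ^ n * (1 / 4) ∧ z ≠ 0} with hV
    have hVmeas : ∀ n, MeasurableSet (V n) := by
      intro n
      exact (measurableSet_le hNcont.measurable measurable_const).inter
        (measurableSet_singleton (0 : ℂ × ℂ)).compl
    have hanti : Antitone V := by
      intro m n hmn z hz
      refine ⟨le_trans hz.1 ?_, hz.2⟩
      have : ((3 : ℝ) / 4) ^ n ≤ (3 / 4) ^ m :=
        pow_le_pow_of_le_one (by norm_num) (by norm_num) hmn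
      linarith
    have hempty : ⋂ n, V n = ∅ := by
      rw [Set.eq_empty_iff_forall_notMem]
      intro z hz
      rw [Set.mem_iInter] at hz
      have h1 : N z ≤ 0 := by
        have h2 : Tendsto (fun n : ℕ => ((3 : ℝ) / 4) ^ n * (1 / 4)) atTop (𝓝 (0 * (1 / 4))) :=
          (tendsto_pow_atTop_nhds_zero_of_lt_one (by norm_num) (by norm_num)).mul_const _
        rw [zero_mul] at h2
        exact ge_of_tendsto' h2 (fun n => (hz n).1)
      exact (hz 0).2 (hN0 z h1)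
    have hle : ∀ n, ν (V n) ≤ ν (V (n + 1)) := by
      intro n
      rw [← hT.measure_preimage (hVmeas (n + 1)).nullMeasurableSet]
      apply measure_mono
      intro z hz
      have h1 : ((3 : ℝ) / 4) ^ n ≤ 1 := pow_le_one₀ (by norm_num) (by norm_num)
      have h2 : N z ≤ 1 / 4 := by
        have := hz.1
        nlinarith
      refine ⟨?_, ?_⟩
      · have := hNc z h2
        rw [pow_succ]
        have h3 := hz.1
        nlinarith
      · intro h
        have : z ∈ f ⁻¹' {0} := h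
        rw [pre] at this
        exact hz.2 this
    have h0 := measure_eq_zero_of_escape ν V hVmeas hanti hempty hle
    have h1 : ∀ᵐ z ∂ν, z ∉ V 0 := measure_eq_zero_iff_ae_notMem.1 h0
    filter_upwards [h1] with z hz hz0
    by_contra hlt
    push Not at hlt
    apply hz
    refine ⟨?_, hz0⟩
    have := hNle z
    simp only [pow_zero, one_mul]
    linarith
  · intro ν hν hT
    apply hH ν hν hT
    have h1 : ∀ n : ℕ, ∀ᵐ z ∂ν, ‖f^[n] z‖ ≤ 3 := by
      intro n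
      exact (hT.iterate n).quasiMeasurePreserving.ae (box ν hν hT)
    exact ae_all_iff.2 h1

/-- Escape in both time directions for a map that doubles the larger coordinate. -/
lemma box_of_escape (f : ℂ × ℂ → ℂ × ℂ) (g₁ g₂ : ℂ × ℂ → ℝ) (hg₁ : Continuous g₁)
    (hg₂ : Continuous g₂) (hnorm : ∀ z, ‖z‖ = max (g₁ z) (g₂ z))
    (hfw : ∀ z, 3 < g₁ z → g₂ z ≤ g₁ z → 2 * g₁ z ≤ g₁ (f z) ∧ g₂ (f z) ≤ g₁ (f z))
    (hbw : ∀ z, 3 < g₂ (f z) → g₁ (f z) ≤ g₂ (f z) → 2 * g₂ (f z) ≤ g₂ z ∧ g₁ z ≤ g₂ z)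
    (ν : Measure (ℂ × ℂ)) (hν : IsProbabilityMeasure ν) (hT : MeasurePreserving f ν ν) :
    ∀ᵐ z ∂ν, ‖z‖ ≤ 3 := by
  have hgrow : ∀ a : ℝ, ∃ n : ℕ, a ≤ 3 * 2 ^ n := by
    intro a
    obtain ⟨n, hn⟩ := pow_unbounded_of_one_lt a (by norm_num : (1 : ℝ) < 2)
    refine ⟨n, ?_⟩
    have : (0 : ℝ) < 2 ^ n := by positivity
    linarith
  have key : ∀ (a b : ℂ × ℂ → ℝ), Continuous a → Continuous b →
      (∀ n : ℕ, ν {z | 3 * 2 ^ n < a z ∧ b z ≤ a z} ≤ ν {z | 3 * 2 ^ (n + 1) < a z ∧ b z ≤ a z}) →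
      ∀ᵐ z ∂ν, ¬ (3 < a z ∧ b z ≤ a z) := by
    intro a b ha hb hle
    have h0 := measure_eq_zero_of_escape ν
      (fun n : ℕ => {z | 3 * 2 ^ n < a z ∧ b z ≤ a z})
      (fun n => (measurableSet_lt measurable_const ha.measurable).inter
        (measurableSet_le hb.measurable ha.measurable))
      (by
        intro m n hmn z hz
        refine ⟨lt_of_le_of_lt ?_ hz.1, hz.2⟩
        have : (2 : ℝ) ^ m ≤ 2 ^ n := pow_le_pow_right₀ (by norm_num) hmn
        linarith)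
      (by
        rw [Set.eq_empty_iff_forall_notMem]
        intro z hz
        rw [Set.mem_iInter] at hz
        obtain ⟨n, hn⟩ := hgrow (a z)
        exact absurd (hz n).1 (not_lt.2 hn))
      hle
    have h1 := measure_eq_zero_iff_ae_notMem.1 h0
    filter_upwards [h1] with z hz h
    apply hz
    refine ⟨?_, h.2⟩
    simpa using h.1
  have hA := key g₁ g₂ hg₁ hg₂ (by
    intro n
    have hm : MeasurableSet {z : ℂ × ℂ | 3 * 2 ^ (n + 1) < g₁ z ∧ g₂ z ≤ g₁ z} :=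
      (measurableSet_lt measurable_const hg₁.measurable).inter
        (measurableSet_le hg₂.measurable hg₁.measurable)
    rw [← hT.measure_preimage hm.nullMeasurableSet]
    apply measure_mono
    rintro z ⟨hz1, hz2⟩
    have h2 : (1 : ℝ) ≤ 2 ^ n := one_le_pow₀ (by norm_num)
    have h3 := hfw z (by linarith) hz2
    refine ⟨?_, h3.2⟩
    rw [pow_succ]
    linarith [h3.1])
  have hB := key g₂ g₁ hg₂ hg₁ (by
    intro n
    have hm : MeasurableSet {z : ℂ × ℂ | 3 * 2 ^ n < g₂ z ∧ g₁ z ≤ g₂ z} :=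
      (measurableSet_lt measurable_const hg₂.measurable).inter
        (measurableSet_le hg₁.measurable hg₂.measurable)
    rw [← hT.measure_preimage hm.nullMeasurableSet]
    apply measure_mono
    rintro z ⟨hz1, hz2⟩
    have h2 : (1 : ℝ) ≤ 2 ^ n := one_le_pow₀ (by norm_num)
    have h3 := hbw z (by linarith) hz2
    refine ⟨?_, h3.2⟩
    rw [pow_succ]
    linarith [h3.1])
  filter_upwards [hA, hB] with z h1 h2
  rw [hnorm]
  by_contra hcon
  push Not at hcon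
  rcases lt_max_iff.1 hcon with h | h
  · rcases le_total (g₂ z) (g₁ z) with h3 | h3
    · exact h1 ⟨h, h3⟩
    · exact h2 ⟨lt_of_lt_of_le h h3, h3⟩
  · rcases le_total (g₂ z) (g₁ z) with h3 | h3
    · exact h1 ⟨lt_of_lt_of_le h h3, h3⟩
    · exact h2 ⟨h, h3⟩

/-- `(x, y) ↦ (x² - y/4, x)`. -/
noncomputable def mapA (z : ℂ × ℂ) : ℂ × ℂ := (z.1 ^ 2 - (1 / 4) * z.2, z.1)

/-- `(x, y) ↦ (y, y² - x/4)`. -/
noncomputable def mapB (z : ℂ × ℂ) : ℂ × ℂ := (z.2, z.2 ^ 2 - (1 / 4) * z.1)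

lemma fw_ineq {x y : ℂ} (hx : 3 < ‖x‖) (hyx : ‖y‖ ≤ ‖x‖) :
    2 * ‖x‖ ≤ ‖x ^ 2 - (1 / 4) * y‖ ∧ ‖x‖ ≤ ‖x ^ 2 - (1 / 4) * y‖ := by
  have h1 : ‖x ^ 2‖ - ‖(1 / 4) * y‖ ≤ ‖x ^ 2 - (1 / 4) * y‖ := norm_sub_norm_le _ _
  have h2 : ‖x ^ 2‖ = ‖x‖ ^ 2 := norm_pow _ _
  have h3 : ‖(1 / 4) * y‖ = (1 / 4) * ‖y‖ := by rw [norm_mul]; norm_num
  constructor <;> nlinarith

lemma bw_ineq {x y : ℂ} (hx : 3 < ‖x‖) (hyx : ‖x ^ 2 - (1 / 4) * y‖ ≤ ‖x‖) :
    2 * ‖x‖ ≤ ‖y‖ ∧ ‖x‖ ≤ ‖y‖ := by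
  have h1 : ‖x ^ 2‖ - ‖(1 / 4) * y‖ ≤ ‖x ^ 2 - (1 / 4) * y‖ := norm_sub_norm_le _ _
  have h2 : ‖x ^ 2‖ = ‖x‖ ^ 2 := norm_pow _ _
  have h3 : ‖(1 / 4) * y‖ = (1 / 4) * ‖y‖ := by rw [norm_mul]; norm_num
  constructor <;> nlinarith

lemma contract_ineq {x y : ℂ} {m : ℝ} (hx : ‖x‖ ≤ m) (hy : ‖y‖ / 2 ≤ m) (hm : m ≤ 1 / 4) :
    ‖x ^ 2 - (1 / 4) * y‖ ≤ 3 / 4 * m := by
  have h1 : ‖x ^ 2 - (1 / 4) * y‖ ≤ ‖x ^ 2‖ + ‖(1 / 4) * y‖ := norm_sub_le _ _
  have h2 : ‖x ^ 2‖ = ‖x‖ ^ 2 := norm_pow _ _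
  have h3 : ‖(1 / 4) * y‖ = (1 / 4) * ‖y‖ := by rw [norm_mul]; norm_num
  have h4 := norm_nonneg x
  nlinarith

lemma lip_ineq {x y x' y' : ℂ} {d : ℝ} (hx : ‖x‖ ≤ 3) (hx' : ‖x'‖ ≤ 3) (hd : ‖x - x'‖ ≤ d)
    (hd' : ‖y - y'‖ ≤ d) : ‖(x ^ 2 - (1 / 4) * y) - (x' ^ 2 - (1 / 4) * y')‖ ≤ 7 * d := by
  have h0 : (x ^ 2 - (1 / 4) * y) - (x' ^ 2 - (1 / 4) * y') =
      (x + x') * (x - x') - (1 / 4) * (y - y') := by ring
  rw [h0]
  have h1 : ‖(x + x') * (x - x') - (1 / 4) * (y - y')‖ ≤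
      ‖(x + x') * (x - x')‖ + ‖(1 / 4) * (y - y')‖ := norm_sub_le _ _
  have h2 : ‖(x + x') * (x - x')‖ = ‖x + x'‖ * ‖x - x'‖ := norm_mul _ _
  have h3 : ‖(1 / 4) * (y - y')‖ = (1 / 4) * ‖y - y'‖ := by rw [norm_mul]; norm_num
  have h4 : ‖x + x'‖ ≤ 6 := (norm_add_le _ _).trans (by linarith)
  have h5 := norm_nonneg (x - x')
  have h6 : ‖x + x'‖ * ‖x - x'‖ ≤ 6 * d := by
    apply mul_le_mul h4 hd h5 (by norm_num)
  linarith

theorem sinkData_mapA : ∃ H : ℝ, SinkData mapA H := by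
  have hcont : Continuous mapA := by unfold mapA; fun_prop
  apply sinkData_of mapA hcont ?_ (fun z => max ‖z.1‖ (‖z.2‖ / 2)) (by fun_prop)
  · intro z hz
    have h1 : ‖z.1‖ ≤ 0 := (le_max_left _ _).trans hz
    have h2 : ‖z.2‖ / 2 ≤ 0 := (le_max_right _ _).trans hz
    apply Prod.ext
    · simpa using h1
    · have : ‖z.2‖ ≤ 0 := by linarith
      simpa using this
  · intro z hz
    simp only [mapA]
    apply max_le
    · exact contract_ineq (le_max_left _ _) (le_max_right _ _) hz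
    · have h1 : ‖z.1‖ ≤ max ‖z.1‖ (‖z.2‖ / 2) := le_max_left _ _
      have h2 := norm_nonneg z.1
      linarith
  · intro z
    rw [Prod.norm_def]
    apply max_le_max le_rfl
    have := norm_nonneg z.2
    linarith
  · apply box_of_escape mapA (fun z => ‖z.1‖) (fun z => ‖z.2‖) (by fun_prop) (by fun_prop)
      (fun z => Prod.norm_def z)
    · intro z h1 h2
      exact fw_ineq h1 h2
    · intro z h1 h2
      exact bw_ineq h1 h2
  · intro z w hz hw
    rw [dist_eq_norm, dist_eq_norm]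
    have hz1 : ‖z.1‖ ≤ 3 := (norm_fst_le z).trans hz
    have hw1 : ‖w.1‖ ≤ 3 := (norm_fst_le w).trans hw
    have h1 : ‖z.1 - w.1‖ ≤ ‖z - w‖ := norm_fst_le (z - w)
    have h2 : ‖z.2 - w.2‖ ≤ ‖z - w‖ := norm_snd_le (z - w)
    rw [Prod.norm_def (mapA z - mapA w)]
    apply max_le
    · exact lip_ineq hz1 hw1 h1 h2
    · simp only [mapA, Prod.snd_sub]
      have := norm_nonneg (z - w)
      linarith
  · ext z
    simp only [Set.mem_preimage, Set.mem_singleton_iff, mapA]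
    constructor
    · intro h
      have h1 := congrArg Prod.snd h
      have h2 := congrArg Prod.fst h
      simp only [Prod.snd_zero, Prod.fst_zero] at h1 h2
      rw [h1] at h2
      apply Prod.ext
      · exact h1
      · simpa using h2
    · rintro rfl
      simp

theorem sinkData_mapB : ∃ H : ℝ, SinkData mapB H := by
  have hcont : Continuous mapB := by unfold mapB; fun_prop
  apply sinkData_of mapB hcont ?_ (fun z => max ‖z.2‖ (‖z.1‖ / 2)) (by fun_prop)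
  · intro z hz
    have h1 : ‖z.2‖ ≤ 0 := (le_max_left _ _).trans hz
    have h2 : ‖z.1‖ / 2 ≤ 0 := (le_max_right _ _).trans hz
    apply Prod.ext
    · have : ‖z.1‖ ≤ 0 := by linarith
      simpa using this
    · simpa using h1
  · intro z hz
    simp only [mapB]
    apply max_le
    · exact contract_ineq (le_max_left _ _) (le_max_right _ _) hz
    · have h1 : ‖z.2‖ ≤ max ‖z.2‖ (‖z.1‖ / 2) := le_max_left _ _
      have h2 := norm_nonneg z.2
      linarith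
  · intro z
    rw [Prod.norm_def, max_comm ‖z.1‖ ‖z.2‖]
    apply max_le_max le_rfl
    have := norm_nonneg z.1
    linarith
  · apply box_of_escape mapB (fun z => ‖z.2‖) (fun z => ‖z.1‖) (by fun_prop) (by fun_prop)
      (fun z => by rw [Prod.norm_def, max_comm])
    · intro z h1 h2
      exact fw_ineq h1 h2
    · intro z h1 h2
      exact bw_ineq h1 h2
  · intro z w hz hw
    rw [dist_eq_norm, dist_eq_norm]
    have hz1 : ‖z.2‖ ≤ 3 := (norm_snd_le z).trans hz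
    have hw1 : ‖w.2‖ ≤ 3 := (norm_snd_le w).trans hw
    have h1 : ‖z.1 - w.1‖ ≤ ‖z - w‖ := norm_fst_le (z - w)
    have h2 : ‖z.2 - w.2‖ ≤ ‖z - w‖ := norm_snd_le (z - w)
    rw [Prod.norm_def (mapB z - mapB w)]
    apply max_le
    · simp only [mapB, Prod.fst_sub]
      have := norm_nonneg (z - w)
      linarith
    · exact lip_ineq hz1 hw1 h2 h1
  · ext z
    simp only [Set.mem_preimage, Set.mem_singleton_iff, mapB]
    constructor
    · intro h
      have h1 := congrArg Prod.snd h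
      have h2 := congrArg Prod.fst h
      simp only [Prod.snd_zero, Prod.fst_zero] at h1 h2
      rw [h2] at h1
      apply Prod.ext
      · simpa using h1
      · exact h2
    · rintro rfl
      simp

end Pool.Agent.Helper179.Eq
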