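import Pool.Agent.Helper179.SiegelU
import Pool.Agent.Helper179.KSSharp
import Pool.Agent.Helper179.KSLip
import Pool.Agent.Helper179.SinkMaps

open MeasureTheory Filter Topology
open scoped ENNReal NNReal

namespace Pool.Agent.Helper179.Siegel

open Pool.Agent.Helper179.KS Pool.Agent.Helper179.Eq

/-- The Henon map `(x, y) ↦ (y, y² + b y - x/4)` with a fixed point of Siegel type at `0`. -/
noncomputable def mapS (p : ℂ × ℂ) : ℂ × ℂ := (p.2, p.2 ^ 2 + bb * p.2 - (1 / 4) * p.1)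

lemma continuous_mapS : Continuous mapS := by unfold mapS; fun_prop

lemma mapS_injective : Function.Injective mapS := by
  intro p q h
  have h1 : p.2 = q.2 := congrArg Prod.fst h
  have h2 : p.2 ^ 2 + bb * p.2 - (1 / 4) * p.1 = q.2 ^ 2 + bb * q.2 - (1 / 4) * q.1 :=
    congrArg Prod.snd h
  rw [h1] at h2
  apply Prod.ext _ h1
  linear_combination -4 * h2

/-- Coordinates near the fixed point. -/
noncomputable def Th (q : ℂ × ℂ) : ℂ × ℂ := (u (lam⁻¹ * q.1) + q.2, u q.1)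

/-- The parametrisation of the Siegel disc. -/
noncomputable def psi (z : ℂ) : ℂ × ℂ := Th (z, 0)

lemma Th_injOn : Set.InjOn Th {q | ‖q.1‖ ≤ r0} := by
  intro q hq q' hq' h
  have h1 : u q.1 = u q'.1 := congrArg Prod.snd h
  have h2 : q.1 = q'.1 := u_inj hq hq' h1
  have h3 : u (lam⁻¹ * q.1) + q.2 = u (lam⁻¹ * q'.1) + q'.2 := congrArg Prod.fst h
  rw [h2] at h3
  exact Prod.ext h2 (add_left_cancel h3)

lemma Th_continuousOn : ContinuousOn Th {q | ‖q.1‖ ≤ r0} := by
  unfold Th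
  apply ContinuousOn.prodMk
  · apply ContinuousOn.add
    · apply continuousOn_u.comp (by fun_prop)
      intro q hq
      rw [mem_closedBall_zero_iff, norm_lam_inv_mul]
      exact hq
    · fun_prop
  · apply continuousOn_u.comp (by fun_prop)
    intro q hq
    rw [mem_closedBall_zero_iff]
    exact hq

/-- The disc is invariant and the map acts on it as a rotation. -/
lemma mapS_psi {z : ℂ} (hz : ‖z‖ ≤ r0) : mapS (psi z) = psi (lam * z) := by
  unfold mapS psi Th
  have h := functional_eq hz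
  have h1 : lam⁻¹ * (lam * z) = z := by
    rw [← mul_assoc, inv_mul_cancel₀ lam_ne_zero, one_mul]
  simp only [add_zero]
  rw [h1]
  apply Prod.ext
  · rfl
  · simp only
    linear_combination -h

/-- One step in the tube: the transversal coordinate is contracted. -/
lemma tube_step {q : ℂ × ℂ} (hq : ‖q.1‖ + ‖q.2‖ < r0) :
    ∃ q' : ℂ × ℂ, mapS (Th q) = Th q' ∧ ‖q'.1‖ + ‖q'.2‖ < r0 ∧ ‖q'.2‖ ≤ ‖q.2‖ / 2 := by
  obtain ⟨z, w⟩ := q
  simp only at hq ⊢
  have hw := norm_nonneg w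
  have hzn := norm_nonneg z
  have hz : ‖z‖ ≤ r0 := by linarith
  obtain ⟨z', hz', hu⟩ := u_surj (z₀ := lam * z) (x := u (lam * z) - (1 / 4) * w)
    (ρ := ‖w‖ / 3) (by positivity) (by rw [norm_lam_mul]; linarith)
    (by
      rw [sub_sub_cancel_left, norm_neg, norm_mul]
      norm_num
      linarith)
  have hz'n : ‖z'‖ ≤ ‖z‖ + ‖w‖ / 3 := by
    have h1 : ‖z'‖ ≤ ‖z' - lam * z‖ + ‖lam * z‖ := by simpa using norm_add_le (z' - lam * z) (lam * z)
    rw [norm_lam_mul] at h1
    linarith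
  have hz'r : ‖z'‖ ≤ r0 := by linarith
  have hw' : ‖u z - u (lam⁻¹ * z')‖ ≤ (11 / 10) * (‖w‖ / 3) := by
    have h1 := u_lip hz (w := lam⁻¹ * z') (by rw [norm_lam_inv_mul]; exact hz'r)
    have h2 : ‖z - lam⁻¹ * z'‖ = ‖z' - lam * z‖ := by
      have : z - lam⁻¹ * z' = -(lam⁻¹ * (z' - lam * z)) := by
        rw [mul_sub, ← mul_assoc, inv_mul_cancel₀ lam_ne_zero, one_mul]
        ring
      rw [this, norm_neg, norm_lam_inv_mul]
    rw [h2] at h1
    linarith
  refine ⟨(z', u z - u (lam⁻¹ * z')), ?_, ?_, ?_⟩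
  · have h := functional_eq hz
    unfold mapS Th
    simp only
    apply Prod.ext
    · simp only
      ring
    · simp only
      rw [hu]
      linear_combination -h
  · simp only
    linarith
  · simp only
    linarith

/-- The tube around the disc. -/
def Tube : Set (ℂ × ℂ) := {p | ∃ q : ℂ × ℂ, ‖q.1‖ + ‖q.2‖ < r0 ∧ p = Th q}

/-- The (open) Siegel disc of radius `r0`. -/
def Disc : Set (ℂ × ℂ) := {p | ∃ z : ℂ, ‖z‖ < r0 ∧ p = psi z}

lemma disc_preimage : mapS ⁻¹' Disc = Disc := by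
  ext p
  constructor
  · rintro ⟨z, hz, hp⟩
    refine ⟨lam⁻¹ * z, by rw [norm_lam_inv_mul]; exact hz, ?_⟩
    apply mapS_injective
    rw [hp, mapS_psi (by rw [norm_lam_inv_mul]; exact hz.le), ← mul_assoc,
      mul_inv_cancel₀ lam_ne_zero, one_mul]
  · rintro ⟨z, hz, rfl⟩
    exact ⟨lam * z, by rw [norm_lam_mul]; exact hz, mapS_psi hz.le⟩

lemma disc_eq_image : Disc = Th '' {q : ℂ × ℂ | ‖q.1‖ < r0 ∧ q.2 = 0} := by
  ext p
  constructor
  · rintro ⟨z, hz, rfl⟩
    exact ⟨(z, 0), ⟨hz, rfl⟩, rfl⟩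
  · rintro ⟨⟨z, w⟩, ⟨hz, hw⟩, rfl⟩
    simp only at hw
    subst hw
    exact ⟨z, hz, rfl⟩

lemma measurableSet_disc : MeasurableSet Disc := by
  rw [disc_eq_image]
  apply MeasurableSet.image_of_continuousOn_injOn
  · apply MeasurableSet.inter
    · exact measurableSet_lt (f := fun q : ℂ × ℂ => ‖q.1‖) (by fun_prop) measurable_const
    · exact measurableSet_eq_fun (f := fun q : ℂ × ℂ => q.2) (g := fun _ => 0)
        (by fun_prop) measurable_const
  · exact Th_continuousOn.mono (fun q hq => hq.1.le)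
  · exact Th_injOn.mono (fun q hq => hq.1.le)

/-- Invariant probability measures do not charge the tube outside the disc. -/
lemma tube_null (ν : Measure (ℂ × ℂ)) (hν : IsProbabilityMeasure ν)
    (hT : MeasurePreserving mapS ν ν) : ∀ᵐ p ∂ν, p ∈ Tube → p ∈ Disc := by
  set S : ℕ → Set (ℂ × ℂ) := fun n =>
    {q | (‖q.1‖ + ‖q.2‖ < r0 ∧ q.2 ≠ 0) ∧ ‖q.2‖ ≤ (1 / 2) ^ n * r0} with hS
  set V : ℕ → Set (ℂ × ℂ) := fun n => Th '' S n with hV
  have hSr : ∀ n, S n ⊆ {q | ‖q.1‖ ≤ r0} := by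
    intro n q hq
    have h1 := hq.1.1
    have h2 := norm_nonneg q.2
    simp only [Set.mem_ofPred_eq]
    linarith
  have hVmeas : ∀ n, MeasurableSet (V n) := by
    intro n
    apply MeasurableSet.image_of_continuousOn_injOn
    · apply MeasurableSet.inter
      · apply MeasurableSet.inter
        · exact measurableSet_lt (f := fun q : ℂ × ℂ => ‖q.1‖ + ‖q.2‖) (by fun_prop)
            measurable_const
        · exact (measurableSet_eq_fun (f := fun q : ℂ × ℂ => q.2) (g := fun _ => 0)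
            (by fun_prop) measurable_const).compl
      · exact measurableSet_le (f := fun q : ℂ × ℂ => ‖q.2‖) (by fun_prop) measurable_const
    · exact Th_continuousOn.mono (hSr n)
    · exact Th_injOn.mono (hSr n)
  have hr := r0_pos
  have hanti : Antitone V := by
    intro m n hmn
    apply Set.image_mono
    intro q hq
    refine ⟨hq.1, hq.2.trans ?_⟩
    apply mul_le_mul_of_nonneg_right _ hr.le
    exact pow_le_pow_of_le_one (by norm_num) (by norm_num) hmn
  have hempty : ⋂ n, V n = ∅ := by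
    rw [Set.eq_empty_iff_forall_notMem]
    intro p hp
    rw [Set.mem_iInter] at hp
    obtain ⟨q, hq, hqp⟩ := hp 0
    have h1 : ∀ n, ‖q.2‖ ≤ (1 / 2) ^ n * r0 := by
      intro n
      obtain ⟨q', hq', hqp'⟩ := hp n
      have : q' = q := Th_injOn (hSr n hq') (hSr 0 hq) (hqp'.trans hqp.symm)
      rw [← this]
      exact hq'.2
    have h2 : Tendsto (fun n : ℕ => ((1 : ℝ) / 2) ^ n * r0) atTop (𝓝 (0 * r0)) :=
      (tendsto_pow_atTop_nhds_zero_of_lt_one (by norm_num) (by norm_num)).mul_const _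
    rw [zero_mul] at h2
    have h3 : ‖q.2‖ ≤ 0 := ge_of_tendsto' h2 h1
    exact hq.1.2 (by simpa using h3)
  have hle : ∀ n, ν (V n) ≤ ν (V (n + 1)) := by
    intro n
    rw [← hT.measure_preimage (hVmeas (n + 1)).nullMeasurableSet]
    apply measure_mono
    rintro p ⟨q, hq, rfl⟩
    obtain ⟨q', h1, h2, h3⟩ := tube_step hq.1.1
    refine ⟨q', ⟨⟨h2, ?_⟩, ?_⟩, h1.symm⟩
    · intro hq'0
      have h4 : mapS (Th q) ∈ Disc := by
        rw [h1]
        refine ⟨q'.1, ?_, ?_⟩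
        · have := norm_nonneg q'.2
          linarith
        · unfold psi
          rw [← hq'0]
      have h5 : Th q ∈ mapS ⁻¹' Disc := h4
      rw [disc_preimage] at h5
      obtain ⟨z, hz, hzq⟩ := h5
      have h6 : q = (z, 0) := by
        apply Th_injOn (hSr n hq) _ hzq
        exact hz.le
      exact hq.1.2 (by rw [h6])
    · rw [pow_succ]
      have := hq.2
      linarith
  have h0 := measure_eq_zero_of_escape ν V hVmeas hanti hempty hle
  have h1 : ∀ᵐ p ∂ν, p ∉ V 0 := measure_eq_zero_iff_ae_notMem.1 h0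
  filter_upwards [h1] with p hp hpT
  obtain ⟨q, hq, rfl⟩ := hpT
  by_cases hw : q.2 = 0
  · refine ⟨q.1, ?_, ?_⟩
    · have := norm_nonneg q.2
      linarith
    · unfold psi
      rw [← hw]
  · exfalso
    apply hp
    refine ⟨q, ⟨⟨hq, hw⟩, ?_⟩, rfl⟩
    have := norm_nonneg q.1
    simp only [pow_zero, one_mul]
    linarith

lemma psi_lip {z z' : ℂ} (hz : ‖z‖ ≤ r0) (hz' : ‖z'‖ ≤ r0) :
    dist (psi z) (psi z') ≤ (11 / 10) * ‖z - z'‖ := by
  unfold psi Th
  simp only [add_zero]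
  rw [Prod.dist_eq, dist_eq_norm, dist_eq_norm]
  apply max_le
  · simp only
    have := u_lip (z := lam⁻¹ * z) (w := lam⁻¹ * z') (by rw [norm_lam_inv_mul]; exact hz)
      (by rw [norm_lam_inv_mul]; exact hz')
    rw [← mul_sub, norm_lam_inv_mul] at this
    exact this
  · simp only
    exact u_lip hz hz'

lemma psi_lower {z z' : ℂ} (hz : ‖z‖ ≤ r0) (hz' : ‖z'‖ ≤ r0) :
    (9 / 10) * ‖z - z'‖ ≤ dist (psi z) (psi z') := by
  unfold psi Th
  simp only [add_zero]
  rw [Prod.dist_eq]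
  refine le_trans ?_ (le_max_right _ _)
  simp only
  rw [dist_eq_norm]
  exact u_lower hz hz'

lemma mapS_iterate_psi {z : ℂ} (hz : ‖z‖ ≤ r0) (n : ℕ) : mapS^[n] (psi z) = psi (lam ^ n * z) := by
  induction n with
  | zero => simp
  | succ n ih =>
    rw [Function.iterate_succ_apply', ih, mapS_psi, ← mul_assoc, ← pow_succ']
    rw [norm_mul, norm_lam_pow, one_mul]
    exact hz

/-- The dynamics on the disc has zero entropy. -/
lemma entropy_disc (μ : Measure (ℂ × ℂ)) (hμ : IsProbabilityMeasure μ)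
    (hT : MeasurePreserving mapS μ μ) (hD : μ Discᶜ = 0) : ksEntropy μ mapS ≤ ((0 : ℝ) : EReal) := by
  have hK : ∀ᵐ p ∂μ, p ∈ Disc := by
    rw [ae_iff]
    exact hD
  have h := ksEntropy_le_log_of_cover μ hT Disc hK 1 le_rfl ?_
  · simpa using h
  intro ε hε
  obtain ⟨t, _, htfin, htcov⟩ :=
    (isCompact_closedBall (0 : ℂ) r0).finite_cover_balls (e := ε / 3) (by positivity)
  refine ⟨(htfin.toFinset.card : ℝ) + 1, by positivity, ?_⟩
  intro n
  refine ⟨htfin.toFinset, inferInstance,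
    fun x => psi '' {z | ‖z‖ < r0 ∧ ‖z - x‖ < ε / 3}, ?_, ?_, ?_⟩
  · simp only [Fintype.card_coe, one_pow, mul_one]
    linarith
  · rintro p ⟨z, hz, rfl⟩
    have h1 := htcov (show z ∈ Metric.closedBall (0 : ℂ) r0 by
      rw [mem_closedBall_zero_iff]; exact hz.le)
    rw [Set.mem_iUnion₂] at h1
    obtain ⟨x, hx, hzx⟩ := h1
    rw [Set.mem_iUnion]
    refine ⟨⟨x, htfin.mem_toFinset.2 hx⟩, z, ⟨hz, ?_⟩, rfl⟩
    rw [Metric.mem_ball, dist_eq_norm] at hzx
    exact hzx
  · rintro x _ ⟨z, ⟨hz, hzx⟩, rfl⟩ _ ⟨z', ⟨hz', hzx'⟩, rfl⟩ j _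
    rw [mapS_iterate_psi hz.le, mapS_iterate_psi hz'.le]
    have h1 := psi_lip (z := lam ^ j * z) (z' := lam ^ j * z')
      (by rw [norm_mul, norm_lam_pow, one_mul]; exact hz.le)
      (by rw [norm_mul, norm_lam_pow, one_mul]; exact hz'.le)
    rw [← mul_sub, norm_mul, norm_lam_pow, one_mul] at h1
    have h2 : ‖z - z'‖ ≤ ‖z - x‖ + ‖z' - x‖ := by
      have := norm_sub_le (z - x) (z' - x)
      simpa using this
    linarith

end Pool.Agent.Helper179.Siegel
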