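import Pool.Agent.Helper179.SiegelCoef

open Filter Topology

namespace Pool.Agent.Helper179.Siegel

/-- The radius of the disc on which everything happens. -/
noncomputable def r0 : ℝ := 1 / 10 ^ 9

lemma r0_pos : 0 < r0 := by unfold r0; norm_num

/-- The linearising function. -/
noncomputable def u (z : ℂ) : ℂ := ∑' n, coef n * z ^ n

lemma summable_norm_term {z : ℂ} (hz : ‖z‖ ≤ r0) : Summable (fun n => ‖coef n * z ^ n‖) := by
  have h1 : 2048 * r0 < 1 := by unfold r0; norm_num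
  apply Summable.of_nonneg_of_le (fun n => norm_nonneg _) (g := fun n => ‖coef n * z ^ n‖)
    (f := fun n => (2048 * r0) ^ n)
  · intro n
    rw [norm_mul, norm_pow, mul_pow]
    exact mul_le_mul (norm_coef_le n) (pow_le_pow_left₀ (norm_nonneg _) hz n) (by positivity)
      (by positivity)
  · exact summable_geometric_of_lt_one (by have := r0_pos; positivity) h1

lemma summable_term {z : ℂ} (hz : ‖z‖ ≤ r0) : Summable (fun n => coef n * z ^ n) :=
  (summable_norm_term hz).of_norm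

lemma u_zero : u 0 = 0 := by
  unfold u
  rw [tsum_eq_single 0]
  · simp [coef_zero]
  · intro n hn
    simp [hn]

lemma coef_identity (n : ℕ) :
    dv n * coef n = ∑ kl ∈ Finset.HasAntidiagonal.antidiagonal n, coef kl.1 * coef kl.2 := by
  match n with
  | 0 => simp [coef_zero]
  | 1 =>
    have h1 : dv 1 = 0 := by
      have := dv_eq 0
      simpa using this
    rw [h1, Finset.Nat.sum_antidiagonal_eq_sum_range_succ (fun i j => coef i * coef j)]
    simp [Finset.sum_range_succ, coef_zero]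
  | n + 2 =>
    rw [coef_succ_succ, mul_div_cancel₀ _ (dv_ne_zero (n + 1) (by omega))]
    rw [Finset.Nat.sum_antidiagonal_eq_sum_range_succ (fun i j => coef i * coef j)]
    rw [Finset.sum_range_succ, Finset.sum_range_succ']
    simp only [Nat.sub_self, coef_zero, mul_zero, add_zero, zero_mul]
    rw [Finset.sum_range]
    apply Finset.sum_congr rfl
    intro j _
    have := j.isLt
    congr 2
    omega

lemma norm_lam_mul (z : ℂ) : ‖lam * z‖ = ‖z‖ := by rw [norm_mul, norm_lam, one_mul]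

lemma norm_lam_inv_mul (z : ℂ) : ‖lam⁻¹ * z‖ = ‖z‖ := by
  rw [norm_mul, norm_inv, norm_lam, inv_one, one_mul]

/-- The functional equation `u(λz) + u(λ⁻¹z)/4 = b u(z) + u(z)²`. -/
theorem functional_eq {z : ℂ} (hz : ‖z‖ ≤ r0) :
    u (lam * z) + (1 / 4) * u (lam⁻¹ * z) = bb * u z + u z ^ 2 := by
  have s1 := summable_term (z := lam * z) (by rw [norm_lam_mul]; exact hz)
  have s2 := summable_term (z := lam⁻¹ * z) (by rw [norm_lam_inv_mul]; exact hz)
  have s3 := summable_term hz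
  have hsq : u z ^ 2 = ∑' n, (∑ kl ∈ Finset.HasAntidiagonal.antidiagonal n, coef kl.1 * coef kl.2) * z ^ n := by
    unfold u
    rw [pow_two, tsum_mul_tsum_eq_tsum_sum_antidiagonal_of_summable_norm (summable_norm_term hz)
      (summable_norm_term hz)]
    congr 1
    ext n
    rw [Finset.sum_mul]
    apply Finset.sum_congr rfl
    intro kl hkl
    rw [Finset.HasAntidiagonal.mem_antidiagonal] at hkl
    rw [← hkl, pow_add]
    ring
  have h4 : u (lam * z) + (1 / 4) * u (lam⁻¹ * z) - bb * u z = ∑' n, (dv n * coef n) * z ^ n := by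
    unfold u
    rw [← tsum_mul_left, ← tsum_mul_left, ← s1.tsum_add (s2.mul_left _),
      ← (s1.add (s2.mul_left _)).tsum_sub (s3.mul_left _)]
    congr 1
    ext n
    unfold dv
    rw [mul_pow, mul_pow]
    ring
  have h5 : ∑' n, (dv n * coef n) * z ^ n =
      ∑' n, (∑ kl ∈ Finset.HasAntidiagonal.antidiagonal n, coef kl.1 * coef kl.2) * z ^ n := by
    congr 1
    ext n
    rw [coef_identity]
  rw [hsq, ← h5, ← h4]
  ring

lemma norm_pow_sub_pow_le {z w : ℂ} {r : ℝ} (hz : ‖z‖ ≤ r) (hw : ‖w‖ ≤ r) (n : ℕ) :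
    ‖z ^ (n + 1) - w ^ (n + 1)‖ ≤ (n + 1) * r ^ n * ‖z - w‖ := by
  have hr : 0 ≤ r := (norm_nonneg z).trans hz
  induction n with
  | zero => simp
  | succ n ih =>
    have h1 : z ^ (n + 1 + 1) - w ^ (n + 1 + 1) =
        z * (z ^ (n + 1) - w ^ (n + 1)) + (z - w) * w ^ (n + 1) := by ring
    rw [h1]
    refine (norm_add_le _ _).trans ?_
    rw [norm_mul, norm_mul, norm_pow]
    have h2 : ‖w‖ ^ (n + 1) ≤ r ^ (n + 1) := pow_le_pow_left₀ (norm_nonneg _) hw _
    have h3 : ‖z‖ * ‖z ^ (n + 1) - w ^ (n + 1)‖ ≤ r * ((n + 1) * r ^ n * ‖z - w‖) :=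
      mul_le_mul hz ih (norm_nonneg _) hr
    have h4 : ‖z - w‖ * ‖w‖ ^ (n + 1) ≤ ‖z - w‖ * r ^ (n + 1) :=
      mul_le_mul_of_nonneg_left h2 (norm_nonneg _)
    calc ‖z‖ * ‖z ^ (n + 1) - w ^ (n + 1)‖ + ‖z - w‖ * ‖w‖ ^ (n + 1)
        ≤ r * ((n + 1) * r ^ n * ‖z - w‖) + ‖z - w‖ * r ^ (n + 1) := add_le_add h3 h4
      _ = ((n + 1 : ℕ) + 1) * r ^ (n + 1) * ‖z - w‖ := by push_cast; ring

/-- `u` is close to the identity on the disc of radius `r0`. -/
theorem u_approx {z w : ℂ} (hz : ‖z‖ ≤ r0) (hw : ‖w‖ ≤ r0) :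
    ‖u z - u w - (z - w)‖ ≤ (1 / 10) * ‖z - w‖ := by
  have s1 := summable_term hz
  have s2 := summable_term hw
  have h0 : u z - u w = ∑' n, (coef n * z ^ n - coef n * w ^ n) := by
    unfold u
    rw [s1.tsum_sub s2]
  have s3 : Summable (fun n => coef n * z ^ n - coef n * w ^ n) := s1.sub s2
  have h1 : u z - u w - (z - w) =
      ∑' n, (coef (n + 2) * z ^ (n + 2) - coef (n + 2) * w ^ (n + 2)) := by
    rw [h0, ← s3.sum_add_tsum_nat_add 2]
    simp [Finset.sum_range_succ, coef_zero, coef_one]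
  rw [h1]
  set ρ : ℝ := 4096 * r0 with hρ
  have hρ0 : 0 ≤ ρ := by have := r0_pos; positivity
  have hρ1 : ρ < 1 := by rw [hρ]; unfold r0; norm_num
  have hg : HasSum (fun n : ℕ => (2048 * ρ * ‖z - w‖) * ρ ^ n)
      ((2048 * ρ * ‖z - w‖) * (1 - ρ)⁻¹) := (hasSum_geometric_of_lt_one hρ0 hρ1).mul_left _
  have hbound : ∀ n : ℕ, ‖coef (n + 2) * z ^ (n + 2) - coef (n + 2) * w ^ (n + 2)‖ ≤
      (2048 * ρ * ‖z - w‖) * ρ ^ n := by
    intro n
    rw [← mul_sub, norm_mul]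
    have h2 := norm_coef_le (n + 2)
    have h3 := norm_pow_sub_pow_le hz hw (n + 1)
    have h4 : ((n + 1 : ℕ) : ℝ) + 1 ≤ 2 ^ (n + 1) := by
      have : n + 1 + 1 ≤ 2 ^ (n + 1) := Nat.lt_two_pow_self
      exact_mod_cast this
    have hr := r0_pos
    calc ‖coef (n + 2)‖ * ‖z ^ (n + 2) - w ^ (n + 2)‖
        ≤ 2048 ^ (n + 2) * ((((n + 1 : ℕ) : ℝ) + 1) * r0 ^ (n + 1) * ‖z - w‖) := by
          apply mul_le_mul h2 h3 (norm_nonneg _) (by positivity)
      _ ≤ 2048 ^ (n + 2) * (2 ^ (n + 1) * r0 ^ (n + 1) * ‖z - w‖) := by gcongr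
      _ = (2048 * ρ * ‖z - w‖) * ρ ^ n := by
          rw [hρ, mul_pow, show (4096 : ℝ) = 2048 * 2 by norm_num, mul_pow]
          ring
  refine (tsum_of_norm_bounded hg hbound).trans ?_
  have h5 : 2048 * ρ * (1 - ρ)⁻¹ ≤ 1 / 10 := by
    rw [hρ]; unfold r0; norm_num
  calc (2048 * ρ * ‖z - w‖) * (1 - ρ)⁻¹ = (2048 * ρ * (1 - ρ)⁻¹) * ‖z - w‖ := by ring
    _ ≤ (1 / 10) * ‖z - w‖ := mul_le_mul_of_nonneg_right h5 (norm_nonneg _)

lemma u_lip {z w : ℂ} (hz : ‖z‖ ≤ r0) (hw : ‖w‖ ≤ r0) : ‖u z - u w‖ ≤ (11 / 10) * ‖z - w‖ := by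
  have h := u_approx hz hw
  have h1 : ‖u z - u w‖ ≤ ‖u z - u w - (z - w)‖ + ‖z - w‖ := by
    have := norm_add_le (u z - u w - (z - w)) (z - w)
    simpa using this
  linarith

lemma u_lower {z w : ℂ} (hz : ‖z‖ ≤ r0) (hw : ‖w‖ ≤ r0) : (9 / 10) * ‖z - w‖ ≤ ‖u z - u w‖ := by
  have h := u_approx hz hw
  have h1 : ‖z - w‖ ≤ ‖u z - u w - (z - w)‖ + ‖u z - u w‖ := by
    have := norm_sub_le (u z - u w - (z - w)) (u z - u w)
    rw [show u z - u w - (z - w) - (u z - u w) = -(z - w) by ring, norm_neg] at this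
    exact this
  linarith

lemma u_inj {z w : ℂ} (hz : ‖z‖ ≤ r0) (hw : ‖w‖ ≤ r0) (h : u z = u w) : z = w := by
  have h1 := u_lower hz hw
  rw [h, sub_self, norm_zero] at h1
  have h2 : ‖z - w‖ = 0 := le_antisymm (by linarith) (norm_nonneg _)
  exact sub_eq_zero.1 (norm_eq_zero.1 h2)

lemma u_surj {z₀ x : ℂ} {ρ : ℝ} (hρ : 0 ≤ ρ) (hz₀ : ‖z₀‖ + ρ ≤ r0)
    (hx : ‖x - u z₀‖ ≤ (9 / 10) * ρ) : ∃ z, ‖z - z₀‖ ≤ ρ ∧ u z = x := by
  have hsub : Metric.closedBall z₀ ρ ⊆ Metric.closedBall (0 : ℂ) r0 := by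
    intro z hz
    rw [mem_closedBall_zero_iff]
    rw [mem_closedBall_iff_norm] at hz
    have : ‖z‖ ≤ ‖z - z₀‖ + ‖z₀‖ := by simpa using norm_add_le (z - z₀) z₀
    linarith
  have happ : ApproximatesLinearOn u ((ContinuousLinearEquiv.refl ℂ ℂ : ℂ ≃L[ℂ] ℂ) : ℂ →L[ℂ] ℂ)
      (Metric.closedBall (0 : ℂ) r0) (1 / 10 : NNReal) := by
    intro z hz w hw
    rw [mem_closedBall_zero_iff] at hz hw
    have := u_approx hz hw
    simpa using this
  have hsurj := happ.surjOn_closedBall_of_nonlinearRightInverse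
    (ContinuousLinearEquiv.refl ℂ ℂ).toNonlinearRightInverse hρ hsub
  have hn : ((ContinuousLinearEquiv.refl ℂ ℂ).toNonlinearRightInverse.nnnorm : ℝ) = 1 := by
    change ‖((ContinuousLinearEquiv.refl ℂ ℂ).symm : ℂ →L[ℂ] ℂ)‖ = 1
    exact ContinuousLinearMap.norm_id
  rw [hn] at hsurj
  have hx' : x ∈ Metric.closedBall (u z₀) (((1 : ℝ)⁻¹ - ((1 / 10 : NNReal) : ℝ)) * ρ) := by
    rw [mem_closedBall_iff_norm]
    refine hx.trans (le_of_eq ?_)
    push_cast
    norm_num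
  obtain ⟨z, hz, hzx⟩ := hsurj hx'
  rw [mem_closedBall_iff_norm] at hz
  exact ⟨z, hz, hzx⟩

lemma continuousOn_u : ContinuousOn u (Metric.closedBall 0 r0) := by
  have : LipschitzOnWith (11 / 10 : NNReal) u (Metric.closedBall 0 r0) := by
    apply LipschitzOnWith.of_dist_le_mul
    intro z hz w hw
    rw [mem_closedBall_zero_iff] at hz hw
    rw [dist_eq_norm, dist_eq_norm]
    have := u_lip hz hw
    simpa using this
  exact this.continuousOn

end Pool.Agent.Helper179.Siegel
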