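import Pool.Agent.Helper179.EqDefs
import Pool.Agent.Helper179.KSLip

open MeasureTheory Filter Topology
open scoped ENNReal NNReal

namespace Pool.Agent.Helper179.Eq

open Pool.Agent.Helper179.KS

/-- The tent function around the origin. -/
noncomputable def tent (z : ℂ × ℂ) : ℝ := max 0 (1 - 4 * ‖z‖)

lemma tent_zero : tent 0 = 1 := by simp [tent]

lemma tent_nonneg (z : ℂ × ℂ) : 0 ≤ tent z := le_max_left _ _

lemma tent_eq_zero {z : ℂ × ℂ} (hz : 1 / 4 ≤ ‖z‖) : tent z = 0 := by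
  unfold tent
  apply max_eq_left
  linarith

lemma continuous_tent : Continuous tent := by
  unfold tent
  fun_prop

lemma abs_tent_sub_le (z w : ℂ × ℂ) : |tent z - tent w| ≤ 4 * ‖z - w‖ := by
  unfold tent
  have h1 : |max 0 (1 - 4 * ‖z‖) - max 0 (1 - 4 * ‖w‖)| ≤ |(1 - 4 * ‖z‖) - (1 - 4 * ‖w‖)| := by
    have := abs_max_sub_max_le_max 0 (1 - 4 * ‖z‖) 0 (1 - 4 * ‖w‖)
    simpa using this
  refine le_trans h1 ?_
  have h2 : (1 - 4 * ‖z‖) - (1 - 4 * ‖w‖) = -4 * (‖z‖ - ‖w‖) := by ring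
  rw [h2, abs_mul]
  have := abs_norm_sub_norm_le z w
  norm_num
  exact this

lemma norm_le_euclid (z : ℂ × ℂ) : ‖z‖ ≤ Real.sqrt (‖z.1‖ ^ 2 + ‖z.2‖ ^ 2) := by
  rw [Prod.norm_def]
  apply max_le
  · apply Real.le_sqrt_of_sq_le
    nlinarith [sq_nonneg ‖z.2‖]
  · apply Real.le_sqrt_of_sq_le
    nlinarith [sq_nonneg ‖z.1‖]

lemma isHolder_smul_tent (t : ℝ) : IsHolder (fun z => t * tent z) := by
  refine ⟨1, |t| * 4, one_pos, le_rfl, ?_⟩
  intro z w
  rw [Real.rpow_one, ← mul_sub, abs_mul]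
  have h1 := abs_tent_sub_le z w
  have h2 := norm_le_euclid (z - w)
  simp only [Prod.fst_sub, Prod.snd_sub] at h2
  calc |t| * |tent z - tent w| ≤ |t| * (4 * ‖z - w‖) := by gcongr
    _ ≤ |t| * (4 * Real.sqrt (‖z.1 - w.1‖ ^ 2 + ‖z.2 - w.2‖ ^ 2)) := by gcongr
    _ = _ := by ring

/-- Standing hypotheses: the origin is a fixed point which is the only point of a neighbourhood
seen by invariant probability measures, and the entropies are bounded. -/
structure SinkData (f : ℂ × ℂ → ℂ × ℂ) (H : ℝ) : Prop where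
  meas : Measurable f
  pre : f ⁻¹' {0} = {0}
  sink : ∀ ν : Measure (ℂ × ℂ), IsProbabilityMeasure ν → MeasurePreserving f ν ν →
    ∀ᵐ z ∂ν, z ≠ 0 → 1 / 4 ≤ ‖z‖
  bound : ∀ ν : Measure (ℂ × ℂ), IsProbabilityMeasure ν → MeasurePreserving f ν ν →
    ksEntropy ν f ≤ (H : EReal)

lemma integral_smul_tent {f : ℂ × ℂ → ℂ × ℂ} {H : ℝ} (hf : SinkData f H) (t : ℝ)
    {ν : Measure (ℂ × ℂ)} (hν : IsInvariantProb f ν) :
    ∫ z, t * tent z ∂ν = t * ν.real {0} := by
  have := hν.1
  have h1 : (fun z => t * tent z) =ᵐ[ν] Set.indicator {0} (fun _ => t) := by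
    filter_upwards [hf.sink ν hν.1 hν.2] with z hz
    by_cases h : z = 0
    · subst h
      simp [tent_zero]
    · rw [tent_eq_zero (hz h)]
      rw [Set.indicator_of_notMem (by simpa using h)]
      simp
  rw [integral_congr_ae h1, integral_indicator (measurableSet_singleton 0), setIntegral_const,
    smul_eq_mul, mul_comm]

lemma dirac_of_compl {ν : Measure (ℂ × ℂ)} [IsProbabilityMeasure ν]
    (h : ν ({0}ᶜ : Set (ℂ × ℂ)) = 0) : ν = Measure.dirac 0 := by
  ext B hB
  have h0 : ν {0} = 1 := (prob_compl_eq_zero_iff (measurableSet_singleton 0)).1 h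
  by_cases h1 : (0 : ℂ × ℂ) ∈ B
  · rw [Measure.dirac_apply' _ hB, Set.indicator_of_mem h1]
    apply le_antisymm prob_le_one
    have h2 : ν {0} ≤ ν B := measure_mono (by simpa using h1)
    rw [h0] at h2
    exact h2
  · rw [Measure.dirac_apply' _ hB, Set.indicator_of_notMem h1]
    apply measure_mono_null _ h
    intro z hz hz'
    simp only [Set.mem_singleton_iff] at hz'
    exact h1 (hz' ▸ hz)

lemma SinkData.entropy_le {f : ℂ × ℂ → ℂ × ℂ} {H : ℝ} (hf : SinkData f H)
    {ν : Measure (ℂ × ℂ)} (hν : IsInvariantProb f ν) {S : ℝ}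
    (hS : ∀ μ, IsInvariantProb f μ → ksEntropy μ f ≤ (S : EReal)) :
    ksEntropy ν f ≤ (((1 - ν.real {0}) * S : ℝ) : EReal) := by
  have := hν.1
  have := ksEntropy_le_of_invariant_set ν hν.2 (measurableSet_singleton 0) hf.pre 0 S
    (by
      intro μ hμ _ h0 _
      have := hμ
      rw [dirac_of_compl h0, ksEntropy_dirac 0 hf.meas]
      simp)
    (by
      intro μ hμ hT _ _
      exact hS μ ⟨hμ, hT⟩)
  simpa using this

lemma SinkData.dirac_inv {f : ℂ × ℂ → ℂ × ℂ} {H : ℝ} (hf : SinkData f H) {b : ℂ × ℂ}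
    (hb : f b = b) : IsInvariantProb f (Measure.dirac b) := by
  refine ⟨inferInstance, hf.meas, ?_⟩
  rw [Measure.map_dirac' hf.meas, hb]

lemma SinkData.map_zero {f : ℂ × ℂ → ℂ × ℂ} {H : ℝ} (hf : SinkData f H) : f 0 = 0 := by
  have : (0 : ℂ × ℂ) ∈ f ⁻¹' {0} := by rw [hf.pre]; rfl
  simpa using this

/-- Free energy bound for the tent weights. -/
lemma SinkData.freeEnergy_le {f : ℂ × ℂ → ℂ × ℂ} {H : ℝ} (hf : SinkData f H)
    {ν : Measure (ℂ × ℂ)} (hν : IsInvariantProb f ν) {S : ℝ}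
    (hS : ∀ μ, IsInvariantProb f μ → ksEntropy μ f ≤ (S : EReal)) (t : ℝ) :
    freeEnergy f (fun z => t * tent z) ν ≤
      (((1 - ν.real {0}) * S + t * ν.real {0} : ℝ) : EReal) := by
  unfold freeEnergy
  rw [integral_smul_tent hf t hν, EReal.coe_add]
  exact add_le_add (hf.entropy_le hν hS) le_rfl

lemma SinkData.freeEnergy_dirac {f : ℂ × ℂ → ℂ × ℂ} {H : ℝ} (hf : SinkData f H) (t : ℝ) :
    freeEnergy f (fun z => t * tent z) (Measure.dirac 0) = (t : EReal) := by
  unfold freeEnergy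
  rw [ksEntropy_dirac 0 hf.meas]
  simp [tent_zero]

/-- For a weight with a high peak at the sink the Dirac mass at the sink is the unique
equilibrium state. -/
theorem SinkData.unique_of_large {f : ℂ × ℂ → ℂ × ℂ} {H : ℝ} (hf : SinkData f H) {t : ℝ}
    (ht : H < t) :
    pressure f (fun z => t * tent z) = (t : EReal) ∧
    IsEquilibriumState f (fun z => t * tent z) (Measure.dirac 0) ∧
    ∀ ν, IsEquilibriumState f (fun z => t * tent z) ν → ν = Measure.dirac 0 := by
  have hle : ∀ ν, IsInvariantProb f ν → freeEnergy f (fun z => t * tent z) ν ≤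
      (((1 - ν.real {0}) * H + t * ν.real {0} : ℝ) : EReal) := fun ν hν =>
    hf.freeEnergy_le hν (fun μ hμ => hf.bound μ hμ.1 hμ.2) t
  have hle1 : ∀ ν : Measure (ℂ × ℂ), IsInvariantProb f ν → ν.real {0} ≤ 1 := by
    intro ν hν
    have := hν.1
    exact measureReal_le_one
  have hp : pressure f (fun z => t * tent z) = (t : EReal) := by
    apply le_antisymm
    · unfold pressure
      apply iSup_le
      intro ν
      apply iSup_le
      intro hν
      refine le_trans (hle ν hν) ?_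
      have h1 := hle1 ν hν
      have : (1 - ν.real {0}) * H + t * ν.real {0} ≤ t := by nlinarith
      exact_mod_cast this
    · rw [← hf.freeEnergy_dirac t]
      exact le_iSup_of_le _ (le_iSup_of_le (hf.dirac_inv hf.map_zero) le_rfl)
  refine ⟨hp, ⟨hf.dirac_inv hf.map_zero, ?_⟩, ?_⟩
  · rw [hp, hf.freeEnergy_dirac t]
  · intro ν hν
    have := hν.1.1
    have h1 := hν.2
    rw [hp] at h1
    have h2 := hle ν hν.1
    rw [h1] at h2
    have h3 : t ≤ (1 - ν.real {0}) * H + t * ν.real {0} := by exact_mod_cast h2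
    have h4 : ν.real {0} = 1 := by
      have := hle1 ν hν.1
      by_contra hne
      have hlt : ν.real {0} < 1 := lt_of_le_of_ne this hne
      nlinarith
    apply dirac_of_compl
    rw [prob_compl_eq_zero_iff (measurableSet_singleton 0)]
    have : ν {0} = ENNReal.ofReal (ν.real {0}) := by
      rw [ofReal_measureReal]
    rw [this, h4]
    simp

/-- A sink destroys uniqueness for some Hölder weight. -/
theorem SinkData.exists_not_unique {f : ℂ × ℂ → ℂ × ℂ} {H : ℝ} (hf : SinkData f H)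
    {b : ℂ × ℂ} (hb : f b = b) (hb0 : b ≠ 0) :
    ∃ t : ℝ, ¬ ∃! ν, IsEquilibriumState f (fun z => t * tent z) ν := by
  by_contra hcon
  push Not at hcon
  -- the supremum of the entropies
  set S' : EReal := pressure f (fun z => 0 * tent z) with hS'
  have hfe : ∀ ν, freeEnergy f (fun z => 0 * tent z) ν = ksEntropy ν f := by
    intro ν
    unfold freeEnergy
    simp
  obtain ⟨ν₀, hν₀, hν₀u⟩ := hcon 0
  have hν₀S : ksEntropy ν₀ f = S' := by
    have := hν₀.2
    rw [hfe] at this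
    exact this
  have hS'le : S' ≤ (H : EReal) := by
    rw [← hν₀S]
    exact hf.bound ν₀ hν₀.1.1 hν₀.1.2
  have hS'nn : 0 ≤ S' := by
    rw [← hν₀S]
    have := hν₀.1.1
    exact ksEntropy_nonneg _ _
  obtain ⟨S, hS⟩ : ∃ S : ℝ, S' = (S : EReal) := by
    refine ⟨S'.toReal, (EReal.coe_toReal ?_ ?_).symm⟩
    · intro h; rw [h] at hS'le; simp at hS'le
    · intro h; rw [h] at hS'nn; simp at hS'nn
  have hSsup : ∀ μ, IsInvariantProb f μ → ksEntropy μ f ≤ (S : EReal) := by
    intro μ hμ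
    rw [← hS, ← hfe μ, hS']
    exact le_iSup_of_le μ (le_iSup_of_le hμ le_rfl)
  have hp : pressure f (fun z => S * tent z) = (S : EReal) := by
    apply le_antisymm
    · apply iSup_le
      intro ν
      apply iSup_le
      intro hν
      refine le_trans (hf.freeEnergy_le hν hSsup S) ?_
      have : (1 - ν.real {0}) * S + S * ν.real {0} = S := by ring
      rw [this]
    · rw [← hf.freeEnergy_dirac S]
      exact le_iSup_of_le _ (le_iSup_of_le (hf.dirac_inv hf.map_zero) le_rfl)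
  have hSnn : 0 ≤ S := by
    rw [hS] at hS'nn
    exact_mod_cast hS'nn
  obtain ⟨ν₁, _, hν₁u⟩ := hcon S
  have e1 : IsEquilibriumState f (fun z => S * tent z) (Measure.dirac 0) :=
    ⟨hf.dirac_inv hf.map_zero, by rw [hp, hf.freeEnergy_dirac]⟩
  have e2 : IsEquilibriumState f (fun z => S * tent z) ν₀ := by
    refine ⟨hν₀.1, le_antisymm ?_ ?_⟩
    · exact le_iSup_of_le ν₀ (le_iSup_of_le hν₀.1 le_rfl)
    · rw [hp]
      unfold freeEnergy
      rw [hν₀S, hS, integral_smul_tent hf S hν₀.1]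
      have : S ≤ S + S * ν₀.real {0} := by
        have : 0 ≤ S * ν₀.real {0} := mul_nonneg hSnn measureReal_nonneg
        linarith
      exact_mod_cast this
  have e3 : ν₀ = Measure.dirac 0 := (hν₁u _ e2).trans (hν₁u _ e1).symm
  have hS0 : S = 0 := by
    rw [e3, ksEntropy_dirac 0 hf.meas, hS] at hν₀S
    exact_mod_cast hν₀S.symm
  have e4 : IsEquilibriumState f (fun z => 0 * tent z) (Measure.dirac b) := by
    refine ⟨hf.dirac_inv hb, ?_⟩
    rw [hfe, ksEntropy_dirac b hf.meas, ← hS', hS, hS0]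
    simp
  have e5 : Measure.dirac b = ν₀ := hν₀u _ e4
  rw [e3] at e5
  have e6 : (Measure.dirac b : Measure (ℂ × ℂ)) {0} = (Measure.dirac 0 : Measure (ℂ × ℂ)) {0} := by
    rw [e5]
  rw [Measure.dirac_apply' _ (measurableSet_singleton 0),
    Measure.dirac_apply' _ (measurableSet_singleton 0)] at e6
  rw [Set.indicator_of_notMem (by simpa using hb0), Set.indicator_of_mem (by simp)] at e6
  simp at e6

end Pool.Agent.Helper179.Eq
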