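import Pool.Agent.Helper179.SiegelFinal

open MeasureTheory Filter Topology
open scoped ENNReal NNReal

namespace Pool.Agent.Helper179.Eq

open Pool.Agent.Helper179.KS

/-- Conjugation by the swap of coordinates. -/
def conj (f : ℂ × ℂ → ℂ × ℂ) (p : ℂ × ℂ) : ℂ × ℂ := (f p.swap).swap

lemma conj_iterate (f : ℂ × ℂ → ℂ × ℂ) (n : ℕ) (p : ℂ × ℂ) : (conj f)^[n] p = (f^[n] p.swap).swap := by
  induction n generalizing p with
  | zero => simp
  | succ n ih =>
    rw [Function.iterate_succ_apply, ih, Function.iterate_succ_apply]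
    simp [conj]

lemma conj_conj (f : ℂ × ℂ → ℂ × ℂ) : conj (conj f) = f := by
  funext p
  simp [conj]

lemma map_swap_swap (ν : Measure (ℂ × ℂ)) : (ν.map Prod.swap).map Prod.swap = ν := by
  rw [Measure.map_map measurable_swap measurable_swap]
  simp

lemma measurable_conj {f : ℂ × ℂ → ℂ × ℂ} (hf : Measurable f) : Measurable (conj f) :=
  measurable_swap.comp (hf.comp measurable_swap)

lemma swap_measurableEmbedding : MeasurableEmbedding (Prod.swap : ℂ × ℂ → ℂ × ℂ) :=
  MeasurableEquiv.prodComm.measurableEmbedding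

lemma shannon_map_swap {ι : Type*} [Fintype ι] (ν : Measure (ℂ × ℂ)) (P : ℂ × ℂ → ι) :
    shannonEntropy (ν.map Prod.swap) P = shannonEntropy ν (P ∘ Prod.swap) := by
  unfold shannonEntropy
  apply Finset.sum_congr rfl
  intro i _
  congr 1
  unfold Measure.real
  rw [swap_measurableEmbedding.map_apply]
  rfl

lemma itinerary_comp_swap {ι : Type*} (f : ℂ × ℂ → ℂ × ℂ) (P : ℂ × ℂ → ι) (n : ℕ) :
    itinerary (conj f) P n ∘ Prod.swap = itinerary f (P ∘ Prod.swap) n := by
  funext p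
  funext j
  simp only [Function.comp_apply, itinerary]
  rw [conj_iterate]
  simp

lemma ksEntropy_map_swap_le (f : ℂ × ℂ → ℂ × ℂ) (ν : Measure (ℂ × ℂ)) :
    ksEntropy (ν.map Prod.swap) (conj f) ≤ ksEntropy ν f := by
  rw [ksEntropy_le_iff]
  intro k P hP
  have h1 : partitionEntropy (ν.map Prod.swap) (conj f) P = partitionEntropy ν f (P ∘ Prod.swap) := by
    unfold partitionEntropy
    congr 1
    funext n
    rw [shannon_map_swap, itinerary_comp_swap]
  rw [h1]
  unfold ksEntropy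
  exact le_iSup_of_le k (le_iSup_of_le (P ∘ Prod.swap)
    (le_iSup_of_le (hP.comp measurable_swap) le_rfl))

lemma ksEntropy_map_swap (f : ℂ × ℂ → ℂ × ℂ) (ν : Measure (ℂ × ℂ)) :
    ksEntropy (ν.map Prod.swap) (conj f) = ksEntropy ν f := by
  apply le_antisymm (ksEntropy_map_swap_le f ν)
  have h := ksEntropy_map_swap_le (conj f) (ν.map Prod.swap)
  rwa [map_swap_swap, conj_conj] at h

lemma isInvariantProb_map_swap {f : ℂ × ℂ → ℂ × ℂ} {ν : Measure (ℂ × ℂ)}
    (h : IsInvariantProb f ν) : IsInvariantProb (conj f) (ν.map Prod.swap) := by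
  have hp := h.1
  refine ⟨Measure.isProbabilityMeasure_map measurable_swap.aemeasurable,
    measurable_conj h.2.measurable, ?_⟩
  rw [Measure.map_map (measurable_conj h.2.measurable) measurable_swap]
  have h1 : conj f ∘ Prod.swap = Prod.swap ∘ f := by
    funext p
    simp [conj]
  rw [h1, ← Measure.map_map measurable_swap h.2.measurable, h.2.map_eq]

lemma freeEnergy_map_swap (f : ℂ × ℂ → ℂ × ℂ) (φ : ℂ × ℂ → ℝ) (ν : Measure (ℂ × ℂ)) :
    freeEnergy (conj f) (φ ∘ Prod.swap) (ν.map Prod.swap) = freeEnergy f φ ν := by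
  unfold freeEnergy
  rw [ksEntropy_map_swap, swap_measurableEmbedding.integral_map]
  simp

lemma pressure_conj_le (f : ℂ × ℂ → ℂ × ℂ) (φ : ℂ × ℂ → ℝ) :
    pressure f φ ≤ pressure (conj f) (φ ∘ Prod.swap) := by
  apply iSup_le
  intro ν
  apply iSup_le
  intro hν
  rw [← freeEnergy_map_swap]
  exact le_iSup_of_le (ν.map Prod.swap) (le_iSup_of_le (isInvariantProb_map_swap hν) le_rfl)

lemma pressure_conj (f : ℂ × ℂ → ℂ × ℂ) (φ : ℂ × ℂ → ℝ) :
    pressure (conj f) (φ ∘ Prod.swap) = pressure f φ := by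
  apply le_antisymm _ (pressure_conj_le f φ)
  have h := pressure_conj_le (conj f) (φ ∘ Prod.swap)
  rw [conj_conj] at h
  have h1 : (φ ∘ Prod.swap) ∘ Prod.swap = φ := by
    funext p
    simp
  rwa [h1] at h

lemma isEquilibriumState_conj {f : ℂ × ℂ → ℂ × ℂ} {φ : ℂ × ℂ → ℝ} {ν : Measure (ℂ × ℂ)}
    (h : IsEquilibriumState f φ ν) :
    IsEquilibriumState (conj f) (φ ∘ Prod.swap) (ν.map Prod.swap) :=
  ⟨isInvariantProb_map_swap h.1, by rw [freeEnergy_map_swap, pressure_conj, h.2]⟩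

lemma unique_conj {f : ℂ × ℂ → ℂ × ℂ} {φ : ℂ × ℂ → ℝ} {μ : Measure (ℂ × ℂ)}
    (hu : ∀ ν, IsEquilibriumState f φ ν → ν = μ) (ν : Measure (ℂ × ℂ))
    (h : IsEquilibriumState (conj f) (φ ∘ Prod.swap) ν) : ν = μ.map Prod.swap := by
  have h1 := isEquilibriumState_conj h
  rw [conj_conj] at h1
  have h2 : (φ ∘ Prod.swap) ∘ Prod.swap = φ := by
    funext p
    simp
  rw [h2] at h1
  rw [← hu _ h1, map_swap_swap]

lemma isHolder_comp_swap {g : ℂ × ℂ → ℝ} (hg : IsHolder g) : IsHolder (g ∘ Prod.swap) := by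
  obtain ⟨α, C, h1, h2, h3⟩ := hg
  refine ⟨α, C, h1, h2, ?_⟩
  intro z w
  have := h3 z.swap w.swap
  simp only [Function.comp_apply]
  rw [add_comm (‖z.1 - w.1‖ ^ 2)]
  exact this

end Pool.Agent.Helper179.Eq
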